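import Pool.Agent.Lib.MP_f0b71a_al.TorC

/-! # `Ext`: the maps `Ext^m(k, k) → Ext^(m+1)(M, N)` and `Ext^m(M, N) → Ext^(m+1)(k, k)` -/

universe u

namespace Pool.Agent.Lib.MP_f0b71a_al

open IsLocalRing
open scoped Matrix

section

variable {R : Type u} [CommRing R] [IsLocalRing R] {P : MinRes R}

/-- The transposed differential with values in `𝔪`. -/
def MinRes.dt (P : MinRes R) (n : ℕ) :
    (Fin (P.b n) → R) →ₗ[R] (Fin (P.b (n + 1)) → maximalIdeal R) where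
  toFun := fun x i => ⟨((P.d n)ᵀ *ᵥ x) i, by
    simp only [Matrix.mulVec, dotProduct]
    exact Ideal.sum_mem _ fun j _ => Ideal.mul_mem_right _ _ (P.mem n j i)⟩
  map_add' := fun x y => by
    funext i
    ext
    simp [Matrix.mulVec_add]
  map_smul' := fun c x => by
    funext i
    ext
    simp [Matrix.mulVec_smul]

theorem MinRes.dt_coe (n : ℕ) (x : Fin (P.b n) → R) (i : Fin (P.b (n + 1))) :
    ((P.dt n x i : maximalIdeal R) : R) = ((P.d n)ᵀ *ᵥ x) i := rfl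

theorem MinRes.dt_coe' (n : ℕ) (x : Fin (P.b n) → R) :
    (fun i => ((P.dt n x i : maximalIdeal R) : R)) = (P.d n)ᵀ *ᵥ x := rfl

theorem MinRes.act_dt (n : ℕ) (x : Fin (P.b n) → R) :
    act (maximalIdeal R) (P.d (n + 1))ᵀ (P.dt n x) = 0 := by
  funext i
  ext
  rw [act_coe, P.dt_coe', Matrix.mulVec_mulVec, ← Matrix.transpose_mul, P.mul_eq_zero,
    Matrix.transpose_zero, Matrix.zero_mulVec]
  rfl

/-- The transpose of `(1 ⊗ ψ) d`. -/
noncomputable def MinRes.Dt (P : MinRes R) (ψ : maximalIdeal R →ₗ[R] ResidueField R) (n : ℕ) :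
    (Fin (P.b n) → R) →ₗ[R] (Fin (P.b (n + 1)) → ResidueField R) :=
  (ψ.compLeft (Fin (P.b (n + 1)))) ∘ₗ P.dt n

theorem MinRes.Dt_apply (ψ : maximalIdeal R →ₗ[R] ResidueField R) (n : ℕ)
    (x : Fin (P.b n) → R) (i : Fin (P.b (n + 1))) : P.Dt ψ n x i = ψ (P.dt n x i) := rfl

theorem MinRes.Dt_eq_zero (ψ : maximalIdeal R →ₗ[R] ResidueField R) (n : ℕ)
    (x : Fin (P.b n) → R) (hx : ∀ i, x i ∈ maximalIdeal R) : P.Dt ψ n x = 0 :=
  mem_sum_smul _ (fun _ ha v => smul_vec_eq_zero ha v) x hx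

theorem MinRes.Dt_congr (ψ : maximalIdeal R →ₗ[R] ResidueField R) (n : ℕ)
    {x y : Fin (P.b n) → R} (h : red _ x = red _ y) : P.Dt ψ n x = P.Dt ψ n y := by
  have h1 : red _ (x - y) = 0 := by rw [map_sub, h, sub_self]
  have h2 := P.Dt_eq_zero ψ n (x - y) ((red_eq_zero _).1 h1)
  rw [map_sub] at h2
  exact sub_eq_zero.1 h2

theorem Hom.sqt {a : R} (H : Hom P a) (n : ℕ) (y : Fin (P.b (n + 2)) → ResidueField R) :
    act (ResidueField R) (H.σ n)ᵀ (act (ResidueField R) (H.σ (n + 1))ᵀ y) = 0 := by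
  rw [← act_mul, ← Matrix.transpose_mul]
  exact act_mem_zero (fun i j => H.sq_mem n j i) y

theorem Deg.act_st {χ : maximalIdeal R →ₗ[R] ResidueField R} (Φ : Deg P χ) {a : R}
    (ha : a ∈ maximalIdeal R) (H : Hom P a) {c : R} (hc : residue R c = χ ⟨a, ha⟩) (n : ℕ)
    (y : Fin (P.b n) → ResidueField R) :
    act (ResidueField R) (Φ.s H n)ᵀ y = (-1 : R) ^ n • c • y := by
  have h1 : act (ResidueField R) ((-1 : R) ^ n • (Φ.s H n)ᵀ - c • 1) y = 0 := by
    refine act_mem_zero (fun i j => ?_) y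
    have h2 := Φ.s_mem ha H hc n j i
    have h3 : ((-1 : R) ^ n • (Φ.s H n)ᵀ - c • (1 : Matrix (Fin (P.b n)) (Fin (P.b n)) R)) i j =
        ((-1 : R) ^ n • Φ.s H n - c • 1) j i := by
      simp only [Matrix.sub_apply, Matrix.smul_apply, Matrix.transpose_apply, Matrix.one_apply,
        eq_comm]
    rw [h3]
    exact h2
  rw [act_sub, act_smul, act_smul, act_one] at h1
  have h2 : (-1 : R) ^ n • act (ResidueField R) (Φ.s H n)ᵀ y = c • y := sub_eq_zero.1 h1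
  rw [← h2, smul_smul, ← mul_pow]
  simp

theorem Deg.relt0 {χ : maximalIdeal R →ₗ[R] ResidueField R} (Φ : Deg P χ) {a : R}
    (ha : a ∈ maximalIdeal R) (H : Hom P a) {c : R} (hc : residue R c = χ ⟨a, ha⟩)
    (y : Fin (P.b 0) → ResidueField R) :
    act (ResidueField R) (H.σ 0)ᵀ (act (ResidueField R) (Φ.φ 0)ᵀ y) = c • y := by
  have h1 := Φ.act_st ha H hc 0 y
  rw [Deg.s, Matrix.transpose_mul, act_mul, pow_zero, one_smul] at h1
  exact h1

theorem Deg.relt {χ : maximalIdeal R →ₗ[R] ResidueField R} (Φ : Deg P χ) {a : R}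
    (ha : a ∈ maximalIdeal R) (H : Hom P a) {c : R} (hc : residue R c = χ ⟨a, ha⟩) (n : ℕ)
    (y : Fin (P.b (n + 1)) → ResidueField R) :
    act (ResidueField R) (H.σ (n + 1))ᵀ (act (ResidueField R) (Φ.φ (n + 1))ᵀ y) -
      act (ResidueField R) (Φ.φ n)ᵀ (act (ResidueField R) (H.σ n)ᵀ y) =
        (-1 : R) ^ (n + 1) • c • y := by
  have h1 := Φ.act_st ha H hc (n + 1) y
  rw [Deg.s, Matrix.transpose_sub, Matrix.transpose_mul, Matrix.transpose_mul, act_sub, act_mul,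
    act_mul] at h1
  exact h1

theorem Deg.Dt_φ {χ ψ : maximalIdeal R →ₗ[R] ResidueField R} (Φ : Deg P χ) (n : ℕ)
    (x : Fin (P.b n) → R) :
    P.Dt ψ (n + 1) ((Φ.φ n)ᵀ *ᵥ x) = act (ResidueField R) (Φ.φ (n + 1))ᵀ (P.Dt ψ n x) := by
  have h1 := act_map ψ (Φ.φ (n + 1))ᵀ (P.dt n x)
  have h2 : act (maximalIdeal R) (Φ.φ (n + 1))ᵀ (P.dt n x) = P.dt (n + 1) ((Φ.φ n)ᵀ *ᵥ x) := by
    funext i
    ext
    rw [P.dt_coe, act_coe, P.dt_coe', Matrix.mulVec_mulVec, Matrix.mulVec_mulVec,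
      ← Matrix.transpose_mul, ← Matrix.transpose_mul, Φ.comm]
  rw [h2] at h1
  exact h1

theorem Hom.Dt_σ0 {ψ : maximalIdeal R →ₗ[R] ResidueField R} {a : R} (ha : a ∈ maximalIdeal R)
    (H : Hom P a) {c : R} (hc : residue R c = ψ ⟨a, ha⟩) (x : Fin (P.b 0) → R) :
    act (ResidueField R) (H.σ 0)ᵀ (P.Dt ψ 0 x) = c • red _ x := by
  have h1 := act_map ψ (H.σ 0)ᵀ (P.dt 0 x)
  have h2 : act (maximalIdeal R) (H.σ 0)ᵀ (P.dt 0 x) =
      fun i => x i • (⟨a, ha⟩ : maximalIdeal R) := by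
    funext i
    ext
    rw [act_coe, P.dt_coe', Matrix.mulVec_mulVec, ← Matrix.transpose_mul, H.s0]
    simp [Matrix.smul_mulVec, mul_comm]
  rw [h2] at h1
  refine h1.symm.trans ?_
  funext i
  rw [map_smul, ← hc]
  exact smul_residue_comm _ _

theorem Hom.Dt_σ {ψ : maximalIdeal R →ₗ[R] ResidueField R} {a : R} (ha : a ∈ maximalIdeal R)
    (H : Hom P a) {c : R} (hc : residue R c = ψ ⟨a, ha⟩) (n : ℕ) (x : Fin (P.b (n + 1)) → R) :
    act (ResidueField R) (H.σ (n + 1))ᵀ (P.Dt ψ (n + 1) x) =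
      c • red _ x - P.Dt ψ n ((H.σ n)ᵀ *ᵥ x) := by
  have h1 := act_map ψ (H.σ (n + 1))ᵀ (P.dt (n + 1) x)
  have h2 : act (maximalIdeal R) (H.σ (n + 1))ᵀ (P.dt (n + 1) x) =
      fun i => x i • (⟨a, ha⟩ : maximalIdeal R) - P.dt n ((H.σ n)ᵀ *ᵥ x) i := by
    funext i
    ext
    rw [act_coe, P.dt_coe', Matrix.mulVec_mulVec, ← Matrix.transpose_mul, H.sS]
    rw [AddSubgroupClass.coe_sub, P.dt_coe, Matrix.mulVec_mulVec, ← Matrix.transpose_mul]
    simp only [Matrix.transpose_sub, Matrix.transpose_smul, Matrix.transpose_one,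
      Matrix.sub_mulVec, Matrix.smul_mulVec, Matrix.one_mulVec, Pi.sub_apply, Pi.smul_apply,
      smul_eq_mul, SetLike.val_smul]
    rw [mul_comm]
  rw [h2] at h1
  refine h1.symm.trans ?_
  funext i
  rw [map_sub, map_smul, ← hc, Pi.sub_apply]
  congr 1
  exact smul_residue_comm _ _

end

section

variable {R : Type u} [CommRing R] {M : Type u} [AddCommGroup M] [Module R M] (F : Res R M)
  (N : Type u) [AddCommGroup N] [Module R N]

/-- The class of a cocycle, linear in a parameter. -/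
def extMk {X : Type u} [AddCommGroup X] [Module R X] (n : ℕ) (z : X →ₗ[R] (Fin (F.b n) → N))
    (hz : ∀ x, z x ∈ LinearMap.ker (act N (F.d n)ᵀ)) : X →ₗ[R] ExtR F N n :=
  (Submodule.mkQ _) ∘ₗ (LinearMap.codRestrict (LinearMap.ker (act N (F.d n)ᵀ)) z hz)

theorem extMk_eq_zero {X : Type u} [AddCommGroup X] [Module R X] (n : ℕ)
    (z : X →ₗ[R] (Fin (F.b (n + 1)) → N)) (hz : ∀ x, z x ∈ LinearMap.ker (act N (F.d (n + 1))ᵀ))
    (x : X) : extMk F N (n + 1) z hz x = 0 ↔ ∃ y, act N (F.d n)ᵀ y = z x := by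
  have h1 : extMk F N (n + 1) z hz x = Submodule.Quotient.mk ⟨z x, hz x⟩ := rfl
  rw [h1, Submodule.Quotient.mk_eq_zero]
  rfl

instance finite_ext [IsNoetherianRing R] [Module.Finite R N] (n : ℕ) :
    Module.Finite R (ExtR F N n) := by
  have : IsNoetherian R (Fin (F.b n) → N) := inferInstance
  infer_instance

variable {F N} [IsLocalRing R] {P : MinRes R}

/-- The map `Ext^n(M, N) → Ext^(n+1)(k, k)`. -/
noncomputable def extTo {f : maximalIdeal R →ₗ[R] M} (Lf : LiftM F P f)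
    (δ : N →ₗ[R] ResidueField R) (n : ℕ) :
    ExtR F N n →ₗ[R] (Fin (P.b (n + 1)) → ResidueField R) :=
  Submodule.liftQ _ ((act (ResidueField R) (Lf.f n)ᵀ) ∘ₗ (δ.compLeft (Fin (F.b n))) ∘ₗ
    (LinearMap.ker (act N (F.d n)ᵀ)).subtype) (by
    rintro ⟨y, hy⟩ hy'
    rw [LinearMap.mem_ker]
    change act (ResidueField R) (Lf.f n)ᵀ (fun i => δ (y i)) = 0
    match n, y, hy, hy' with
    | 0, y, hy, hy' =>
      have h1 : y = 0 := hy'
      rw [h1]
      have h2 : (fun i => δ ((0 : Fin (F.b 0) → N) i)) = (0 : Fin (F.b 0) → ResidueField R) := by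
        funext i
        simp
      rw [h2, map_zero]
    | n + 1, y, hy, hy' =>
      obtain ⟨y', hy'⟩ := hy'
      have h1 : (fun i => δ (y i)) = act (ResidueField R) (F.d n)ᵀ (fun i => δ (y' i)) := by
        rw [← act_map]
        funext i
        exact congrArg δ (congrFun hy' i).symm
      rw [h1, ← act_mul, ← Matrix.transpose_mul, Lf.comm, Matrix.transpose_mul, act_mul]
      exact act_mem_zero (fun i j => P.mem (n + 1) j i) _)

theorem mem_range_extTo {f : maximalIdeal R →ₗ[R] M} (Lf : LiftM F P f)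
    (δ : N →ₗ[R] ResidueField R) (n : ℕ) {y : Fin (F.b n) → N}
    (hy : act N (F.d n)ᵀ y = 0) :
    act (ResidueField R) (Lf.f n)ᵀ (fun i => δ (y i)) ∈ LinearMap.range (extTo Lf δ n) :=
  ⟨Submodule.Quotient.mk ⟨y, hy⟩, rfl⟩

theorem length_extTo [IsNoetherianRing R] [Module.Finite R N] {f : maximalIdeal R →ₗ[R] M}
    (Lf : LiftM F P f) (δ : N →ₗ[R] ResidueField R) (n : ℕ) :
    Module.length R (LinearMap.range (extTo Lf δ n)) ≤ mu R (ExtR F N n) :=
  length_range_le_mu _ fun _ ha _ => smul_vec_eq_zero ha _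

theorem coc_of {ε : M →ₗ[R] ResidueField R} (Le : LiftE F P ε) (g : maximalIdeal R →ₗ[R] N)
    (n : ℕ) (x : Fin (P.b n) → R) :
    act N (Le.e (n + 1))ᵀ (fun i => g (P.dt n x i)) ∈ LinearMap.ker (act N (F.d (n + 1))ᵀ) := by
  rw [LinearMap.mem_ker, ← act_mul, ← Matrix.transpose_mul, ← Le.comm, Matrix.transpose_mul,
    act_mul, ← act_map, P.act_dt]
  have h1 : (fun i => g ((0 : Fin (P.b (n + 2)) → maximalIdeal R) i)) =
      (0 : Fin (P.b (n + 2)) → N) := by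
    funext i
    simp
  rw [h1, map_zero]

/-- The map `Ext^n(k, k) → Ext^(n+1)(M, N)`, defined on the dual of `P_n`. -/
noncomputable def extOf {ε : M →ₗ[R] ResidueField R} (Le : LiftE F P ε)
    (g : maximalIdeal R →ₗ[R] N) (n : ℕ) : (Fin (P.b n) → R) →ₗ[R] ExtR F N (n + 1) :=
  extMk F N (n + 1) ((act N (Le.e (n + 1))ᵀ) ∘ₗ (g.compLeft (Fin (P.b (n + 1)))) ∘ₗ P.dt n)
    fun x => coc_of Le g n x

theorem extOf_eq_zero {ε : M →ₗ[R] ResidueField R} (Le : LiftE F P ε)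
    (g : maximalIdeal R →ₗ[R] N) (n : ℕ) (x : Fin (P.b n) → R) :
    extOf Le g n x = 0 ↔
      ∃ y, act N (F.d n)ᵀ y = act N (Le.e (n + 1))ᵀ (fun i => g (P.dt n x i)) :=
  extMk_eq_zero _ _ _ _ _ _

theorem extOf_socle {ε : M →ₗ[R] ResidueField R} (Le : LiftE F P ε)
    (g : maximalIdeal R →ₗ[R] N) (n : ℕ) (x : Fin (P.b n) → R) :
    extOf Le g n x ∈ socle R (ExtR F N (n + 1)) := by
  intro b hb
  rw [← map_smul, extOf_eq_zero]
  refine ⟨fun i => ((Le.e n)ᵀ *ᵥ x) i • g ⟨b, hb⟩, ?_⟩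
  have h1 : (fun i => g (P.dt n (b • x) i)) =
      fun i => ((P.d n)ᵀ *ᵥ x) i • g ⟨b, hb⟩ := by
    funext i
    rw [← map_smul]
    congr 1
    ext
    rw [P.dt_coe, Matrix.mulVec_smul]
    simp [mul_comm]
  rw [h1, act_smul_const, act_smul_const, Matrix.mulVec_mulVec, Matrix.mulVec_mulVec,
    ← Matrix.transpose_mul, ← Matrix.transpose_mul, Le.comm]

theorem length_extOf {ε : M →ₗ[R] ResidueField R} (Le : LiftE F P ε)
    (g : maximalIdeal R →ₗ[R] N) (n : ℕ) {X : Type u} [AddCommGroup X] [Module R X]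
    (q : X →ₗ[R] (Fin (P.b n) → R)) :
    Module.length R (LinearMap.range (extOf Le g n ∘ₗ q)) ≤
      Module.length R (socle R (ExtR F N (n + 1))) := by
  refine Module.length_le_of_injective (Submodule.inclusion ?_) (Submodule.inclusion_injective _)
  rintro - ⟨x, rfl⟩
  exact extOf_socle Le g n _

end

end Pool.Agent.Lib.MP_f0b71a_al
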