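import Pool.Agent.Lib.MP_f0b71a_al.TorA
import Pool.Agent.Lib.MP_f0b71a_al.ExtA
import Mathlib.RingTheory.LocalProperties.ProjectiveDimension

/-! # Annihilators of `Tor` and `Ext` from finite projective dimension at a prime -/

universe u

namespace Pool.Agent.Lib.MP_f0b71a_al

open CategoryTheory
open scoped Matrix

/-- `M_p` has finite projective dimension over `R_p`. -/
def FinPD (R : Type u) [CommRing R] (M : Type u) [AddCommGroup M] [Module R M] (p : Ideal R)
    [p.IsPrime] : Prop :=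
  ∃ n : ℕ, HasProjectiveDimensionLE ((ModuleCat.of R M).localizedModule p.primeCompl) n

section

variable {R : Type u} [CommRing R] [IsNoetherianRing R] {M : Type u} [AddCommGroup M] [Module R M]
  [Module.Finite R M]

theorem exists_split {P : Type u} [AddCommGroup P] [Module R P] (S : Submonoid R)
    [Projective ((ModuleCat.of R M).localizedModule S)] (π : P →ₗ[R] M)
    (hπ : Function.Surjective π) : ∃ s ∈ S, ∃ θ : M →ₗ[R] P, ∀ x, π (θ x) = s • x := by
  have : Module.FinitePresentation R M := Module.finitePresentation_of_finite R M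
  have hproj : Module.Projective (Localization S) ((ModuleCat.of R M).localizedModule S) :=
    (IsProjective.iff_projective _).2 inferInstance
  let m : M →ₗ[R] ((ModuleCat.of R M).localizedModule S) :=
    (ModuleCat.of R M).localizedModuleMkLinearMap S
  let q : P →ₗ[R] ((ModuleCat.of R P).localizedModule S) :=
    (ModuleCat.of R P).localizedModuleMkLinearMap S
  have im : IsLocalizedModule S m := ModuleCat.localizedModule_isLocalizedModule _ S
  have iq : IsLocalizedModule S q := ModuleCat.localizedModule_isLocalizedModule _ S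
  let πp := IsLocalizedModule.mapExtendScalars S q m (Localization S) π
  have hs : Function.Surjective πp := IsLocalizedModule.map_surjective S q m π hπ
  obtain ⟨σ, hσ⟩ := Module.projective_lifting_property πp LinearMap.id hs
  obtain ⟨h, s, hh⟩ := Module.FinitePresentation.exists_lift_of_isLocalizedModule S q
    ((σ.restrictScalars R) ∘ₗ m)
  have h1 : m ∘ₗ (π ∘ₗ h) = m ∘ₗ (s • LinearMap.id) := by
    ext x
    have h2 := LinearMap.congr_fun hh x
    have h3 : πp (q (h x)) = m (π (h x)) := IsLocalizedModule.map_apply S q m π (h x)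
    have h4 : q (h x) = s • σ (m x) := h2
    have h5 : πp (σ (m x)) = m x := LinearMap.congr_fun hσ (m x)
    change m (π (h x)) = m (s • x)
    rw [← h3, h4]
    have h6 := (πp.restrictScalars R).map_smul (s : R) (σ (m x))
    exact h6.trans ((congrArg (fun z => (s : R) • z) h5).trans (m.map_smul _ _).symm)
  obtain ⟨t, ht⟩ := Module.Finite.exists_smul_of_comp_eq_of_isLocalizedModule S m _ _ h1
  refine ⟨t * s, (t * s).2, (t : R) • h, fun x => ?_⟩
  have h7 := LinearMap.congr_fun ht x
  change (t : R) • π (h x) = (t : R) • (s : R) • x at h7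
  rw [LinearMap.smul_apply, map_smul, h7, smul_smul]

theorem FinPD.rec' {p : Ideal R} [p.IsPrime]
    {C : ∀ (M : Type u) [AddCommGroup M] [Module R M], Prop}
    (h0 : ∀ (M : Type u) [AddCommGroup M] [Module R M] [Module.Finite R M],
      Projective ((ModuleCat.of R M).localizedModule p.primeCompl) → C M)
    (h1 : ∀ (M : Type u) [AddCommGroup M] [Module R M] [Module.Finite R M],
      (∀ (n : ℕ) (π : (Fin n → R) →ₗ[R] M), Function.Surjective π → C (LinearMap.ker π)) → C M)
    (n : ℕ) : ∀ (M : Type u) [AddCommGroup M] [Module R M] [Module.Finite R M],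
      HasProjectiveDimensionLE ((ModuleCat.of R M).localizedModule p.primeCompl) n → C M := by
  induction n with
  | zero =>
    intro M _ _ _ h
    exact h0 M ((projective_iff_hasProjectiveDimensionLE_zero _).2 h)
  | succ n ih =>
    intro M _ _ _ h
    refine h1 M fun m π hπ => ih _ ?_
    let S := π.shortComplexKer
    have S_exact : S.ShortExact := LinearMap.shortExact_shortComplexKer hπ
    have proj : Projective S.X₂ := by
      rw [← IsProjective.iff_projective]
      exact inferInstanceAs (Module.Projective R (Fin m → R))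
    let Sp := S.map (ModuleCat.localizedModuleFunctor p.primeCompl)
    have Sp_exact : Sp.ShortExact :=
      S_exact.map_of_exact (ModuleCat.localizedModuleFunctor p.primeCompl)
    have projp : Projective Sp.X₂ :=
      (ModuleCat.localizedModuleFunctor.{u} p.primeCompl).projective_obj_of_projective proj
    exact (Sp_exact.hasProjectiveDimensionLT_X₃_iff n projp).1 h

end

section

variable {R : Type u} [CommRing R] {M : Type u} [AddCommGroup M] [Module R M]

/-- The shifted resolution. -/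
def Res.shift (F : Res R M) : Res R (LinearMap.ker F.π) where
  b := fun n => F.b (n + 1)
  d := fun n => F.d (n + 1)
  π := LinearMap.codRestrict _ (F.d 0).mulVecLin fun x => F.π_d x
  surj := by
    rintro ⟨x, hx⟩
    obtain ⟨y, hy⟩ := (F.ex0 x).1 hx
    exact ⟨y, Subtype.ext hy.symm⟩
  ex0 := fun x => by
    rw [← F.ex 0 x]
    constructor
    · intro h
      exact congrArg Subtype.val h
    · intro h
      exact Subtype.ext h
  ex := fun n x => F.ex (n + 1) x

/-- `s` is null homotopic on `F` in high degrees. -/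
def Hty (F : Res R M) (s : R) : Prop :=
  ∃ n0 : ℕ, ∀ k ≥ n0, ∃ (h : Matrix (Fin (F.b (k + 2))) (Fin (F.b (k + 1))) R)
    (h' : Matrix (Fin (F.b (k + 1))) (Fin (F.b k)) R),
    s • (1 : Matrix (Fin (F.b (k + 1))) (Fin (F.b (k + 1))) R) = F.d (k + 1) * h + h' * F.d k

theorem Hty.of_shift {F : Res R M} {s : R} (h : Hty F.shift s) : Hty F s := by
  obtain ⟨n0, hn⟩ := h
  refine ⟨n0 + 1, fun k hk => ?_⟩
  obtain ⟨k, rfl⟩ := Nat.exists_eq_add_of_le' (show 1 ≤ k by omega)
  exact hn k (by omega)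

theorem Hty.of_split (F : Res R M) {s : R} (θ : M →ₗ[R] (Fin (F.b 0) → R))
    (hθ : ∀ x, F.π (θ x) = s • x) : Hty F s := by
  have key : ∀ n, ∃ h : Matrix (Fin (F.b (n + 1))) (Fin (F.b n)) R,
      (s • (1 : Matrix (Fin (F.b n)) (Fin (F.b n)) R) - F.d n * h) * F.d n = 0 ∧
      ∃ h1 : Matrix (Fin (F.b (n + 2))) (Fin (F.b (n + 1))) R,
      s • (1 : Matrix (Fin (F.b (n + 1))) (Fin (F.b (n + 1))) R) = F.d (n + 1) * h1 + h * F.d n ∧
      (s • (1 : Matrix (Fin (F.b (n + 1))) (Fin (F.b (n + 1))) R) - F.d (n + 1) * h1) *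
        F.d (n + 1) = 0 := by
    have step : ∀ n (h : Matrix (Fin (F.b (n + 1))) (Fin (F.b n)) R),
        (s • (1 : Matrix (Fin (F.b n)) (Fin (F.b n)) R) - F.d n * h) * F.d n = 0 →
        ∃ h1 : Matrix (Fin (F.b (n + 2))) (Fin (F.b (n + 1))) R,
        s • (1 : Matrix (Fin (F.b (n + 1))) (Fin (F.b (n + 1))) R) =
          F.d (n + 1) * h1 + h * F.d n ∧
        (s • (1 : Matrix (Fin (F.b (n + 1))) (Fin (F.b (n + 1))) R) - F.d (n + 1) * h1) *
          F.d (n + 1) = 0 := by
      intro n h hh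
      obtain ⟨h1, hh1⟩ := exists_mul_eq (D := F.d (n + 1))
        (A := s • (1 : Matrix (Fin (F.b (n + 1))) (Fin (F.b (n + 1))) R) - h * F.d n) fun j => by
          apply F.exact n
          rw [mulVec_col]
          have h3 : F.d n * (s • (1 : Matrix (Fin (F.b (n + 1))) (Fin (F.b (n + 1))) R) -
              h * F.d n) = 0 := by
            rw [← hh, Matrix.mul_sub, Matrix.mul_smul, Matrix.mul_one, Matrix.sub_mul,
              Matrix.smul_mul, Matrix.one_mul, Matrix.mul_assoc]
          funext i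
          rw [h3]
          rfl
      refine ⟨h1, by rw [hh1, sub_add_cancel], ?_⟩
      rw [hh1, sub_sub_cancel, Matrix.mul_assoc, F.mul_eq_zero, Matrix.mul_zero]
    intro n
    induction n with
    | zero =>
      let Θ : Matrix (Fin (F.b 0)) (Fin (F.b 0)) R := LinearMap.toMatrix' (θ ∘ₗ F.π)
      have hΘ : ∀ x, Θ *ᵥ x = θ (F.π x) := fun x => by
        rw [LinearMap.toMatrix'_mulVec]
        rfl
      obtain ⟨h, hh⟩ := exists_mul_eq (D := F.d 0)
        (A := s • (1 : Matrix (Fin (F.b 0)) (Fin (F.b 0)) R) - Θ) fun j => by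
          obtain ⟨y, hy⟩ := (F.ex0 ((s • (1 : Matrix (Fin (F.b 0)) (Fin (F.b 0)) R) - Θ) *ᵥ
            Pi.single j 1)).1 (by
              rw [Matrix.sub_mulVec, Matrix.smul_mulVec, Matrix.one_mulVec, map_sub, hΘ, hθ,
                map_smul, sub_self])
          refine ⟨y, hy.symm.trans ?_⟩
          rw [Matrix.mulVec_single_one]
          rfl
      have h4 : (s • (1 : Matrix (Fin (F.b 0)) (Fin (F.b 0)) R) - F.d 0 * h) * F.d 0 = 0 := by
        rw [hh, sub_sub_cancel]
        ext i j
        have h5 : (Θ * F.d 0) *ᵥ Pi.single j 1 = 0 := by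
          rw [← Matrix.mulVec_mulVec, hΘ, F.π_d, map_zero]
        have h6 := congrFun h5 i
        simpa using h6
      exact ⟨h, h4, step 0 h h4⟩
    | succ n ih =>
      obtain ⟨h, -, h1, -, h2⟩ := ih
      exact ⟨h1, h2, step (n + 1) h1 h2⟩
  refine ⟨0, fun k _ => ?_⟩
  obtain ⟨h, -, h1, h2, -⟩ := key k
  exact ⟨h1, h, h2⟩

/-- Annihilation of the homology of `F ⊗ N`. -/
def KillT (F : Res R M) (N : Type u) [AddCommGroup N] [Module R N] (s : R) : Prop :=
  ∃ n0 : ℕ, ∀ k ≥ n0, ∀ x : TorR F N k, s • x = 0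

/-- Annihilation of the cohomology of `Hom(F, N)`. -/
def KillE (F : Res R M) (N : Type u) [AddCommGroup N] [Module R N] (s : R) : Prop :=
  ∃ n0 : ℕ, ∀ k ≥ n0, ∀ x : ExtR F N k, s • x = 0

theorem killT_iff {F : Res R M} {N : Type u} [AddCommGroup N] [Module R N] {s : R} :
    KillT F N s ↔ ∃ n0 : ℕ, ∀ k ≥ n0, ∀ y ∈ cyc F N k, ∃ z, act N (F.d k) z = s • y := by
  constructor
  · rintro ⟨n0, h⟩
    refine ⟨n0, fun k hk y hy => ?_⟩
    have h1 := h k hk (Submodule.Quotient.mk ⟨y, hy⟩)
    rw [← Submodule.Quotient.mk_smul, Submodule.Quotient.mk_eq_zero] at h1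
    exact h1
  · rintro ⟨n0, h⟩
    refine ⟨n0, fun k hk x => ?_⟩
    obtain ⟨⟨y, hy⟩, rfl⟩ := Submodule.Quotient.mk_surjective _ x
    rw [← Submodule.Quotient.mk_smul, Submodule.Quotient.mk_eq_zero]
    exact h k hk y hy

theorem Hty.killT {F : Res R M} {s : R} (h : Hty F s) (N : Type u) [AddCommGroup N] [Module R N] :
    KillT F N s := by
  rw [killT_iff]
  obtain ⟨n0, hn⟩ := h
  refine ⟨n0 + 1, fun k hk y hy => ?_⟩
  obtain ⟨k, rfl⟩ := Nat.exists_eq_add_of_le' (show 1 ≤ k by omega)
  obtain ⟨h, h', hh⟩ := hn k (by omega)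
  rw [mem_cyc_succ] at hy
  refine ⟨act N h y, ?_⟩
  have h1 : act N (s • (1 : Matrix (Fin (F.b (k + 1))) (Fin (F.b (k + 1))) R)) y =
      act N (F.d (k + 1) * h + h' * F.d k) y := by rw [hh]
  rw [act_smul, act_one, act_add, act_mul, act_mul, hy, map_zero, add_zero] at h1
  exact h1.symm

theorem Hty.killE {F : Res R M} {s : R} (h : Hty F s) (N : Type u) [AddCommGroup N] [Module R N] :
    KillE F N s := by
  obtain ⟨n0, hn⟩ := h
  refine ⟨n0 + 1, fun k hk x => ?_⟩
  obtain ⟨k, rfl⟩ := Nat.exists_eq_add_of_le' (show 1 ≤ k by omega)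
  obtain ⟨h, h', hh⟩ := hn k (by omega)
  obtain ⟨⟨y, hy⟩, rfl⟩ := Submodule.Quotient.mk_surjective _ x
  rw [← Submodule.Quotient.mk_smul, Submodule.Quotient.mk_eq_zero]
  refine ⟨act N h'ᵀ y, ?_⟩
  have h1 : act N (s • (1 : Matrix (Fin (F.b (k + 1))) (Fin (F.b (k + 1))) R))ᵀ y =
      act N (F.d (k + 1) * h + h' * F.d k)ᵀ y := by rw [hh]
  rw [Matrix.transpose_smul, Matrix.transpose_one, act_smul, act_one, Matrix.transpose_add,
    act_add, Matrix.transpose_mul, Matrix.transpose_mul, act_mul, act_mul, LinearMap.mem_ker.1 hy,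
    map_zero, zero_add] at h1
  exact h1.symm

/-- Exactness with free coefficients. -/
theorem exact_free (F : Res R M) (m k : ℕ) (y : Fin (F.b (k + 1)) → (Fin m → R))
    (hy : act (Fin m → R) (F.d k) y = 0) : ∃ z, act (Fin m → R) (F.d (k + 1)) z = y := by
  have h1 : ∀ j, ∃ z, F.d (k + 1) *ᵥ z = fun i => y i j := by
    intro j
    apply F.exact k
    have h2 := act_map (LinearMap.proj j : (Fin m → R) →ₗ[R] R) (F.d k) y
    rw [hy] at h2
    rw [act_self] at h2
    exact h2.symm
  choose z hz using h1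
  refine ⟨fun i j => z j i, ?_⟩
  funext i j
  have h3 := congrFun (hz j) i
  rw [← h3]
  simp [act_apply, Matrix.mulVec, dotProduct]

theorem KillT.of_split {F : Res R M} {N : Type u} [AddCommGroup N] [Module R N] {s : R} {m : ℕ}
    (π : (Fin m → R) →ₗ[R] N) (θ : N →ₗ[R] (Fin m → R)) (hθ : ∀ x, π (θ x) = s • x) :
    KillT F N s := by
  rw [killT_iff]
  refine ⟨1, fun k hk y hy => ?_⟩
  obtain ⟨k, rfl⟩ := Nat.exists_eq_add_of_le' hk
  rw [mem_cyc_succ] at hy
  have h1 := act_map θ (F.d k) y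
  rw [hy] at h1
  obtain ⟨z, hz⟩ := exact_free F m k (fun i => θ (y i)) (by
    rw [← h1]
    funext i
    simp)
  refine ⟨fun i => π (z i), ?_⟩
  rw [← act_map, hz]
  funext i
  exact hθ (y i)

theorem KillT.of_ker {F : Res R M} {N : Type u} [AddCommGroup N] [Module R N] {s : R} {m : ℕ}
    (π : (Fin m → R) →ₗ[R] N) (hπ : Function.Surjective π) (h : KillT F (LinearMap.ker π) s) :
    KillT F N s := by
  rw [killT_iff] at h ⊢
  obtain ⟨n0, hn⟩ := h
  refine ⟨n0 + 2, fun k hk y hy => ?_⟩
  obtain ⟨k, rfl⟩ := Nat.exists_eq_add_of_le' (show 2 ≤ k by omega)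
  replace hy : act N (F.d (k + 1)) y = 0 := hy
  choose v hv using fun i => hπ (y i)
  have h1 : ∀ i, act (Fin m → R) (F.d (k + 1)) v i ∈ LinearMap.ker π := by
    intro i
    rw [LinearMap.mem_ker]
    have h2 := congrFun (act_map π (F.d (k + 1)) v) i
    rw [show (fun j => π (v j)) = y from funext hv, hy] at h2
    exact h2
  let w : Fin (F.b (k + 1)) → LinearMap.ker π := fun i => ⟨_, h1 i⟩
  have h2 : (fun i => ((w i : LinearMap.ker π) : Fin m → R)) =
      act (Fin m → R) (F.d (k + 1)) v := rfl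
  have h3 : w ∈ cyc F (LinearMap.ker π) (k + 1) := by
    rw [mem_cyc_succ]
    funext i
    have h4 := congrFun (act_map (LinearMap.ker π).subtype (F.d k) w) i
    apply Subtype.ext
    refine h4.trans ?_
    have h5 : act (Fin m → R) (F.d k) (act (Fin m → R) (F.d (k + 1)) v) = 0 := by
      rw [← act_mul, F.mul_eq_zero, act_zero]
    exact congrFun h5 i
  obtain ⟨z, hz⟩ := hn (k + 1) (by omega) w h3
  let z' : Fin (F.b (k + 2)) → (Fin m → R) := fun i => (z i : Fin m → R)
  have h4 : act (Fin m → R) (F.d (k + 1)) z' = s • act (Fin m → R) (F.d (k + 1)) v := by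
    have h5 := act_map (LinearMap.ker π).subtype (F.d (k + 1)) z
    rw [hz] at h5
    exact h5.symm
  obtain ⟨t, ht⟩ := exact_free F m (k + 1) (s • v - z') (by
    rw [map_sub, map_smul, h4, sub_self])
  refine ⟨fun i => π (t i), ?_⟩
  have h6 := act_map π (F.d (k + 1 + 1)) t
  rw [ht] at h6
  refine h6.symm.trans ?_
  funext i
  have h7 : π (z' i) = 0 := LinearMap.mem_ker.1 (z i).2
  rw [Pi.sub_apply, map_sub, h7, sub_zero, Pi.smul_apply, map_smul, hv]
  rfl

end

section

variable {R : Type u} [CommRing R] [IsNoetherianRing R] {M : Type u} [AddCommGroup M] [Module R M]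
  [Module.Finite R M]

/-- Finite projective dimension of `M` at `p`. -/
theorem FinPD.hty {p : Ideal R} [p.IsPrime] (h : FinPD R M p) (F : Res R M) :
    ∃ s, s ∉ p ∧ Hty F s := by
  obtain ⟨n, hn⟩ := h
  refine FinPD.rec' (R := R) (p := p) (C := fun M _ _ => ∀ F : Res R M, ∃ s, s ∉ p ∧ Hty F s)
    ?_ ?_ n M hn F
  · intro M _ _ _ hM F
    obtain ⟨s, hs, θ, hθ⟩ := exists_split p.primeCompl F.π F.surj
    exact ⟨s, hs, Hty.of_split F θ hθ⟩
  · intro M _ _ _ hM F
    obtain ⟨s, hs, h⟩ := hM _ F.π F.surj F.shift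
    exact ⟨s, hs, h.of_shift⟩

/-- Finite projective dimension of `N` at `p`. -/
theorem FinPD.killT {p : Ideal R} [p.IsPrime] {N : Type u} [AddCommGroup N] [Module R N]
    [Module.Finite R N] (h : FinPD R N p) {M : Type u} [AddCommGroup M] [Module R M]
    (F : Res R M) : ∃ s, s ∉ p ∧ KillT F N s := by
  obtain ⟨n, hn⟩ := h
  refine FinPD.rec' (R := R) (p := p) (C := fun N _ _ => ∃ s, s ∉ p ∧ KillT F N s)
    ?_ ?_ n N hn
  · intro N _ _ _ hN
    obtain ⟨m, π, hπ⟩ := Module.Finite.exists_fin' R N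
    obtain ⟨s, hs, θ, hθ⟩ := exists_split p.primeCompl π hπ
    exact ⟨s, hs, KillT.of_split π θ hθ⟩
  · intro N _ _ _ hN
    obtain ⟨m, π, hπ⟩ := Module.Finite.exists_fin' R N
    obtain ⟨s, hs, h⟩ := hN m π hπ
    exact ⟨s, hs, h.of_ker π hπ⟩

end

end Pool.Agent.Lib.MP_f0b71a_al
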