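import Pool.Agent.Lib.MP_f0b71a_al.Defs
import Mathlib.Tactic

/-! # Matrices acting on vectors with entries in a module, construction of chain maps -/

universe u

namespace Pool.Agent.Lib.MP_f0b71a_al

open IsLocalRing
open scoped Matrix

section Act

variable {R : Type u} [CommRing R] {N N' : Type u} [AddCommGroup N] [Module R N]
  [AddCommGroup N'] [Module R N'] {m n p : ℕ}

theorem act_apply (A : Matrix (Fin m) (Fin n) R) (y : Fin n → N) (i : Fin m) :
    act N A y i = ∑ j, A i j • y j := rfl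

theorem act_mul (A : Matrix (Fin m) (Fin n) R) (B : Matrix (Fin n) (Fin p) R) (y : Fin p → N) :
    act N (A * B) y = act N A (act N B y) := by
  funext i
  simp only [act_apply, Matrix.mul_apply, Finset.smul_sum, Finset.sum_smul, smul_smul]
  exact Finset.sum_comm

theorem act_add (A B : Matrix (Fin m) (Fin n) R) (y : Fin n → N) :
    act N (A + B) y = act N A y + act N B y := by
  funext i
  simp [act_apply, add_smul, Finset.sum_add_distrib]

theorem act_sub (A B : Matrix (Fin m) (Fin n) R) (y : Fin n → N) :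
    act N (A - B) y = act N A y - act N B y := by
  funext i
  simp [act_apply, sub_smul, Finset.sum_sub_distrib]

theorem act_neg (A : Matrix (Fin m) (Fin n) R) (y : Fin n → N) :
    act N (-A) y = - act N A y := by
  funext i
  simp [act_apply, neg_smul]

theorem act_zero (y : Fin n → N) : act N (0 : Matrix (Fin m) (Fin n) R) y = 0 := by
  funext i
  simp [act_apply]

theorem act_smul (c : R) (A : Matrix (Fin m) (Fin n) R) (y : Fin n → N) :
    act N (c • A) y = c • act N A y := by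
  funext i
  simp [act_apply, Finset.smul_sum, mul_smul]

theorem act_one (y : Fin n → N) : act N (1 : Matrix (Fin n) (Fin n) R) y = y := by
  funext i
  simp [act_apply, Matrix.one_apply, ite_smul]

theorem act_map (h : N →ₗ[R] N') (A : Matrix (Fin m) (Fin n) R) (y : Fin n → N) :
    (fun i => h (act N A y i)) = act N' A (fun j => h (y j)) := by
  funext i
  simp [act_apply, map_sum]

theorem act_self (A : Matrix (Fin m) (Fin n) R) (y : Fin n → R) : act R A y = A *ᵥ y := by
  funext i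
  simp [act_apply, Matrix.mulVec, dotProduct]

/-- A matrix applied to a column: elements `u i • x`. -/
theorem act_smul_const (A : Matrix (Fin m) (Fin n) R) (u : Fin n → R) (x : N) :
    act N A (fun j => u j • x) = fun i => (A *ᵥ u) i • x := by
  funext i
  simp [act_apply, Matrix.mulVec, dotProduct, Finset.sum_smul, mul_smul]

/-- Columns in the range. -/
theorem exists_mul_eq {D : Matrix (Fin p) (Fin n) R} {A : Matrix (Fin p) (Fin m) R}
    (h : ∀ j, ∃ y, D *ᵥ y = fun i => A i j) : ∃ B : Matrix (Fin n) (Fin m) R, D * B = A := by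
  choose y hy using h
  refine ⟨Matrix.of (fun i j => y j i), ?_⟩
  ext i j
  have h1 := congrFun (hy j) i
  simpa [Matrix.mul_apply, Matrix.mulVec, dotProduct] using h1

theorem mulVec_col {D : Matrix (Fin p) (Fin n) R} {A : Matrix (Fin n) (Fin m) R} (j : Fin m) :
    D *ᵥ (fun i => A i j) = fun i => (D * A) i j := by
  funext i
  simp [Matrix.mul_apply, Matrix.mulVec, dotProduct]

end Act

section Seq

variable {R : Type u} [CommRing R] {c a : ℕ → ℕ}

/-- Recursive construction of chain maps and homotopies. -/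
theorem exists_seq (s : R) (D : ∀ n, Matrix (Fin (c n)) (Fin (c (n + 1))) R)
    (e : ∀ n, Matrix (Fin (a n)) (Fin (a (n + 1))) R)
    (hD : ∀ n x, D n *ᵥ x = 0 → ∃ y, D (n + 1) *ᵥ y = x) (he : ∀ n, e n * e (n + 1) = 0)
    (t : ∀ n, Matrix (Fin (c n)) (Fin (a (n + 1))) R)
    (ht : ∀ n, D n * t (n + 1) + s • (t n * e (n + 1)) = 0)
    (h0 : Matrix (Fin (c 0)) (Fin (a 0)) R)
    (hh0 : ∀ j, ∃ y, D 0 *ᵥ y = fun i => (t 0 + s • (h0 * e 0)) i j) :
    ∃ h : ∀ n, Matrix (Fin (c n)) (Fin (a n)) R, h 0 = h0 ∧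
      ∀ n, D n * h (n + 1) = t n + s • (h n * e n) := by
  classical
  let St : ℕ → Type u := fun n => {h : Matrix (Fin (c n)) (Fin (a n)) R //
    ∀ j, ∃ y, D n *ᵥ y = fun i => (t n + s • (h * e n)) i j}
  have step : ∀ n (h : St n), ∃ h' : St (n + 1), D n * h'.1 = t n + s • (h.1 * e n) := by
    intro n h
    obtain ⟨B, hB⟩ := exists_mul_eq (D := D n) (A := t n + s • (h.1 * e n)) h.2
    refine ⟨⟨B, fun j => ?_⟩, hB⟩
    apply hD
    rw [mulVec_col]
    have h1 : D n * (t (n + 1) + s • (B * e (n + 1))) = 0 := by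
      rw [Matrix.mul_add, Matrix.mul_smul, ← Matrix.mul_assoc, hB, Matrix.add_mul,
        Matrix.smul_mul, Matrix.mul_assoc, he, Matrix.mul_zero, smul_zero, add_zero]
      exact ht n
    funext i
    rw [h1]
    rfl
  choose nx hnx using step
  let H : ∀ n, St n := fun n => Nat.rec (motive := St) ⟨h0, hh0⟩ (fun n h => nx n h) n
  exact ⟨fun n => (H n).1, rfl, fun n => hnx n (H n)⟩

end Seq

/-- Entries in an ideal. -/
theorem mem_mul_left {R : Type u} [CommRing R] {m n p : ℕ} {I : Ideal R}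
    {A : Matrix (Fin m) (Fin n) R} (hA : ∀ i j, A i j ∈ I) (B : Matrix (Fin n) (Fin p) R)
    (i : Fin m) (j : Fin p) : (A * B) i j ∈ I := by
  rw [Matrix.mul_apply]
  exact I.sum_mem fun k _ => I.mul_mem_right _ (hA i k)

theorem mem_mul_right {R : Type u} [CommRing R] {m n p : ℕ} {I : Ideal R}
    (A : Matrix (Fin m) (Fin n) R) {B : Matrix (Fin n) (Fin p) R} (hB : ∀ i j, B i j ∈ I)
    (i : Fin m) (j : Fin p) : (A * B) i j ∈ I := by
  rw [Matrix.mul_apply]
  exact I.sum_mem fun k _ => I.mul_mem_left _ (hB k j)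

section Null

variable {R : Type u} [CommRing R] {c a : ℕ → ℕ}

/-- A chain map to an exact complex with entries in `I` which is null homotopic in degree `0` has
entries in `I`. -/
theorem null_of (I : Ideal R) (D : ∀ n, Matrix (Fin (c n)) (Fin (c (n + 1))) R)
    (e : ∀ n, Matrix (Fin (a n)) (Fin (a (n + 1))) R)
    (hD : ∀ n x, D n *ᵥ x = 0 → ∃ y, D (n + 1) *ᵥ y = x) (he : ∀ n, e n * e (n + 1) = 0)
    (hDI : ∀ n i j, D n i j ∈ I) (heI : ∀ n i j, e n i j ∈ I)
    (t : ∀ n, Matrix (Fin (c n)) (Fin (a n)) R) (ht : ∀ n, D n * t (n + 1) = t n * e n)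
    (h0 : ∃ h, t 0 = D 0 * h) (n : ℕ) (i : Fin (c n)) (j : Fin (a n)) : t n i j ∈ I := by
  have key : ∀ n, (∃ h : Matrix (Fin (c (n + 1))) (Fin (a n)) R, (t n - D n * h) * e n = 0) ∧
      ∀ i j, t n i j ∈ I := by
    intro n
    induction n with
    | zero =>
      obtain ⟨h, hh⟩ := h0
      refine ⟨⟨h, by rw [hh, sub_self, Matrix.zero_mul]⟩, fun i j => ?_⟩
      rw [hh]
      exact mem_mul_left (hDI 0) _ _ _
    | succ n ih =>
      obtain ⟨⟨h, hh⟩, -⟩ := ih
      have h1 : ∀ j, ∃ y, D (n + 1) *ᵥ y = fun i => (t (n + 1) - h * e n) i j := by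
        intro j
        apply hD
        rw [mulVec_col]
        have h2 : D n * (t (n + 1) - h * e n) = 0 := by
          rw [Matrix.mul_sub, ht, ← Matrix.mul_assoc, ← Matrix.sub_mul]
          exact hh
        funext i
        rw [h2]
        rfl
      obtain ⟨h', hh'⟩ := exists_mul_eq h1
      refine ⟨⟨h', ?_⟩, fun i j => ?_⟩
      · rw [hh', sub_sub_cancel, Matrix.mul_assoc, he, Matrix.mul_zero]
      · have h3 : t (n + 1) = D (n + 1) * h' + h * e n := by rw [hh', sub_add_cancel]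
        rw [h3, Matrix.add_apply]
        exact I.add_mem (mem_mul_left (hDI _) _ _ _) (mem_mul_right _ (heI n) _ _)
  exact (key n).2 i j

end Null

section Min

variable {R : Type u} [CommRing R] [IsLocalRing R] (P : MinRes R)

theorem MinRes.mul_eq_zero (n : ℕ) : P.d n * P.d (n + 1) = 0 := by
  ext i j
  have h1 : P.d n *ᵥ (P.d (n + 1) *ᵥ (Pi.single j 1)) = 0 := by
    rw [P.ex n]
    exact ⟨_, rfl⟩
  rw [Matrix.mulVec_mulVec] at h1
  have h2 := congrFun h1 i
  simpa using h2

theorem MinRes.exact (n : ℕ) (x : Fin (P.b (n + 1)) → R) (h : P.d n *ᵥ x = 0) :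
    ∃ y, P.d (n + 1) *ᵥ y = x := by
  obtain ⟨y, hy⟩ := (P.ex n x).1 h
  exact ⟨y, hy.symm⟩

/-- A chain endomorphism with entries in `𝔪` in degree `0` has entries in `𝔪`. -/
theorem MinRes.null0 (t : ∀ n, Matrix (Fin (P.b n)) (Fin (P.b n)) R)
    (ht : ∀ n, P.d n * t (n + 1) = t n * P.d n) (h0 : ∀ i j, t 0 i j ∈ maximalIdeal R) (n : ℕ)
    (i j : Fin (P.b n)) : t n i j ∈ maximalIdeal R := by
  refine null_of _ P.d P.d (fun n x h => P.exact n x h) P.mul_eq_zero P.mem P.mem t ht ?_ n i j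
  obtain ⟨h, hh⟩ := exists_mul_eq (D := P.d 0) (A := t 0) fun j => by
    obtain ⟨y, hy⟩ := (P.ex0 (fun i => t 0 i j)).1 fun i => h0 i j
    exact ⟨y, hy.symm⟩
  exact ⟨h, hh.symm⟩

/-- A chain map of degree two has entries in `𝔪`. -/
theorem MinRes.null2 (t : ∀ n, Matrix (Fin (P.b (n + 2))) (Fin (P.b n)) R)
    (ht : ∀ n, P.d (n + 2) * t (n + 1) = t n * P.d n) (h0 : P.d 1 * t 0 = 0) (n : ℕ)
    (i : Fin (P.b (n + 2))) (j : Fin (P.b n)) : t n i j ∈ maximalIdeal R := by
  refine null_of (c := fun n => P.b (n + 2)) _ (fun n => P.d (n + 2)) P.d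
    (fun n x h => P.exact (n + 2) x h) P.mul_eq_zero (fun n => P.mem (n + 2)) P.mem t ht ?_ n i j
  obtain ⟨h, hh⟩ := exists_mul_eq (D := P.d 2) (A := t 0) fun j => by
    apply P.exact 1
    rw [mulVec_col, h0]
    rfl
  exact ⟨h, hh.symm⟩

end Min

end Pool.Agent.Lib.MP_f0b71a_al
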