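import Pool.Agent.Lib.MP_f0b71a_al.ExtB

/-! # Burch modules and directions -/

universe u

namespace Pool.Agent.Lib.MP_f0b71a_al

open IsLocalRing

section

variable {R : Type u} [CommRing R] [IsLocalRing R] {M : Type u} [AddCommGroup M] [Module R M]

theorem exists_functional_aux {V : Type u} [AddCommGroup V] [Module R V]
    (hV : Module.IsTorsionBySet R V (maximalIdeal R : Set R)) {v : V} (hv : v ≠ 0) :
    ∃ l : V →ₗ[R] ResidueField R, l v = 1 := by
  let i1 : Module (ResidueField R) V := hV.module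
  have i2 : IsScalarTower R (ResidueField R) V := hV.isScalarTower
  obtain ⟨l, hl⟩ : ∃ l : Module.Dual (ResidueField R) V, l v ≠ 0 := by
    by_contra h
    push Not at h
    exact hv ((Module.forall_dual_apply_eq_zero_iff (ResidueField R) v).1 h)
  refine ⟨((l v)⁻¹ • l).restrictScalars R, ?_⟩
  change (l v)⁻¹ * l v = 1
  exact inv_mul_cancel₀ hl

/-- An element outside `𝔪 M` is mapped to `1` by some linear map to the residue field. -/
theorem exists_functional {x : M} (hx : x ∉ maximalIdeal R • (⊤ : Submodule R M)) :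
    ∃ ε : M →ₗ[R] ResidueField R, ε x = 1 := by
  have h1 : Module.IsTorsionBySet R (M ⧸ (maximalIdeal R • (⊤ : Submodule R M)))
      (maximalIdeal R : Set R) := by
    rintro v ⟨a, ha⟩
    obtain ⟨y, rfl⟩ := Submodule.Quotient.mk_surjective _ v
    change a • _ = _
    rw [← Submodule.Quotient.mk_smul, Submodule.Quotient.mk_eq_zero]
    exact Submodule.smul_mem_smul ha Submodule.mem_top
  obtain ⟨l, hl⟩ := exists_functional_aux h1 (v := Submodule.Quotient.mk x)
    (fun h => hx ((Submodule.Quotient.mk_eq_zero _).1 h))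
  exact ⟨l ∘ₗ Submodule.mkQ _, hl⟩

/-- A Burch module has a map from `𝔪` whose image is not in `𝔪 M`. -/
theorem IsBurch.exists_map (h : IsBurch R M) :
    ∃ (f : maximalIdeal R →ₗ[R] M) (ε : M →ₗ[R] ResidueField R) (a : maximalIdeal R),
      ε (f a) = 1 := by
  obtain ⟨L, _, _, P, -, hP, ⟨e⟩⟩ := h
  obtain ⟨a, ha, y, hy, hay⟩ : ∃ a ∈ maximalIdeal R, ∃ y ∈ colonMax P,
      a • y ∉ maximalIdeal R • P := by
    by_contra hcon
    push Not at hcon
    refine hP (le_antisymm (Submodule.smul_le.2 hcon) (Submodule.smul_mono le_rfl ?_))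
    intro x hx b _
    exact P.smul_mem b hx
  let f : maximalIdeal R →ₗ[R] P :=
    { toFun := fun b => ⟨(b : R) • y, hy b b.2⟩
      map_add' := fun b c => by
        ext
        simp [add_smul]
      map_smul' := fun r b => by
        ext
        simp [mul_smul] }
  have h1 : f ⟨a, ha⟩ ∉ maximalIdeal R • (⊤ : Submodule R P) := by
    intro h2
    apply hay
    have h3 : P.subtype (f ⟨a, ha⟩) ∈ (maximalIdeal R • (⊤ : Submodule R P)).map P.subtype :=
      ⟨_, h2, rfl⟩
    rw [Submodule.map_smul'', Submodule.map_top, Submodule.range_subtype] at h3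
    exact h3
  obtain ⟨ε, hε⟩ := exists_functional h1
  refine ⟨e.symm.toLinearMap ∘ₗ f, ε ∘ₗ e.toLinearMap, ⟨a, ha⟩, ?_⟩
  simp [hε]

/-- Scaling a linear map to the residue field. -/
theorem exists_scale {V : Type u} [AddCommGroup V] [Module R V] (ε : V →ₗ[R] ResidueField R)
    {x : V} (hx : ε x ≠ 0) :
    ∃ ε' : V →ₗ[R] ResidueField R, ε' x = 1 ∧ ∀ y, ε' y = (ε x)⁻¹ * ε y := by
  refine ⟨(ε x)⁻¹ • ε, ?_, fun y => rfl⟩
  change (ε x)⁻¹ * ε x = 1
  exact inv_mul_cancel₀ hx

/-- Two Burch modules: a common element of `𝔪`. -/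
theorem exists_pair {N : Type u} [AddCommGroup N] [Module R N] (hM : IsBurch R M)
    (hN : IsBurch R N) :
    ∃ (f : maximalIdeal R →ₗ[R] M) (ε : M →ₗ[R] ResidueField R) (g : maximalIdeal R →ₗ[R] N)
      (δ : N →ₗ[R] ResidueField R) (a : maximalIdeal R), ε (f a) = 1 ∧ δ (g a) = 1 := by
  obtain ⟨f, ε, a, ha⟩ := hM.exists_map
  obtain ⟨g, δ, b, hb⟩ := hN.exists_map
  obtain ⟨c, h1, h2⟩ : ∃ c, ε (f c) ≠ 0 ∧ δ (g c) ≠ 0 := by
    by_cases h1 : δ (g a) = 0
    · by_cases h2 : ε (f b) = 0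
      · refine ⟨a + b, ?_, ?_⟩
        · rw [map_add, map_add, ha, h2, add_zero]
          exact one_ne_zero
        · rw [map_add, map_add, hb, h1, zero_add]
          exact one_ne_zero
      · exact ⟨b, h2, by rw [hb]; exact one_ne_zero⟩
    · exact ⟨a, by rw [ha]; exact one_ne_zero, h1⟩
  obtain ⟨ε', h3, -⟩ := exists_scale ε h1
  obtain ⟨δ', h4, -⟩ := exists_scale δ h2
  exact ⟨f, ε', g, δ', c, h3, h4⟩

/-- Independent directions. -/
theorem exists_indep {N : Type u} [AddCommGroup N] [Module R N]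
    {χ ψ : maximalIdeal R →ₗ[R] ResidueField R} (hχ : χ ∈ Directions R M)
    (hψ : ψ ∈ Directions R N) (hi : LinearIndependent (ResidueField R) ![χ, ψ]) :
    ∃ (f : maximalIdeal R →ₗ[R] M) (ε : M →ₗ[R] ResidueField R) (g : maximalIdeal R →ₗ[R] N)
      (δ : N →ₗ[R] ResidueField R) (a b : maximalIdeal R), ε (f a) = 1 ∧ ε (f b) = 0 ∧
        δ (g b) = 1 := by
  obtain ⟨f, ε, rfl⟩ := hχ
  obtain ⟨g, δ, rfl⟩ := hψ
  have h0 : (ε ∘ₗ f) ≠ 0 := by
    have := hi.ne_zero 0
    simpa using this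
  obtain ⟨a, ha⟩ : ∃ a, ε (f a) ≠ 0 := by
    by_contra h
    push Not at h
    exact h0 (LinearMap.ext h)
  obtain ⟨b, hb, hb'⟩ : ∃ b, ε (f b) = 0 ∧ δ (g b) ≠ 0 := by
    by_contra hcon
    push Not at hcon
    have h1 : (δ ∘ₗ g) = ((ε (f a))⁻¹ * δ (g a)) • (ε ∘ₗ f) := by
      ext x
      obtain ⟨r, hr⟩ := residue_surjective ((ε (f a))⁻¹ * ε (f x))
      have h2 : ε (f (x - r • a)) = 0 := by
        rw [map_sub, map_sub, map_smul, map_smul, Algebra.smul_def]
        change ε (f x) - residue R r * ε (f a) = 0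
        rw [hr]
        field_simp
        ring
      have h3 := hcon _ h2
      rw [map_sub, map_sub, map_smul, map_smul, Algebra.smul_def] at h3
      change δ (g x) - residue R r * δ (g a) = 0 at h3
      rw [hr] at h3
      change δ (g x) = ((ε (f a))⁻¹ * δ (g a)) * ε (f x)
      rw [sub_eq_zero.1 h3]
      ring
    have h4 := LinearIndependent.pair_iff.1 hi ((ε (f a))⁻¹ * δ (g a)) (-1) (by
      rw [h1]
      module)
    exact absurd h4.2 (by simp)
  obtain ⟨ε', h3, h3'⟩ := exists_scale ε ha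
  obtain ⟨δ', h4, -⟩ := exists_scale δ hb'
  exact ⟨f, ε', g, δ', a, b, h3, by rw [h3', hb, mul_zero], h4⟩

end

end Pool.Agent.Lib.MP_f0b71a_al
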