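import Mathlib.RingTheory.Length
import Mathlib.RingTheory.LocalRing.ResidueField.Basic
import Mathlib.LinearAlgebra.Matrix.ToLin
import Mathlib.Algebra.Module.SpanRank
import Mathlib.Analysis.SpecialFunctions.Pow.NNReal

/-!
# Burch modules, `Tor` and `Ext` by free resolutions, complexity and curvature

Definitions of the statement.
-/

universe u

namespace Pool.Agent.Lib.MP_f0b71a_al

open IsLocalRing Filter
open scoped Matrix ENNReal

noncomputable section

/-! ### Burch modules -/

section Burch

variable {R : Type u} [CommRing R] [IsLocalRing R] {L : Type u} [AddCommGroup L] [Module R L]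

/-- `(P :_L 𝔪)`: the elements `x` of `L` with `𝔪 x ⊆ P`. -/
def colonMax (P : Submodule R L) : Submodule R L where
  carrier := {x | ∀ a ∈ maximalIdeal R, a • x ∈ P}
  add_mem' := fun hx hy a ha => by rw [smul_add]; exact P.add_mem (hx a ha) (hy a ha)
  zero_mem' := fun a _ => by rw [smul_zero]; exact P.zero_mem
  smul_mem' := fun c x hx a ha => by rw [smul_comm]; exact P.smul_mem c (hx a ha)

/-- `P` is a Burch submodule of `L`: `𝔪 (P :_L 𝔪) ≠ 𝔪 P`. -/
def IsBurchSub (P : Submodule R L) : Prop :=
  maximalIdeal R • colonMax P ≠ maximalIdeal R • P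

end Burch

section

variable (R : Type u) [CommRing R] [IsLocalRing R] (M : Type u) [AddCommGroup M] [Module R M]

/-- `M` is a Burch module: it is isomorphic to a Burch submodule of a finitely generated module. -/
def IsBurch : Prop :=
  ∃ (L : Type u) (_ : AddCommGroup L) (_ : Module R L) (P : Submodule R L),
    Module.Finite R L ∧ IsBurchSub P ∧ Nonempty (M ≃ₗ[R] P)

/-- The directions of `M`: the compositions `𝔪 → M → k` of two `R`-linear maps. `M` is a Burch module
if and only if it has a nonzero direction. -/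
def Directions : Set (maximalIdeal R →ₗ[R] ResidueField R) :=
  {χ | ∃ (f : maximalIdeal R →ₗ[R] M) (ε : M →ₗ[R] ResidueField R), χ = ε ∘ₗ f}

end

/-! ### Free resolutions, `Tor` and `Ext` -/

section Act

variable {R : Type u} [CommRing R] {N : Type u} [AddCommGroup N] [Module R N] {m n : ℕ}

/-- A matrix acts on vectors with entries in a module. -/
def act (N : Type u) [AddCommGroup N] [Module R N] (A : Matrix (Fin m) (Fin n) R) :
    (Fin n → N) →ₗ[R] (Fin m → N) where
  toFun := fun y i => ∑ j, A i j • y j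
  map_add' := fun x y => by
    funext i
    simp [smul_add, Finset.sum_add_distrib]
  map_smul' := fun c x => by
    funext i
    simp only [Pi.smul_apply, RingHom.id_apply, Finset.smul_sum]
    exact Finset.sum_congr rfl fun j _ => smul_comm _ _ _

end Act

/-- A resolution `... → R ^ b_1 → R ^ b_0 → M → 0` of `M` by finitely generated free modules. -/
structure Res (R : Type u) [CommRing R] (M : Type u) [AddCommGroup M] [Module R M] where
  /-- the ranks -/
  b : ℕ → ℕ
  /-- the matrices of the differentials -/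
  d : ∀ n, Matrix (Fin (b n)) (Fin (b (n + 1))) R
  /-- the augmentation -/
  π : (Fin (b 0) → R) →ₗ[R] M
  surj : Function.Surjective π
  ex0 : ∀ x, π x = 0 ↔ ∃ y, x = d 0 *ᵥ y
  ex : ∀ n x, d n *ᵥ x = 0 ↔ ∃ y, x = d (n + 1) *ᵥ y

section

variable {R : Type u} [CommRing R] {M : Type u} [AddCommGroup M] [Module R M] (F : Res R M)
  (N : Type u) [AddCommGroup N] [Module R N]

/-- The cycles of degree `n` of `F ⊗ N`. -/
def cyc : ∀ n, Submodule R (Fin (F.b n) → N)
  | 0 => ⊤
  | n + 1 => LinearMap.ker (act N (F.d n))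

/-- `Tor_n(M, N)`, the homology of `F ⊗ N`. -/
abbrev TorR (n : ℕ) : Type u :=
  cyc F N n ⧸ (LinearMap.range (act N (F.d n))).submoduleOf (cyc F N n)

/-- The coboundaries of degree `n` of `Hom(F, N)`. -/
def cob : ∀ n, Submodule R (Fin (F.b n) → N)
  | 0 => ⊥
  | n + 1 => LinearMap.range (act N (F.d n)ᵀ)

/-- `Ext^n(M, N)`, the cohomology of `Hom(F, N)`. -/
abbrev ExtR (n : ℕ) : Type u :=
  LinearMap.ker (act N (F.d n)ᵀ) ⧸ (cob F N n).submoduleOf (LinearMap.ker (act N (F.d n)ᵀ))

end

/-- The minimal free resolution `P` of the residue field: `P_0 = R`, the image of `P_1` in `P_0` is `𝔪`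
and the entries of the matrices are in `𝔪`. The rank `b n` is the Betti number
`β_n(k) = dim_k Ext^n(k, k)`. -/
structure MinRes (R : Type u) [CommRing R] [IsLocalRing R] where
  /-- the Betti numbers -/
  b : ℕ → ℕ
  /-- the matrices of the differentials -/
  d : ∀ n, Matrix (Fin (b n)) (Fin (b (n + 1))) R
  b0 : b 0 = 1
  ex0 : ∀ x : Fin (b 0) → R, (∀ i, x i ∈ maximalIdeal R) ↔ ∃ y, x = d 0 *ᵥ y
  ex : ∀ n x, d n *ᵥ x = 0 ↔ ∃ y, x = d (n + 1) *ᵥ y
  mem : ∀ n i j, d n i j ∈ maximalIdeal R

/-! ### Numbers of generators, socles, complexity, curvature -/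

section

variable (R : Type u) [CommRing R] (T : Type u) [AddCommGroup T] [Module R T]

/-- The minimal number of generators of `T`. -/
def mu : ℕ := (⊤ : Submodule R T).spanFinrank

/-- The socle of `T`. -/
def socle [IsLocalRing R] : Submodule R T where
  carrier := {x | ∀ a ∈ maximalIdeal R, a • x = 0}
  add_mem' := fun hx hy a ha => by rw [smul_add, hx a ha, hy a ha, add_zero]
  zero_mem' := fun a _ => smul_zero a
  smul_mem' := fun c x hx a ha => by rw [smul_comm, hx a ha, smul_zero]

end

section

variable {R : Type u} [CommRing R] {M : Type u} [AddCommGroup M] [Module R M] (F : Res R M)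
  (N : Type u) [AddCommGroup N] [Module R N]

/-- The minimal number of generators of `Tor_n(M, N)`. -/
def muTor (n : ℕ) : ℕ := mu R (TorR F N n)

/-- The minimal number of generators of `Ext^n(M, N)`. -/
def muExt (n : ℕ) : ℕ := mu R (ExtR F N n)

end

/-- The complexity of a sequence: the least integer `b ≥ 0` such that `a_n ≤ c n ^ (b - 1)` for some
`c > 0` and all large `n` (`∞` if there is none). -/
def cx (a : ℕ → ℕ) : ℕ∞ :=
  sInf {B | ∃ b : ℕ, B = b ∧ ∃ c : ℝ, 0 < c ∧ ∀ᶠ n : ℕ in atTop, (a n : ℝ) ≤ c * (n : ℝ) ^ ((b : ℤ) - 1)}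

/-- The curvature of a sequence: `limsup a_n ^ (1 / n)`. -/
def curv (a : ℕ → ℕ) : ℝ≥0∞ :=
  limsup (fun n : ℕ => ((a n : ℝ≥0∞)) ^ (1 / (n : ℝ))) atTop

end

end Pool.Agent.Lib.MP_f0b71a_al
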