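import Pool.Agent.Lib.MP_f0b71a_al.Soc
import Mathlib.RingTheory.Ideal.KrullsHeightTheorem
import Mathlib.RingTheory.KrullDimension.NonZeroDivisors

/-! # Parameters of one-dimensional quotient rings -/

universe u

namespace Pool.Agent.Lib.MP_f0b71a_al

open IsLocalRing

section

variable {R : Type u} [CommRing R]

theorem two_le_dim {p q m : Ideal R} [hp : p.IsPrime] [hq : q.IsPrime] [hm : m.IsPrime]
    (h1 : p < q) (h2 : q < m) : 2 ≤ ringKrullDim (R ⧸ p) := by
  rw [ringKrullDim_quotient]
  let s : LTSeries (PrimeSpectrum.zeroLocus (R := R) (p : Set R)) :=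
    { length := 2
      toFun := ![⟨⟨p, hp⟩, fun x hx => hx⟩, ⟨⟨q, hq⟩, fun x hx => h1.le hx⟩,
        ⟨⟨m, hm⟩, fun x hx => (h1.trans h2).le hx⟩]
      step := fun i => by
        fin_cases i
        · exact h1
        · exact h2 }
  exact Order.LTSeries.length_le_krullDim s

variable [IsLocalRing R] [IsNoetherianRing R]

theorem exists_param (J : Ideal R)
    (hJ : ∀ p : Ideal R, p.IsPrime → J ≤ p → ¬ 2 ≤ ringKrullDim (R ⧸ p)) :
    ∃ a ∈ maximalIdeal R, Module.length R (R ⧸ (J ⊔ Ideal.span {a})) ≠ ⊤ := by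
  classical
  have hfin := J.finite_minimalPrimes_of_isNoetherianRing R
  let S := hfin.toFinset.filter fun p => p ≠ maximalIdeal R
  obtain ⟨a, ha, haS⟩ : ∃ a ∈ maximalIdeal R, ∀ p ∈ S, a ∉ p := by
    by_contra hcon
    push Not at hcon
    have h1 : (maximalIdeal R : Set R) ⊆ ⋃ p ∈ (S : Set (Ideal R)), ((id p : Ideal R) : Set R) := by
      intro a ha
      obtain ⟨p, hp, hap⟩ := hcon a ha
      exact Set.mem_biUnion hp hap
    rw [Ideal.subset_union_prime (R := R) (f := id) ⊥ ⊥ (fun p hp _ _ => by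
      have hp' := (Finset.mem_filter.1 hp).1
      rw [Set.Finite.mem_toFinset] at hp'
      exact hp'.1.1)] at h1
    obtain ⟨p, hp, hle⟩ := h1
    have hp' := Finset.mem_filter.1 hp
    rw [Set.Finite.mem_toFinset] at hp'
    have hpr : p.IsPrime := hp'.1.1.1
    exact hp'.2 (le_antisymm (le_maximalIdeal hpr.ne_top) hle)
  refine ⟨a, ha, ?_⟩
  set I := J ⊔ Ideal.span {a} with hI
  have h0 : Ring.KrullDimLE 0 (R ⧸ I) := by
    rw [Ring.krullDimLE_zero_iff]
    intro Q hQ
    have hq : (Q.comap (Ideal.Quotient.mk I)).IsPrime := inferInstance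
    set q := Q.comap (Ideal.Quotient.mk I) with hqdef
    have hIq : I ≤ q := (Ideal.mk_ker (I := I)).ge.trans (Ideal.ker_le_comap _)
    have hqm : q = maximalIdeal R := by
      obtain ⟨p, hp, hpq⟩ := Ideal.exists_minimalPrimes_le (le_sup_left.trans hIq)
      have hpp : p.IsPrime := hp.1.1
      by_cases hpm : p = maximalIdeal R
      · exact le_antisymm (le_maximalIdeal hq.ne_top) (hpm ▸ hpq)
      · by_contra hne
        have h1 : p < q := by
          refine lt_of_le_of_ne hpq fun h => ?_
          apply haS p (Finset.mem_filter.2 ⟨(Set.Finite.mem_toFinset _).2 hp, hpm⟩)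
          rw [h]
          exact hIq (Ideal.mem_sup_right (Ideal.mem_span_singleton_self a))
        have h2 : q < maximalIdeal R := lt_of_le_of_ne (le_maximalIdeal hq.ne_top) hne
        exact hJ p hpp hp.1.2 (two_le_dim h1 h2)
    have hmax : q.IsMaximal := hqm ▸ inferInstance
    exact Ideal.isMaximal_of_isIntegral_of_isMaximal_comap _ hmax
  have h1 : IsArtinianRing (R ⧸ I) := IsNoetherianRing.isArtinianRing_of_krullDimLE_zero
  rw [Module.length_eq_of_surjective (R := R ⧸ I) (S := R) (M := R ⧸ I)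
    Ideal.Quotient.mk_surjective]
  exact Module.length_ne_top

end

end Pool.Agent.Lib.MP_f0b71a_al
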