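import Pool.Agent.Lib.MP_f0b71a_al.Burch

/-! # A module with a nonzero direction is a Burch module -/

universe u

namespace Pool.Agent.Lib.MP_f0b71a_al

open IsLocalRing

section

variable {R : Type u} [CommRing R] [IsLocalRing R] {M : Type u} [AddCommGroup M] [Module R M]

/-- The relations of the pushout of `𝔪 → R` and `f : 𝔪 → M`. -/
def pushRel (f : maximalIdeal R →ₗ[R] M) : Submodule R (R × M) :=
  LinearMap.range ((maximalIdeal R).subtype.prod (-f))

theorem mem_pushRel {f : maximalIdeal R →ₗ[R] M} {z : R × M} :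
    z ∈ pushRel f ↔ ∃ a : maximalIdeal R, ((a : R), -f a) = z := Iff.rfl

/-- The embedding of `M` in the pushout. -/
def pushEmb (f : maximalIdeal R →ₗ[R] M) : M →ₗ[R] ((R × M) ⧸ pushRel f) :=
  (pushRel f).mkQ ∘ₗ LinearMap.inr R R M

theorem pushEmb_injective (f : maximalIdeal R →ₗ[R] M) : Function.Injective (pushEmb f) := by
  rw [injective_iff_map_eq_zero]
  intro x hx
  have h1 : ((0 : R), x) ∈ pushRel f := (Submodule.Quotient.mk_eq_zero _).1 hx
  obtain ⟨a, ha⟩ := mem_pushRel.1 h1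
  have h2 : (a : R) = 0 := (Prod.ext_iff.1 ha).1
  have h3 : -f a = x := (Prod.ext_iff.1 ha).2
  have h4 : a = 0 := Subtype.ext h2
  rw [← h3, h4, map_zero, neg_zero]

theorem pushEmb_eq (f : maximalIdeal R →ₗ[R] M) (a : maximalIdeal R) :
    (a : R) • (Submodule.Quotient.mk ((1 : R), (0 : M)) : (R × M) ⧸ pushRel f) =
      pushEmb f (f a) := by
  rw [← Submodule.Quotient.mk_smul]
  change _ = (Submodule.Quotient.mk ((0 : R), f a) : (R × M) ⧸ pushRel f)
  rw [Submodule.Quotient.eq]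
  refine mem_pushRel.2 ⟨a, ?_⟩
  refine Prod.ext ?_ ?_
  · simp
  · simp

theorem isBurch_of_direction [Module.Finite R M] {χ : maximalIdeal R →ₗ[R] ResidueField R}
    (hχ : χ ∈ Directions R M) (h0 : χ ≠ 0) : IsBurch R M := by
  obtain ⟨f, ε, rfl⟩ := hχ
  obtain ⟨a, ha⟩ : ∃ a, ε (f a) ≠ 0 := by
    by_contra hcon
    push Not at hcon
    exact h0 (LinearMap.ext hcon)
  refine ⟨(R × M) ⧸ pushRel f, inferInstance, inferInstance, LinearMap.range (pushEmb f),
    inferInstance, ?_, ⟨LinearEquiv.ofInjective _ (pushEmb_injective f)⟩⟩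
  intro heq
  have h1 : (Submodule.Quotient.mk ((1 : R), (0 : M)) : (R × M) ⧸ pushRel f) ∈
      colonMax (LinearMap.range (pushEmb f)) := by
    intro b hb
    exact ⟨f ⟨b, hb⟩, (pushEmb_eq f ⟨b, hb⟩).symm⟩
  have h2 : pushEmb f (f a) ∈ maximalIdeal R • LinearMap.range (pushEmb f) := by
    rw [← heq, ← pushEmb_eq f a]
    exact Submodule.smul_mem_smul a.2 h1
  have h3 : pushEmb f (f a) ∈ (maximalIdeal R • (⊤ : Submodule R M)).map (pushEmb f) := by
    rw [Submodule.map_smul'', Submodule.map_top]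
    exact h2
  obtain ⟨y, hy, hy2⟩ := h3
  have h4 : y = f a := pushEmb_injective f hy2
  rw [h4] at hy
  apply ha
  have h5 : maximalIdeal R • (⊤ : Submodule R M) ≤ LinearMap.ker ε := by
    rw [Submodule.smul_le]
    intro r hr x _
    rw [LinearMap.mem_ker, map_smul]
    change residue R r * _ = 0
    rw [(residue_eq_zero_iff r).2 hr, zero_mul]
  exact h5 hy

/-- Burch modules and directions. -/
theorem isBurch_iff [Module.Finite R M] :
    IsBurch R M ↔ ∃ χ ∈ Directions R M, χ ≠ 0 := by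
  constructor
  · intro h
    obtain ⟨f, ε, a, ha⟩ := h.exists_map
    refine ⟨ε ∘ₗ f, ⟨f, ε, rfl⟩, fun h0 => ?_⟩
    have h1 := LinearMap.congr_fun h0 a
    change ε (f a) = 0 at h1
    rw [ha] at h1
    exact one_ne_zero h1
  · rintro ⟨χ, hχ, h0⟩
    exact isBurch_of_direction hχ h0

end

end Pool.Agent.Lib.MP_f0b71a_al
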