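import Pool.Agent.Lib.MP_f0b71a_al.Defs
import Mathlib.RingTheory.Noetherian.Basic
import Mathlib.RingTheory.Finiteness.Cardinality

/-! # Existence of resolutions and of the minimal resolution of the residue field -/

universe u

namespace Pool.Agent.Lib.MP_f0b71a_al

open IsLocalRing
open scoped Matrix

noncomputable section

theorem ex_cov {R : Type u} [CommRing R] [IsNoetherianRing R] (n : ℕ)
    (K : Submodule R (Fin n → R)) :
    ∃ p : Σ m : ℕ, Matrix (Fin n) (Fin m) R, ∀ x, x ∈ K ↔ ∃ y, x = p.2 *ᵥ y := by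
  have hfin : Module.Finite R K := inferInstance
  obtain ⟨m, f, hf⟩ := Module.Finite.exists_fin' R K
  refine ⟨⟨m, LinearMap.toMatrix' (K.subtype ∘ₗ f)⟩, fun x => ?_⟩
  have h : ∀ y, (LinearMap.toMatrix' (K.subtype ∘ₗ f)) *ᵥ y = (f y : Fin n → R) := by
    intro y
    rw [LinearMap.toMatrix'_mulVec]
    rfl
  constructor
  · intro hx
    obtain ⟨y, hy⟩ := hf ⟨x, hx⟩
    refine ⟨y, ?_⟩
    change x = (LinearMap.toMatrix' (K.subtype ∘ₗ f)) *ᵥ y
    rw [h, hy]
  · rintro ⟨y, rfl⟩
    change (LinearMap.toMatrix' (K.subtype ∘ₗ f)) *ᵥ y ∈ K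
    rw [h]
    exact (f y).2

/-- the recursive construction of the kernels -/
def exSt {R : Type u} [CommRing R] [IsNoetherianRing R]
    (s0 : Σ n : ℕ, Submodule R (Fin n → R)) : ℕ → Σ n : ℕ, Submodule R (Fin n → R)
  | 0 => s0
  | k + 1 =>
    ⟨(ex_cov (exSt s0 k).1 (exSt s0 k).2).choose.1,
      LinearMap.ker (Matrix.mulVecLin (ex_cov (exSt s0 k).1 (exSt s0 k).2).choose.2)⟩

/-- Finitely generated modules over noetherian rings have resolutions. -/
theorem exists_res (R : Type u) [CommRing R] [IsNoetherianRing R] (M : Type u) [AddCommGroup M]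
    [Module R M] [Module.Finite R M] : Nonempty (Res R M) := by
  obtain ⟨m, f, hf⟩ := Module.Finite.exists_fin' R M
  let s0 : Σ n : ℕ, Submodule R (Fin n → R) := ⟨m, LinearMap.ker f⟩
  refine ⟨⟨fun k => (exSt s0 k).1, fun k => (ex_cov (exSt s0 k).1 (exSt s0 k).2).choose.2, f,
    hf, ?_, ?_⟩⟩
  · intro x
    exact (ex_cov (exSt s0 0).1 (exSt s0 0).2).choose_spec x
  · intro k x
    exact (ex_cov (exSt s0 (k + 1)).1 (exSt s0 (k + 1)).2).choose_spec x

/-- Minimal generators of a submodule. -/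
theorem ex_min {R : Type u} [CommRing R] [IsLocalRing R] [IsNoetherianRing R] (n : ℕ)
    (K : Submodule R (Fin n → R)) :
    ∃ p : Σ m : ℕ, Matrix (Fin n) (Fin m) R, (∀ x, x ∈ K ↔ ∃ y, x = p.2 *ᵥ y) ∧
      ∀ y, p.2 *ᵥ y = 0 → ∀ i, y i ∈ maximalIdeal R := by
  classical
  have hfin : Module.Finite R K := inferInstance
  have hex : ∃ m : ℕ, ∃ f : (Fin m → R) →ₗ[R] K, Function.Surjective f :=
    Module.Finite.exists_fin' R K
  obtain ⟨f, hf⟩ := Nat.find_spec hex
  have hmin : ∀ m, (∃ f : (Fin m → R) →ₗ[R] K, Function.Surjective f) → Nat.find hex ≤ m :=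
    fun m hm => Nat.find_min' hex hm
  generalize Nat.find hex = m at f hf hmin
  have h : ∀ y, (LinearMap.toMatrix' (K.subtype ∘ₗ f)) *ᵥ y = (f y : Fin n → R) := by
    intro y
    rw [LinearMap.toMatrix'_mulVec]
    rfl
  refine ⟨⟨m, LinearMap.toMatrix' (K.subtype ∘ₗ f)⟩, fun x => ?_, fun y hy i => ?_⟩
  · constructor
    · intro hx
      obtain ⟨y, hy⟩ := hf ⟨x, hx⟩
      refine ⟨y, ?_⟩
      change x = (LinearMap.toMatrix' (K.subtype ∘ₗ f)) *ᵥ y
      rw [h, hy]
    · rintro ⟨y, rfl⟩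
      change (LinearMap.toMatrix' (K.subtype ∘ₗ f)) *ᵥ y ∈ K
      rw [h]
      exact (f y).2
  · have hy' : f y = 0 := by
      have h1 : (LinearMap.toMatrix' (K.subtype ∘ₗ f)) *ᵥ y = 0 := hy
      rw [h] at h1
      exact Subtype.ext h1
    by_contra hi
    have hu : IsUnit (y i) := by
      rw [mem_maximalIdeal, mem_nonunits_iff, not_not] at hi
      exact hi
    obtain ⟨u, hu⟩ := hu
    change Fin m at i
    obtain ⟨m, rfl⟩ : ∃ m', m = m' + 1 := ⟨m - 1, by have := i.2; omega⟩
    have h2 := hmin m ⟨Fintype.linearCombination R (fun j => f (Pi.single (i.succAbove j) 1)), ?_⟩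
    · omega
    · intro x
      obtain ⟨z, rfl⟩ := hf x
      let z' : Fin (m + 1) → R := z - (z i * ((u⁻¹ : Rˣ) : R)) • y
      have hz0 : z' i = 0 := by
        change z i - (z i * ((u⁻¹ : Rˣ) : R)) * y i = 0
        rw [← hu, mul_assoc, Units.inv_mul, mul_one, sub_self]
      have hz1 : f z' = f z := by
        change f (z - _ • y) = f z
        rw [map_sub, map_smul, hy', smul_zero, sub_zero]
      refine ⟨fun j => z' (i.succAbove j), ?_⟩
      rw [Fintype.linearCombination_apply, ← hz1]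
      have hz2 : z' = ∑ j, z' j • (Pi.single j (1 : R) : Fin (m + 1) → R) := by
        funext l
        simp [Pi.single_apply]
      conv_rhs => rw [hz2, map_sum]
      rw [Fin.sum_univ_succAbove _ i, hz0, zero_smul, map_zero, zero_add]
      exact Finset.sum_congr rfl fun j _ => (map_smul f _ _).symm

/-- the recursive construction of the kernels -/
def minSt (R : Type u) [CommRing R] [IsLocalRing R] [IsNoetherianRing R] :
    ℕ → Σ n : ℕ, Submodule R (Fin n → R)
  | 0 => ⟨1, Submodule.pi Set.univ fun _ => maximalIdeal R⟩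
  | k + 1 =>
    ⟨(ex_min (minSt R k).1 (minSt R k).2).choose.1,
      LinearMap.ker (Matrix.mulVecLin (ex_min (minSt R k).1 (minSt R k).2).choose.2)⟩

theorem minSt_le (R : Type u) [CommRing R] [IsLocalRing R] [IsNoetherianRing R] (k : ℕ) :
    ∀ x ∈ (minSt R k).2, ∀ i, x i ∈ maximalIdeal R := by
  match k with
  | 0 =>
    intro x hx i
    exact (Submodule.mem_pi.1 hx) i (Set.mem_univ _)
  | k + 1 =>
    intro x hx i
    exact (ex_min (minSt R k).1 (minSt R k).2).choose_spec.2 x hx i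

/-- The residue field of a noetherian local ring has a minimal resolution. -/
theorem exists_minRes (R : Type u) [CommRing R] [IsLocalRing R] [IsNoetherianRing R] :
    Nonempty (MinRes R) := by
  refine ⟨⟨fun k => (minSt R k).1, fun k => (ex_min (minSt R k).1 (minSt R k).2).choose.2, rfl,
    ?_, ?_, ?_⟩⟩
  · intro x
    refine Iff.trans ⟨fun h => ?_, fun h => ?_⟩
      ((ex_min (minSt R 0).1 (minSt R 0).2).choose_spec.1 x)
    · exact Submodule.mem_pi.2 fun i _ => h i
    · exact minSt_le R 0 x h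
  · intro k x
    exact (ex_min (minSt R (k + 1)).1 (minSt R (k + 1)).2).choose_spec.1 x
  · intro k i j
    have h1 := ((ex_min (minSt R k).1 (minSt R k).2).choose_spec.1
      ((ex_min (minSt R k).1 (minSt R k).2).choose.2 *ᵥ Pi.single j 1)).2 ⟨_, rfl⟩
    have h2 := minSt_le R k _ h1 i
    rw [Matrix.mulVec_single_one] at h2
    exact h2

end

end Pool.Agent.Lib.MP_f0b71a_al
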