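import Pool.Agent.Lib.MP_f0b71a_al.ExtA

/-! # `Ext`: the two inequalities -/

universe u

namespace Pool.Agent.Lib.MP_f0b71a_al

open IsLocalRing
open scoped Matrix

section

variable {R : Type u} [CommRing R] [IsLocalRing R] {P : MinRes R}

/-- The transpose of `σ_n` with values in the dual of `P_n ⊗ k`. -/
noncomputable def Hom.At {a : R} (H : Hom P a) (n : ℕ) :
    (Fin (P.b (n + 1)) → R) →ₗ[R] (Fin (P.b n) → ResidueField R) :=
  red _ ∘ₗ ((H.σ n)ᵀ).mulVecLin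

theorem Hom.At_apply {a : R} (H : Hom P a) (n : ℕ) (x : Fin (P.b (n + 1)) → R) :
    H.At n x = red _ ((H.σ n)ᵀ *ᵥ x) := rfl

theorem Hom.betti_let {χ : maximalIdeal R →ₗ[R] ResidueField R} (Φ : Deg P χ) {a : R}
    (ha : a ∈ maximalIdeal R) (H : Hom P a) (hc : χ ⟨a, ha⟩ = 1) (n : ℕ) :
    (P.b (n + 1) : ℕ∞) ≤ Module.length R (LinearMap.range (H.At (n + 1))) +
      Module.length R (LinearMap.range (H.At n)) := by
  have h1 := length_main (red (R := R) (P.b (n + 1))) (red (R := R) (P.b (n + 1))) (H.At n)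
    (LinearMap.range (H.At (n + 1))) (fun x hx => hx) (fun x hx => by
      have h2 := Φ.relt ha H (c := 1) (by rw [hc, map_one]) n (red _ x)
      rw [← red_mulVec (H.σ n)ᵀ, ← H.At_apply n, hx, map_zero, sub_zero, ← red_mulVec,
        ← red_mulVec, one_smul] at h2
      refine ⟨(-1 : R) ^ (n + 1) • ((Φ.φ (n + 1))ᵀ *ᵥ x), ?_⟩
      rw [map_smul, H.At_apply, h2, smul_smul, ← mul_pow]
      simp)
  have h2 : LinearMap.range (red (R := R) (P.b (n + 1))) = ⊤ :=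
    LinearMap.range_eq_top.2 (red_surjective _)
  rw [h2, Module.length_top, length_vec] at h1
  exact h1

/-- If `φ σ x = 0` (transposed) then `σ x = 0` modulo `𝔪`. -/
theorem Hom.injt {χ : maximalIdeal R →ₗ[R] ResidueField R} (Φ : Deg P χ) {a : R}
    (ha : a ∈ maximalIdeal R) (H : Hom P a) (hc : χ ⟨a, ha⟩ = 1) (n : ℕ)
    (y : Fin (P.b (n + 1)) → ResidueField R)
    (hy : act (ResidueField R) (Φ.φ n)ᵀ (act (ResidueField R) (H.σ n)ᵀ y) = 0) :
    act (ResidueField R) (H.σ n)ᵀ y = 0 := by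
  match n, y, hy with
  | 0, y, hy =>
    have h2 := Φ.relt0 ha H (c := 1) (by rw [hc, map_one]) (act (ResidueField R) (H.σ 0)ᵀ y)
    rw [hy, map_zero, one_smul] at h2
    exact h2.symm
  | n + 1, y, hy =>
    have h2 := Φ.relt ha H (c := 1) (by rw [hc, map_one]) n
      (act (ResidueField R) (H.σ (n + 1))ᵀ y)
    rw [H.sqt, hy, map_zero, map_zero, sub_zero, one_smul] at h2
    have h3 : (-1 : R) ^ (n + 1) • (-1 : R) ^ (n + 1) •
        act (ResidueField R) (H.σ (n + 1))ᵀ y = act (ResidueField R) (H.σ (n + 1))ᵀ y := by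
      rw [smul_smul, ← mul_pow]
      simp
    rw [← h3, ← h2, smul_zero]

/-- `σ ψ(d σ x) = σ x`, transposed. -/
theorem Hom.absorb {ψ : maximalIdeal R →ₗ[R] ResidueField R} {a : R} (ha : a ∈ maximalIdeal R)
    (H : Hom P a) (hc : ψ ⟨a, ha⟩ = 1) (n : ℕ) (x : Fin (P.b (n + 1)) → R) :
    act (ResidueField R) (H.σ n)ᵀ (P.Dt ψ n ((H.σ n)ᵀ *ᵥ x)) = red _ ((H.σ n)ᵀ *ᵥ x) := by
  match n, x with
  | 0, x =>
    rw [H.Dt_σ0 ha (c := 1) (by rw [hc, map_one]), one_smul]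
  | n + 1, x =>
    rw [H.Dt_σ ha (c := 1) (by rw [hc, map_one]), one_smul]
    have h1 : red _ ((H.σ n)ᵀ *ᵥ ((H.σ (n + 1))ᵀ *ᵥ x)) = 0 := by
      rw [red_mulVec, red_mulVec]
      exact H.sqt n _
    rw [P.Dt_eq_zero ψ n _ ((red_eq_zero _).1 h1), sub_zero]

/-- The operator `x ↦ ψ x χ` on `Ext(k, k)`. -/
noncomputable def Deg.Lt {χ : maximalIdeal R →ₗ[R] ResidueField R} (Φ : Deg P χ)
    (ψ : maximalIdeal R →ₗ[R] ResidueField R) (n : ℕ) :
    (Fin (P.b n) → R) →ₗ[R] (Fin (P.b (n + 2)) → ResidueField R) :=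
  (act (ResidueField R) (Φ.φ (n + 1))ᵀ) ∘ₗ P.Dt ψ n

theorem Deg.Lt_apply {χ : maximalIdeal R →ₗ[R] ResidueField R} (Φ : Deg P χ)
    (ψ : maximalIdeal R →ₗ[R] ResidueField R) (n : ℕ) (x : Fin (P.b n) → R) :
    Φ.Lt ψ n x = act (ResidueField R) (Φ.φ (n + 1))ᵀ (P.Dt ψ n x) := rfl

theorem Deg.splitt {χ ψ : maximalIdeal R →ₗ[R] ResidueField R} (Φ : Deg P χ) {b : R}
    (hb : b ∈ maximalIdeal R) (H : Hom P b) (h0 : χ ⟨b, hb⟩ = 0) (h1 : ψ ⟨b, hb⟩ = 1) (n : ℕ)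
    (z : Fin (P.b (n + 1)) → R) :
    red _ ((Φ.φ (n + 1))ᵀ *ᵥ z) ∈ LinearMap.range (Φ.Lt ψ n) ⊔
      (LinearMap.range (Φ.Lt ψ (n + 1))).map (act (ResidueField R) (H.σ (n + 2))ᵀ) := by
  have h2 := H.Dt_σ (ψ := ψ) hb (c := 1) (by rw [h1, map_one]) (n + 1) ((Φ.φ (n + 1))ᵀ *ᵥ z)
  rw [one_smul, Φ.Dt_φ] at h2
  have h3 : red _ ((Φ.φ (n + 1))ᵀ *ᵥ z) =
      P.Dt ψ (n + 1) ((H.σ (n + 1))ᵀ *ᵥ ((Φ.φ (n + 1))ᵀ *ᵥ z)) +
      act (ResidueField R) (H.σ (n + 2))ᵀ (Φ.Lt ψ (n + 1) z) := by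
    rw [Φ.Lt_apply, h2]
    abel
  have h4 : P.Dt ψ (n + 1) ((H.σ (n + 1))ᵀ *ᵥ ((Φ.φ (n + 1))ᵀ *ᵥ z)) =
      Φ.Lt ψ n ((H.σ n)ᵀ *ᵥ z) := by
    rw [Φ.Lt_apply, ← Φ.Dt_φ]
    apply P.Dt_congr
    have h5 := Φ.relt hb H (c := 0) (by rw [h0, map_zero]) n (red _ z)
    rw [zero_smul, smul_zero] at h5
    rw [red_mulVec, red_mulVec, red_mulVec, red_mulVec]
    exact sub_eq_zero.1 h5
  rw [h3, h4]
  exact Submodule.add_mem_sup ⟨_, rfl⟩ ⟨_, ⟨z, rfl⟩, rfl⟩

theorem Deg.betti_let {χ ψ : maximalIdeal R →ₗ[R] ResidueField R} (Φ : Deg P χ) {a b : R}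
    (ha : a ∈ maximalIdeal R) (hb : b ∈ maximalIdeal R) (Ha : Hom P a) (Hb : Hom P b)
    (h1 : χ ⟨a, ha⟩ = 1) (h2 : χ ⟨b, hb⟩ = 0) (h3 : ψ ⟨b, hb⟩ = 1) (n : ℕ) :
    (P.b (n + 2) : ℕ∞) ≤ Module.length R (LinearMap.range (Φ.Lt ψ (n + 2))) +
      2 * Module.length R (LinearMap.range (Φ.Lt ψ (n + 1))) +
      Module.length R (LinearMap.range (Φ.Lt ψ n)) := by
  set S : Submodule R (Fin (P.b (n + 2)) → ResidueField R) :=
    (LinearMap.range (Φ.Lt ψ n) ⊔
      (LinearMap.range (Φ.Lt ψ (n + 1))).map (act (ResidueField R) (Hb.σ (n + 2))ᵀ)) ⊔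
      (LinearMap.range (Φ.Lt ψ (n + 1)) ⊔
      (LinearMap.range (Φ.Lt ψ (n + 2))).map (act (ResidueField R) (Hb.σ (n + 3))ᵀ)).map
        (act (ResidueField R) (Ha.σ (n + 2))ᵀ) with hS
  have h4 : S = ⊤ := by
    rw [eq_top_iff]
    rintro y -
    obtain ⟨x, rfl⟩ := red_surjective (R := R) _ y
    have h5 := Φ.relt ha Ha (c := 1) (by rw [h1, map_one]) (n + 1) (red _ x)
    rw [one_smul] at h5
    have h6 : red _ x = (-1 : R) ^ (n + 2) •
        (act (ResidueField R) (Ha.σ (n + 2))ᵀ (act (ResidueField R) (Φ.φ (n + 2))ᵀ (red _ x)) -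
      act (ResidueField R) (Φ.φ (n + 1))ᵀ (act (ResidueField R) (Ha.σ (n + 1))ᵀ (red _ x))) := by
      rw [h5, smul_smul, ← mul_pow]
      simp
    rw [h6]
    refine Submodule.smul_mem _ _ (Submodule.sub_mem _ ?_ ?_)
    · refine Submodule.mem_sup_right ?_
      rw [← red_mulVec]
      exact ⟨_, Φ.splitt hb Hb h2 h3 (n + 1) x, rfl⟩
    · refine Submodule.mem_sup_left ?_
      rw [← red_mulVec, ← red_mulVec]
      exact Φ.splitt hb Hb h2 h3 n _
  have h5 : Module.length R S = P.b (n + 2) := by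
    rw [h4, Module.length_top, length_vec]
  rw [← h5]
  refine (length_sup_le _ _).trans ?_
  refine (add_le_add (length_sup_le _ _) ((length_map_le _ _).trans (length_sup_le _ _))).trans ?_
  refine (add_le_add (add_le_add le_rfl (length_map_le _ _))
    (add_le_add le_rfl (length_map_le _ _))).trans ?_
  have h6 : ∀ x y z : ℕ∞, z + y + (y + x) ≤ x + 2 * y + z := fun x y z => le_of_eq (by ring)
  exact h6 _ _ _

end

section

variable {R : Type u} [CommRing R] [IsLocalRing R] [IsNoetherianRing R] {P : MinRes R}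
  {M : Type u} [AddCommGroup M] [Module R M] {F : Res R M}
  {N : Type u} [AddCommGroup N] [Module R N] [Module.Finite R N]

/-- The socle inequality for `Ext`. -/
theorem ext_socle {f : maximalIdeal R →ₗ[R] M} {ε : M →ₗ[R] ResidueField R}
    {g : maximalIdeal R →ₗ[R] N} {δ : N →ₗ[R] ResidueField R} (Lf : LiftM F P f)
    (Le : LiftE F P ε) {a : R} (ha : a ∈ maximalIdeal R) (H : Hom P a)
    (h1 : ε (f ⟨a, ha⟩) = 1) (h2 : δ (g ⟨a, ha⟩) = 1) (n : ℕ) :
    Module.length R (LinearMap.range (H.At n)) ≤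
      mu R (ExtR F N n) + Module.length R (socle R (ExtR F N (n + 1))) := by
  set Φ := mkDeg Lf Le with hΦ
  have key := length_main (H.At n)
    ((act (ResidueField R) (Φ.φ n)ᵀ) ∘ₗ H.At n)
    (extOf Le g n ∘ₗ ((H.σ n)ᵀ).mulVecLin) (LinearMap.range (extTo Lf δ n))
    (fun x hx => by
      have h3 : act (ResidueField R) (Φ.φ n)ᵀ (act (ResidueField R) (H.σ n)ᵀ (red _ x)) = 0 := by
        rw [← red_mulVec]
        exact hx
      have h4 := H.injt Φ ha h1 n (red _ x) h3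
      rw [← red_mulVec] at h4
      exact h4)
    (fun x hx => by
      have hx' : extOf Le g n ((H.σ n)ᵀ *ᵥ x) = 0 := hx
      rw [extOf_eq_zero] at hx'
      obtain ⟨y, hy⟩ := hx'
      set v := P.dt n ((H.σ n)ᵀ *ᵥ x) with hv
      have h5 : act N (P.d (n + 1))ᵀ (fun i => g (v i)) = 0 := by
        rw [← act_map, hv, P.act_dt]
        funext i
        simp
      have h6 : act N (F.d n)ᵀ (act N (H.σ n * Le.e n)ᵀ (fun i => g (v i)) - a • y) = 0 := by
        rw [map_sub, map_smul, hy, ← act_mul, ← Matrix.transpose_mul, Matrix.mul_assoc, ← Le.comm,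
          ← Matrix.mul_assoc]
        have h7 : H.σ n * P.d n = a • 1 - P.d (n + 1) * H.σ (n + 1) := by
          rw [H.sS, sub_sub_cancel]
        rw [h7, Matrix.transpose_mul, act_mul, Matrix.transpose_sub, act_sub,
          Matrix.transpose_mul, act_mul, h5, map_zero, sub_zero, Matrix.transpose_smul,
          Matrix.transpose_one, act_smul, act_one, map_smul, sub_self]
      have h7 := mem_range_extTo Lf δ n h6
      have h8 : act (ResidueField R) (Lf.f n)ᵀ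
          (fun i => δ ((act N (H.σ n * Le.e n)ᵀ (fun i => g (v i)) - a • y) i)) =
          ((act (ResidueField R) (Φ.φ n)ᵀ) ∘ₗ H.At n) x := by
        have h9 : (fun i => δ ((act N (H.σ n * Le.e n)ᵀ (fun i => g (v i)) - a • y) i)) =
            act (ResidueField R) (H.σ n * Le.e n)ᵀ (fun i => (δ ∘ₗ g) (v i)) := by
          have h10 := act_map δ (H.σ n * Le.e n)ᵀ (fun i => g (v i))
          funext i
          rw [Pi.sub_apply, map_sub, Pi.smul_apply, map_smul, smul_residue_eq_zero ha, sub_zero]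
          exact congrFun h10 i
        have h11 : (fun i => (δ ∘ₗ g) (v i)) = P.Dt (δ ∘ₗ g) n ((H.σ n)ᵀ *ᵥ x) := rfl
        rw [h9, h11, ← act_mul, ← Matrix.transpose_mul, Matrix.mul_assoc, Matrix.transpose_mul,
          act_mul, H.absorb (ψ := δ ∘ₗ g) ha h2]
        rfl
      rw [h8] at h7
      exact h7)
  refine key.trans (add_le_add (length_extTo Lf δ n) ?_)
  exact length_extOf Le g n _

theorem ext_indep {f : maximalIdeal R →ₗ[R] M} {ε : M →ₗ[R] ResidueField R}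
    {g : maximalIdeal R →ₗ[R] N} {δ : N →ₗ[R] ResidueField R} (Lf : LiftM F P f)
    (Le : LiftE F P ε) (n : ℕ) :
    Module.length R (LinearMap.range ((mkDeg Lf Le).Lt (δ ∘ₗ g) n)) ≤
      mu R (ExtR F N (n + 1)) := by
  refine le_trans ?_ (length_extTo Lf δ (n + 1))
  refine Module.length_le_of_injective (Submodule.inclusion ?_) (Submodule.inclusion_injective _)
  rintro - ⟨x, rfl⟩
  refine ⟨extOf Le g n x, ?_⟩
  rw [Deg.Lt_apply]
  have h2 : (mkDeg Lf Le).φ (n + 1) = Le.e (n + 1) * Lf.f (n + 1) := rfl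
  rw [h2, Matrix.transpose_mul, act_mul]
  have h3 : extTo Lf δ (n + 1) (extOf Le g n x) = act (ResidueField R) (Lf.f (n + 1))ᵀ
      (fun i => δ (act N (Le.e (n + 1))ᵀ (fun i => g (P.dt n x i)) i)) := rfl
  rw [h3, act_map]
  rfl

end

end Pool.Agent.Lib.MP_f0b71a_al
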