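import Pool.Agent.Lib.MP_f0b71a_al.Defs
import Mathlib.Tactic
import Mathlib.Analysis.SpecificLimits.Basic

/-! # Comparison of complexity and curvature -/

namespace Pool.Agent.Lib.MP_f0b71a_al

open Filter
open scoped ENNReal

/-- `β` is bounded by shifts of `μ`. -/
def Dom (β μ : ℕ → ℕ) : Prop :=
  ∃ C i J n0 : ℕ, ∀ n ≥ n0, β (n + i) ≤ C * ∑ j ∈ Finset.range J, μ (n + j)

theorem Dom.cx_le {β μ : ℕ → ℕ} (h : Dom β μ) : cx β ≤ cx μ := by
  obtain ⟨C, i, J, n0, h⟩ := h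
  refine le_sInf ?_
  rintro - ⟨b, rfl, c, hc, hμ⟩
  refine sInf_le ⟨b, rfl, ?_⟩
  obtain ⟨N, hN⟩ := eventually_atTop.1 hμ
  -- comparison of powers
  obtain ⟨K, hK, hpow⟩ : ∃ K : ℝ, 0 < K ∧ ∀ m : ℕ, 1 ≤ m → ∀ j < J,
      ((m + j : ℕ) : ℝ) ^ ((b : ℤ) - 1) ≤ K * ((m + i : ℕ) : ℝ) ^ ((b : ℤ) - 1) := by
    rcases b with _ | b
    · refine ⟨i + 1, by positivity, fun m hm j _ => ?_⟩
      have hm' : (1 : ℝ) ≤ m := by exact_mod_cast hm
      simp only [Nat.cast_zero, zero_sub, zpow_neg_one, Nat.cast_add]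
      rw [inv_le_iff_one_le_mul₀ (by positivity)]
      rw [mul_assoc, mul_comm, mul_assoc]
      rw [inv_mul_eq_div, one_le_div (by positivity)]
      nlinarith [(Nat.cast_nonneg i : (0 : ℝ) ≤ i), (Nat.cast_nonneg j : (0 : ℝ) ≤ j)]
    · refine ⟨((J : ℝ) + 1) ^ b, by positivity, fun m hm j hj => ?_⟩
      have hm' : (1 : ℝ) ≤ m := by exact_mod_cast hm
      have hj' : (j : ℝ) ≤ J := by exact_mod_cast hj.le
      have e1 : (((b + 1 : ℕ) : ℤ) - 1) = (b : ℤ) := by push_cast; ring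
      rw [e1, zpow_natCast, zpow_natCast, ← mul_pow]
      refine pow_le_pow_left₀ (by positivity) ?_ b
      push_cast
      nlinarith [(Nat.cast_nonneg i : (0 : ℝ) ≤ i), (Nat.cast_nonneg J : (0 : ℝ) ≤ J),
        mul_nonneg (Nat.cast_nonneg J : (0 : ℝ) ≤ J) (Nat.cast_nonneg i : (0 : ℝ) ≤ i)]
  refine ⟨C * (J * (c * K)) + 1, by positivity, ?_⟩
  filter_upwards [eventually_ge_atTop (n0 + N + 1 + i)] with n hn
  obtain ⟨m, rfl⟩ := Nat.exists_eq_add_of_le' (show i ≤ n by omega)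
  have h1 := h m (by omega)
  have h2 : (β (m + i) : ℝ) ≤ C * ∑ j ∈ Finset.range J, (μ (m + j) : ℝ) := by exact_mod_cast h1
  have h3 : ∑ j ∈ Finset.range J, (μ (m + j) : ℝ) ≤
      ∑ j ∈ Finset.range J, c * (K * ((m + i : ℕ) : ℝ) ^ ((b : ℤ) - 1)) := by
    refine Finset.sum_le_sum fun j hj => (hN (m + j) (by omega)).trans ?_
    exact mul_le_mul_of_nonneg_left (hpow m (by omega) j (Finset.mem_range.1 hj)) hc.le
  rw [Finset.sum_const, Finset.card_range, nsmul_eq_mul] at h3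
  have h4 : 0 ≤ ((m + i : ℕ) : ℝ) ^ ((b : ℤ) - 1) := by positivity
  calc (β (m + i) : ℝ) ≤ C * ∑ j ∈ Finset.range J, (μ (m + j) : ℝ) := h2
    _ ≤ C * (J * (c * (K * ((m + i : ℕ) : ℝ) ^ ((b : ℤ) - 1)))) :=
        mul_le_mul_of_nonneg_left h3 (by positivity)
    _ = C * (J * (c * K)) * ((m + i : ℕ) : ℝ) ^ ((b : ℤ) - 1) := by ring
    _ ≤ (C * (J * (c * K)) + 1) * ((m + i : ℕ) : ℝ) ^ ((b : ℤ) - 1) := by nlinarith

theorem Dom.curv_le {β μ : ℕ → ℕ} (h : Dom β μ) : curv β ≤ curv μ := by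
  obtain ⟨C, i, J, n0, h⟩ := h
  refine le_of_forall_gt_imp_ge_of_dense fun ρ' hρ' => ?_
  obtain ⟨ρ, hρ, hρρ'⟩ := exists_between hρ'
  have h1 : ∀ᶠ n : ℕ in atTop, ((μ n : ℝ≥0∞)) ^ (1 / (n : ℝ)) < ρ :=
    eventually_lt_of_limsup_lt hρ
  have h2 : ∀ᶠ n : ℕ in atTop, (μ n : ℝ≥0∞) < ρ ^ n := by
    filter_upwards [h1, eventually_ge_atTop 1] with n hn hn1
    have hn' : (0 : ℝ) < n := by exact_mod_cast hn1
    rw [one_div] at hn
    have h3 := (ENNReal.rpow_inv_lt_iff hn').1 hn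
    rwa [ENNReal.rpow_natCast] at h3
  obtain ⟨N, hN⟩ := eventually_atTop.1 h2
  by_cases h3 : ρ ≤ 1
  · have h4 : ∀ᶠ n : ℕ in atTop, ((β n : ℝ≥0∞)) ^ (1 / (n : ℝ)) ≤ ρ' := by
      filter_upwards [eventually_ge_atTop (n0 + N + 1 + i)] with n hn
      obtain ⟨m, rfl⟩ := Nat.exists_eq_add_of_le' (show i ≤ n by omega)
      have h5 := h m (by omega)
      have h6 : ∑ j ∈ Finset.range J, μ (m + j) = 0 := by
        refine Finset.sum_eq_zero fun j _ => ?_
        have h7 : (μ (m + j) : ℝ≥0∞) < 1 :=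
          lt_of_lt_of_le (hN (m + j) (by omega)) (pow_le_one' h3 _)
        exact_mod_cast Nat.lt_one_iff.1 (by exact_mod_cast h7)
      rw [h6, mul_zero, Nat.le_zero] at h5
      have h8 : (0 : ℝ) < 1 / ((m + i : ℕ) : ℝ) := by
        have : (0 : ℝ) < ((m + i : ℕ) : ℝ) := by exact_mod_cast (show 0 < m + i by omega)
        positivity
      rw [h5, Nat.cast_zero, ENNReal.zero_rpow_of_pos h8]
      exact bot_le
    exact limsup_le_of_le (by isBoundedDefault) h4
  · push Not at h3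
    by_cases htop : ρ' = ⊤
    · rw [htop]
      exact le_top
    have hρtop : ρ ≠ ⊤ := ne_top_of_lt hρρ'
    set r := ρ.toReal with hr
    set r' := ρ'.toReal with hr'
    have hr1 : 1 < r := by
      rw [hr, ← ENNReal.toReal_one]
      exact (ENNReal.toReal_lt_toReal (by simp) hρtop).2 h3
    have hrr : r < r' := (ENNReal.toReal_lt_toReal hρtop htop).2 hρρ'
    have h4 : ∀ᶠ n : ℕ in atTop, (C : ℝ) * (J * r ^ J) * r ^ n ≤ r' ^ n := by
      have h5 : Tendsto (fun n : ℕ => (r' / r) ^ n) atTop atTop :=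
        tendsto_pow_atTop_atTop_of_one_lt ((one_lt_div (by linarith)).2 hrr)
      filter_upwards [h5.eventually_ge_atTop ((C : ℝ) * (J * r ^ J))] with n hn
      rw [div_pow] at hn
      rwa [le_div_iff₀ (by positivity)] at hn
    have h5 : ∀ᶠ n : ℕ in atTop, ((β n : ℝ≥0∞)) ^ (1 / (n : ℝ)) ≤ ρ' := by
      filter_upwards [h4, eventually_ge_atTop (n0 + N + 1 + i)] with n hn4 hn
      obtain ⟨m, rfl⟩ := Nat.exists_eq_add_of_le' (show i ≤ n by omega)
      have hn' : (0 : ℝ) < ((m + i : ℕ) : ℝ) := by exact_mod_cast (show 0 < m + i by omega)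
      rw [one_div, ENNReal.rpow_inv_le_iff hn', ENNReal.rpow_natCast]
      have h6 := h m (by omega)
      have h7 : (β (m + i) : ℝ) ≤ C * ∑ j ∈ Finset.range J, (μ (m + j) : ℝ) := by
        exact_mod_cast h6
      have h8 : ∀ j ∈ Finset.range J, (μ (m + j) : ℝ) ≤ r ^ J * r ^ (m + i) := by
        intro j hj
        have h9 := (hN (m + j) (by omega)).le
        have h10 : (μ (m + j) : ℝ) ≤ r ^ (m + j) := by
          have := ENNReal.toReal_mono (by simp [hρtop]) h9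
          simpa [hr] using this
        refine h10.trans ?_
        rw [← pow_add]
        exact pow_le_pow_right₀ hr1.le (by have := Finset.mem_range.1 hj; omega)
      have h9 : (β (m + i) : ℝ) ≤ r' ^ (m + i) := by
        refine h7.trans (le_trans ?_ hn4)
        have h10 := Finset.sum_le_sum h8
        rw [Finset.sum_const, Finset.card_range, nsmul_eq_mul] at h10
        calc (C : ℝ) * ∑ j ∈ Finset.range J, (μ (m + j) : ℝ)
            ≤ C * (J * (r ^ J * r ^ (m + i))) := mul_le_mul_of_nonneg_left h10 (by positivity)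
          _ = C * (J * r ^ J) * r ^ (m + i) := by ring
      rw [← ENNReal.ofReal_toReal htop, ← hr', ← ENNReal.ofReal_pow (by linarith),
        ← ENNReal.ofReal_natCast]
      exact ENNReal.ofReal_le_ofReal h9
    exact limsup_le_of_le (by isBoundedDefault) h5

end Pool.Agent.Lib.MP_f0b71a_al
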