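import Pool.Agent.Lib.MP_f0b71a_al.Defs
import Mathlib.Tactic

/-! # Lengths -/

universe u

namespace Pool.Agent.Lib.MP_f0b71a_al

open IsLocalRing

section

variable {R : Type u} [CommRing R] {X U V T : Type u} [AddCommGroup X] [Module R X]
  [AddCommGroup U] [Module R U] [AddCommGroup V] [Module R V] [AddCommGroup T] [Module R T]

theorem length_range_le (p : X →ₗ[R] U) (q : X →ₗ[R] V) (h : ∀ x, q x = 0 → p x = 0) :
    Module.length R (LinearMap.range p) ≤ Module.length R (LinearMap.range q) := by
  have h1 : LinearMap.ker q ≤ LinearMap.ker p := fun x hx => h x hx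
  rw [← (p.quotKerEquivRange).length_eq, ← (q.quotKerEquivRange).length_eq]
  exact Module.length_le_of_surjective (Submodule.factor h1) (Submodule.factor_surjective h1)

theorem length_ker {G W : Type u} [AddCommGroup G] [Module R G] [AddCommGroup W] [Module R W]
    (g : G →ₗ[R] W) (hg : Function.Surjective g) :
    Module.length R G = Module.length R (LinearMap.ker g) + Module.length R W :=
  Module.length_eq_add_of_exact (LinearMap.ker g).subtype g (Submodule.subtype_injective _) hg
    (LinearMap.exact_subtype_ker_map g)

/-- If `Φ` maps the kernel of `Ω` to `S` and is injective modulo the kernel of `A` then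
`length (im A) ≤ length S + length (im Ω)`. -/
theorem length_main (A : X →ₗ[R] U) (Φ : X →ₗ[R] V) (Ω : X →ₗ[R] T) (S : Submodule R V)
    (h1 : ∀ x, Φ x = 0 → A x = 0) (h2 : ∀ x, Ω x = 0 → Φ x ∈ S) :
    Module.length R (LinearMap.range A) ≤
      Module.length R S + Module.length R (LinearMap.range Ω) := by
  have h3 : Module.length R (LinearMap.range A) ≤
      Module.length R (LinearMap.range (Φ.prod Ω)) :=
    length_range_le _ _ fun x hx => h1 x (congrArg Prod.fst hx)
  refine h3.trans ?_
  let g : LinearMap.range (Φ.prod Ω) →ₗ[R] LinearMap.range Ω :=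
    LinearMap.codRestrict _ ((LinearMap.snd R V T) ∘ₗ (LinearMap.range (Φ.prod Ω)).subtype) (by
      rintro ⟨-, x, rfl⟩
      exact ⟨x, rfl⟩)
  have hg : Function.Surjective g := by
    rintro ⟨-, x, rfl⟩
    exact ⟨⟨_, x, rfl⟩, rfl⟩
  rw [length_ker g hg]
  gcongr
  let k : LinearMap.ker g →ₗ[R] S :=
    LinearMap.codRestrict _ ((LinearMap.fst R V T) ∘ₗ (LinearMap.range (Φ.prod Ω)).subtype ∘ₗ
      (LinearMap.ker g).subtype) (by
      rintro ⟨⟨-, x, rfl⟩, hx⟩
      have hx' : Ω x = 0 := congrArg Subtype.val (LinearMap.mem_ker.1 hx)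
      exact h2 x hx')
  refine Module.length_le_of_injective k fun x y hxy => ?_
  obtain ⟨⟨-, x, rfl⟩, hx⟩ := x
  obtain ⟨⟨-, y, rfl⟩, hy⟩ := y
  have hx' : Ω x = 0 := congrArg Subtype.val (LinearMap.mem_ker.1 hx)
  have hy' : Ω y = 0 := congrArg Subtype.val (LinearMap.mem_ker.1 hy)
  have hk' : Φ x = Φ y := congrArg Subtype.val hxy
  ext
  · exact hk'
  · exact hx'.trans hy'.symm

end

section

variable {R : Type u} [CommRing R] [IsLocalRing R]

/-- The reduction modulo `𝔪`. -/
noncomputable def red (m : ℕ) : (Fin m → R) →ₗ[R] (Fin m → ResidueField R) where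
  toFun := fun x i => residue R (x i)
  map_add' := fun x y => by
    funext i
    simp
  map_smul' := fun c x => by
    funext i
    simp [Algebra.smul_def]

theorem red_apply {m : ℕ} (x : Fin m → R) (i : Fin m) : red m x i = residue R (x i) := rfl

theorem red_eq_zero {m : ℕ} (x : Fin m → R) : red m x = 0 ↔ ∀ i, x i ∈ maximalIdeal R := by
  constructor
  · intro h i
    exact (residue_eq_zero_iff _).1 (congrFun h i)
  · intro h
    funext i
    exact (residue_eq_zero_iff _).2 (h i)

theorem red_surjective (m : ℕ) : Function.Surjective (red (R := R) m) := by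
  intro y
  choose x hx using fun i => residue_surjective (y i)
  exact ⟨x, funext hx⟩

theorem length_residue : Module.length R (ResidueField R) = 1 := by
  have : IsSimpleModule R (R ⧸ maximalIdeal R) :=
    isSimpleModule_iff_isCoatom.2 (Ideal.isMaximal_def.1 inferInstance)
  exact Module.length_eq_one R (R ⧸ maximalIdeal R)

theorem length_vec (n : ℕ) : Module.length R (Fin n → ResidueField R) = n := by
  rw [Module.length_pi, length_residue, mul_one]
  simp

/-- A module generated by `n` elements and killed by `𝔪` has length at most `n`. -/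
theorem length_le_of_gen {V : Type u} [AddCommGroup V] [Module R V] {n : ℕ}
    (q : (Fin n → R) →ₗ[R] V) (hq : ∀ x, (∀ i, x i ∈ maximalIdeal R) → q x = 0) :
    Module.length R (LinearMap.range q) ≤ n := by
  refine (length_range_le q (red n) fun x hx => hq x ((red_eq_zero x).1 hx)).trans ?_
  rw [← length_vec (R := R) n]
  exact Module.length_le_of_injective _ (Submodule.subtype_injective _)

/-- The image of a map to a module killed by `𝔪` has length at most the number of generators. -/
theorem length_range_le_mu {T V : Type u} [AddCommGroup T] [Module R T] [AddCommGroup V]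
    [Module R V] [Module.Finite R T] (h : T →ₗ[R] V)
    (hh : ∀ a ∈ maximalIdeal R, ∀ x, a • h x = 0) :
    Module.length R (LinearMap.range h) ≤ mu R T := by
  obtain ⟨s, hs, hs'⟩ := (Module.Finite.fg_top (R := R) (M := T)).exists_span_finset_card_eq_spanFinrank
  let e : Fin s.card → T := fun i => (s.equivFin.symm i : T)
  let q : (Fin s.card → R) →ₗ[R] T := Fintype.linearCombination R e
  have hq : LinearMap.range q = ⊤ := by
    rw [Fintype.range_linearCombination, ← hs']
    congr 1
    ext x
    constructor
    · rintro ⟨i, rfl⟩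
      exact (s.equivFin.symm i).2
    · intro hx
      exact ⟨s.equivFin ⟨x, hx⟩, by simp [e]⟩
  have h1 : LinearMap.range h = LinearMap.range (h ∘ₗ q) := by
    rw [LinearMap.range_comp, hq, Submodule.map_top]
  rw [h1]
  have h2 := length_le_of_gen (h ∘ₗ q) fun x hx => by
    rw [LinearMap.comp_apply, Fintype.linearCombination_apply, map_sum]
    refine Finset.sum_eq_zero fun i _ => ?_
    rw [map_smul]
    exact hh _ (hx i) _
  refine h2.trans ?_
  rw [mu, ← hs]

end

end Pool.Agent.Lib.MP_f0b71a_al
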