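import Pool.Agent.Lib.MP_f0b71a_al.Ops
import Pool.Agent.Lib.MP_f0b71a_al.Len

/-! # Lifts of `𝔪 → M` and `M → k` to the resolutions -/

universe u

namespace Pool.Agent.Lib.MP_f0b71a_al

open IsLocalRing
open scoped Matrix

section

variable {R : Type u} [CommRing R] {M : Type u} [AddCommGroup M] [Module R M] (F : Res R M)

theorem Res.mul_eq_zero (n : ℕ) : F.d n * F.d (n + 1) = 0 := by
  ext i j
  have h1 : F.d n *ᵥ (F.d (n + 1) *ᵥ (Pi.single j 1)) = 0 := by
    rw [F.ex n]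
    exact ⟨_, rfl⟩
  rw [Matrix.mulVec_mulVec] at h1
  have h2 := congrFun h1 i
  simpa using h2

theorem Res.π_d (x : Fin (F.b 1) → R) : F.π (F.d 0 *ᵥ x) = 0 := (F.ex0 _).2 ⟨x, rfl⟩

theorem Res.exact (n : ℕ) (x : Fin (F.b (n + 1)) → R) (h : F.d n *ᵥ x = 0) :
    ∃ y, F.d (n + 1) *ᵥ y = x := by
  obtain ⟨y, hy⟩ := (F.ex n x).1 h
  exact ⟨y, hy.symm⟩

/-- Two linear maps on vectors which agree on unit vectors. -/
theorem ext_single {V : Type u} [AddCommGroup V] [Module R V] {m : ℕ}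
    {p q : (Fin m → R) →ₗ[R] V} (h : ∀ j, p (Pi.single j 1) = q (Pi.single j 1)) : p = q := by
  refine LinearMap.pi_ext' fun j => ?_
  ext
  exact h j

variable [IsLocalRing R] (P : MinRes R)

/-- Lifts of `f : 𝔪 → M`. -/
structure LiftM (f : maximalIdeal R →ₗ[R] M) where
  /-- the matrices -/
  f : ∀ n, Matrix (Fin (F.b n)) (Fin (P.b (n + 1))) R
  comm : ∀ n, F.d n * f (n + 1) = f n * P.d (n + 1)
  res : ∀ x, F.π (f 0 *ᵥ x) = ‹maximalIdeal R →ₗ[R] M› (P.dm 0 x P.i0)

/-- Lifts of `ε : M → k`. -/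
structure LiftE (ε : M →ₗ[R] ResidueField R) where
  /-- the matrices -/
  e : ∀ n, Matrix (Fin (P.b n)) (Fin (F.b n)) R
  comm : ∀ n, P.d n * e (n + 1) = e n * F.d n
  res : ∀ y, residue R ((e 0 *ᵥ y) P.i0) = ε (F.π y)

theorem exists_liftM (f : maximalIdeal R →ₗ[R] M) : Nonempty (LiftM F P f) := by
  choose v hv using fun j : Fin (P.b 1) => F.surj (f (P.dm 0 (Pi.single j 1) P.i0))
  let h0 : Matrix (Fin (F.b 0)) (Fin (P.b 1)) R := Matrix.of fun i j => v j i
  have hh : ∀ x, F.π (h0 *ᵥ x) = f (P.dm 0 x P.i0) := by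
    intro x
    have h1 : F.π ∘ₗ h0.mulVecLin = f ∘ₗ (LinearMap.proj P.i0) ∘ₗ P.dm 0 := by
      refine ext_single fun j => ?_
      simp only [LinearMap.comp_apply, Matrix.mulVecLin_apply, LinearMap.proj_apply]
      rw [← hv j, Matrix.mulVec_single_one]
      rfl
    exact LinearMap.congr_fun h1 x
  obtain ⟨h, h1, h2⟩ := exists_seq (c := F.b) (a := fun n => P.b (n + 1)) (1 : R)
    F.d (fun n => P.d (n + 1)) (fun n x hx => F.exact n x hx) (fun n => P.mul_eq_zero (n + 1))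
    (fun n => 0) (fun n => by simp) h0 (fun j => by
      have h3 : F.π (fun i => (h0 * P.d 1) i j) = 0 := by
        rw [← mulVec_col, hh]
        have h4 : P.dm 0 (fun i => P.d 1 i j) P.i0 = 0 := by
          ext
          rw [P.dm_coe, mulVec_col, P.mul_eq_zero]
          rfl
        rw [h4, map_zero]
      obtain ⟨y, hy⟩ := (F.ex0 _).1 h3
      refine ⟨y, hy.symm.trans ?_⟩
      simp)
  refine ⟨⟨h, fun n => ?_, fun x => ?_⟩⟩
  · rw [h2 n]
    simp
  · rw [h1]
    exact hh x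

theorem exists_liftE (ε : M →ₗ[R] ResidueField R) : Nonempty (LiftE F P ε) := by
  choose v hv using fun j : Fin (F.b 0) => residue_surjective (ε (F.π (Pi.single j 1)))
  let h0 : Matrix (Fin (P.b 0)) (Fin (F.b 0)) R := Matrix.of fun _ j => v j
  have hh : ∀ x (i : Fin (P.b 0)), residue R ((h0 *ᵥ x) i) = ε (F.π x) := by
    intro x i
    have h1 : (LinearMap.proj i) ∘ₗ red (P.b 0) ∘ₗ h0.mulVecLin = ε ∘ₗ F.π := by
      refine ext_single fun j => ?_
      simp only [LinearMap.comp_apply, Matrix.mulVecLin_apply, LinearMap.proj_apply]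
      rw [← hv j, Matrix.mulVec_single_one]
      rfl
    exact LinearMap.congr_fun h1 x
  obtain ⟨h, h1, h2⟩ := exists_seq (c := P.b) (a := F.b) (1 : R)
    P.d F.d (fun n x hx => P.exact n x hx) F.mul_eq_zero
    (fun n => 0) (fun n => by simp) h0 (fun j => by
      obtain ⟨y, hy⟩ := (P.ex0 (fun i => (h0 * F.d 0) i j)).1 fun i => by
        have h3 := hh (fun i => F.d 0 i j) i
        have h4 : F.π (fun i => F.d 0 i j) = 0 := by
          have h5 := F.π_d (Pi.single j 1)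
          rwa [Matrix.mulVec_single_one] at h5
        rw [h4, map_zero] at h3
        rw [← residue_eq_zero_iff]
        have h6 := congrFun (mulVec_col (D := h0) (A := F.d 0) j) i
        exact (congrArg (residue R) h6.symm).trans h3
      refine ⟨y, hy.symm.trans ?_⟩
      simp)
  refine ⟨⟨h, fun n => ?_, fun x => ?_⟩⟩
  · rw [h2 n]
    simp
  · rw [h1]
    exact hh x P.i0

variable {F P}

/-- The composition of the lifts. -/
def mkDeg {f : maximalIdeal R →ₗ[R] M} {ε : M →ₗ[R] ResidueField R} (Lf : LiftM F P f)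
    (Le : LiftE F P ε) : Deg P (ε ∘ₗ f) where
  φ := fun n => Le.e n * Lf.f n
  comm := fun n => by
    rw [← Matrix.mul_assoc, Le.comm, Matrix.mul_assoc, Lf.comm, Matrix.mul_assoc]
  res := fun x => by
    rw [← Matrix.mulVec_mulVec, Le.res, Lf.res]
    rfl

end

end Pool.Agent.Lib.MP_f0b71a_al
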