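import Pool.Agent.Lib.MP_f0b71a_al.Burch
import Pool.Agent.Lib.MP_f0b71a_al.Dim
import Pool.Agent.Lib.MP_f0b71a_al.Ann
import Pool.Agent.Lib.MP_f0b71a_al.Gr

/-! # Main theorems -/

universe u

namespace Pool.Agent.Lib.MP_f0b71a_al

open IsLocalRing

section

variable {R : Type u} [CommRing R] [IsLocalRing R] [IsNoetherianRing R]
  {M : Type u} [AddCommGroup M] [Module R M] {N : Type u} [AddCommGroup N] [Module R N]
  [Module.Finite R N]

/-- The general inequality for `Tor`. -/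
theorem tor_general (hM : IsBurch R M) (hN : IsBurch R N) (P : MinRes R) (F : Res R M) (n : ℕ) :
    (P.b (n + 2) : ℕ∞) ≤ (mu R (TorR F N (n + 1)) + Module.length R (socle R (TorR F N n))) +
      (mu R (TorR F N (n + 2)) + Module.length R (socle R (TorR F N (n + 1)))) := by
  obtain ⟨f, ε, g, δ, a, h1, h2⟩ := exists_pair hM hN
  obtain ⟨Lf⟩ := exists_liftM F P f
  obtain ⟨Le⟩ := exists_liftE F P ε
  obtain ⟨H⟩ := exists_hom P a.2
  refine (H.betti_le (mkDeg Lf Le) a.2 h1 (n + 1)).trans (add_le_add ?_ ?_)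
  · exact tor_socle Lf Le a.2 H h1 h2 n
  · exact tor_socle Lf Le a.2 H h1 h2 (n + 1)

/-- The general inequality for `Ext`. -/
theorem ext_general (hM : IsBurch R M) (hN : IsBurch R N) (P : MinRes R) (F : Res R M) (n : ℕ) :
    (P.b (n + 1) : ℕ∞) ≤ (mu R (ExtR F N (n + 1)) +
      Module.length R (socle R (ExtR F N (n + 2)))) +
      (mu R (ExtR F N n) + Module.length R (socle R (ExtR F N (n + 1)))) := by
  obtain ⟨f, ε, g, δ, a, h1, h2⟩ := exists_pair hM hN
  obtain ⟨Lf⟩ := exists_liftM F P f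
  obtain ⟨Le⟩ := exists_liftE F P ε
  obtain ⟨H⟩ := exists_hom P a.2
  refine (H.betti_let (mkDeg Lf Le) a.2 h1 n).trans (add_le_add ?_ ?_)
  · exact ext_socle Lf Le a.2 H h1 h2 (n + 1)
  · exact ext_socle Lf Le a.2 H h1 h2 n

/-- Independent directions, `Tor`. -/
theorem tor_independent {χ ψ : maximalIdeal R →ₗ[R] ResidueField R} (hχ : χ ∈ Directions R M)
    (hψ : ψ ∈ Directions R N) (hi : LinearIndependent (ResidueField R) ![χ, ψ])
    (P : MinRes R) (F : Res R M) (n : ℕ) :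
    P.b (n + 2) ≤ mu R (TorR F N (n + 2)) + 2 * mu R (TorR F N (n + 1)) + mu R (TorR F N n) := by
  obtain ⟨f, ε, g, δ, a, b, h1, h2, h3⟩ := exists_indep hχ hψ hi
  obtain ⟨Lf⟩ := exists_liftM F P f
  obtain ⟨Le⟩ := exists_liftE F P ε
  obtain ⟨Ha⟩ := exists_hom P a.2
  obtain ⟨Hb⟩ := exists_hom P b.2
  have h4 := (mkDeg Lf Le).betti_le (ψ := δ ∘ₗ g) a.2 b.2 Ha Hb h1 h2 h3 n
  have h5 : (P.b (n + 2) : ℕ∞) ≤ ((mu R (TorR F N (n + 2)) + 2 * mu R (TorR F N (n + 1)) +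
      mu R (TorR F N n) : ℕ) : ℕ∞) := by
    push_cast
    refine h4.trans (add_le_add (add_le_add (tor_indep Lf Le _) ?_) (tor_indep Lf Le _))
    exact mul_le_mul_right (tor_indep Lf Le _) _
  exact_mod_cast h5

/-- Independent directions, `Ext`. -/
theorem ext_independent {χ ψ : maximalIdeal R →ₗ[R] ResidueField R} (hχ : χ ∈ Directions R M)
    (hψ : ψ ∈ Directions R N) (hi : LinearIndependent (ResidueField R) ![χ, ψ])
    (P : MinRes R) (F : Res R M) (n : ℕ) :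
    P.b (n + 2) ≤ mu R (ExtR F N (n + 3)) + 2 * mu R (ExtR F N (n + 2)) +
      mu R (ExtR F N (n + 1)) := by
  obtain ⟨f, ε, g, δ, a, b, h1, h2, h3⟩ := exists_indep hχ hψ hi
  obtain ⟨Lf⟩ := exists_liftM F P f
  obtain ⟨Le⟩ := exists_liftE F P ε
  obtain ⟨Ha⟩ := exists_hom P a.2
  obtain ⟨Hb⟩ := exists_hom P b.2
  have h4 := (mkDeg Lf Le).betti_let (ψ := δ ∘ₗ g) a.2 b.2 Ha Hb h1 h2 h3 n
  have h5 : (P.b (n + 2) : ℕ∞) ≤ ((mu R (ExtR F N (n + 3)) + 2 * mu R (ExtR F N (n + 2)) +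
      mu R (ExtR F N (n + 1)) : ℕ) : ℕ∞) := by
    push_cast
    refine h4.trans (add_le_add (add_le_add (ext_indep Lf Le _) ?_) (ext_indep Lf Le _))
    exact mul_le_mul_right (ext_indep Lf Le _) _
  exact_mod_cast h5

/-- Multiplication by `s` is zero on `T`. -/
def KZ (T : Type u) [AddCommGroup T] [Module R T] (s : R) : Prop := ∀ x : T, s • x = 0

theorem kz_tor {F : Res R M} {k : ℕ} {s : R} (h : ∀ x : TorR F N k, s • x = 0) :
    KZ (TorR F N k) s := fun x => h x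

theorem kz_ext {F : Res R M} {k : ℕ} {s : R} (h : ∀ x : ExtR F N k, s • x = 0) :
    KZ (ExtR F N k) s := fun x => h x

/-- A sequence of modules killed by an ideal with one-dimensional quotient: the socles are bounded by
the numbers of generators. -/
theorem exists_socle_bound (T : ℕ → Type u) [∀ n, AddCommGroup (T n)] [∀ n, Module R (T n)]
    [∀ n, Module.Finite R (T n)]
    (h : ∀ (p : Ideal R), p.IsPrime → 2 ≤ ringKrullDim (R ⧸ p) →
      ∃ s, s ∉ p ∧ ∃ n0 : ℕ, ∀ k ≥ n0, KZ (T k) s) :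
    ∃ c n0 : ℕ, ∀ k ≥ n0, Module.length R (socle R (T k)) ≤ ((c * mu R (T k) : ℕ) : ℕ∞) := by
  let J : Ideal R :=
    { carrier := {s | ∃ n0 : ℕ, ∀ k ≥ n0, ∀ x : T k, s • x = 0}
      add_mem' := by
        rintro s t ⟨n, hn⟩ ⟨m, hm⟩
        exact ⟨n + m, fun k hk x => by
          rw [add_smul, hn k (by omega), hm k (by omega), add_zero]⟩
      zero_mem' := ⟨0, fun k _ x => zero_smul _ _⟩
      smul_mem' := by
        rintro c s ⟨n, hn⟩
        exact ⟨n, fun k hk x => by rw [smul_eq_mul, mul_smul, hn k hk, smul_zero]⟩ }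
  obtain ⟨n0, hn0⟩ : ∃ n0 : ℕ, ∀ s ∈ J, ∀ k ≥ n0, ∀ x : T k, s • x = 0 := by
    obtain ⟨S, hS⟩ := (IsNoetherian.noetherian J : J.FG)
    have hmem : ∀ s : S, ∃ n0 : ℕ, ∀ k ≥ n0, ∀ x : T k, (s : R) • x = 0 := fun s => by
      have : (s : R) ∈ J := hS ▸ Submodule.subset_span s.2
      exact this
    choose f hf using hmem
    refine ⟨∑ s, f s, fun s hs k hk x => ?_⟩
    have h1 : J ≤ LinearMap.ker (LinearMap.toSpanSingleton R (T k) x) := by
      rw [← hS]
      refine Submodule.span_le.2 fun s hs => ?_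
      exact hf ⟨s, hs⟩ k
        ((Finset.single_le_sum (fun _ _ => Nat.zero_le _) (Finset.mem_univ (⟨s, hs⟩ : S))).trans hk) x
    exact h1 hs
  obtain ⟨a, ha, hfin⟩ := exists_param J fun p hp hJp h2 => by
    obtain ⟨s, hs, n, hn⟩ := h p hp h2
    exact hs (hJp ⟨n, hn⟩)
  obtain ⟨c, hc⟩ := ENat.ne_top_iff_exists.1 hfin
  refine ⟨c, n0, fun k hk => ?_⟩
  have h1 := socle_le (T := T k) (J := J) (fun s hs x => hn0 s hs k hk x) ha hfin
  rw [← hc] at h1
  refine h1.trans (le_of_eq ?_)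
  push_cast
  exact mul_comm _ _

theorem nat_aux {b x y z c : ℕ} (h : b ≤ (y + c * x) + (z + c * y)) :
    b ≤ (c + 1) * (x + y + z) := by
  nlinarith [Nat.zero_le (c * z), Nat.zero_le x]

theorem nat_aux' {b x y z c : ℕ} (h : b ≤ (y + c * z) + (x + c * y)) :
    b ≤ (c + 1) * (x + y + z) := by
  nlinarith [Nat.zero_le (c * x), Nat.zero_le z]

theorem sum3 (m : ℕ → ℕ) (n : ℕ) :
    ∑ j ∈ Finset.range 3, m (n + j) = m n + m (n + 1) + m (n + 2) := by
  simp [Finset.sum_range_succ]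

theorem sum4 (m : ℕ → ℕ) (n : ℕ) :
    ∑ j ∈ Finset.range 4, m (n + j) = m n + m (n + 1) + m (n + 2) + m (n + 3) := by
  simp [Finset.sum_range_succ]

theorem tor_dom (hM : IsBurch R M) (hN : IsBurch R N) (P : MinRes R) (F : Res R M)
    (h : ∀ (p : Ideal R) [p.IsPrime], 2 ≤ ringKrullDim (R ⧸ p) →
      ∃ s, s ∉ p ∧ KillT F N s) : Dom P.b fun n => mu R (TorR F N n) := by
  obtain ⟨c, n0, hc⟩ := exists_socle_bound (fun n => TorR F N n) fun p hp h2 => by
    have := hp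
    obtain ⟨s, hs, n0, hk⟩ := h p h2
    exact ⟨s, hs, n0, fun k h3 => kz_tor (hk k h3)⟩
  refine ⟨c + 1, 2, 3, n0, fun n hn => ?_⟩
  have h1 := tor_general hM hN P F n
  have h2 : (P.b (n + 2) : ℕ∞) ≤ (((mu R (TorR F N (n + 1)) + c * mu R (TorR F N n)) +
      (mu R (TorR F N (n + 2)) + c * mu R (TorR F N (n + 1))) : ℕ) : ℕ∞) := by
    push_cast
    refine h1.trans (add_le_add (add_le_add le_rfl ?_) (add_le_add le_rfl ?_))
    · exact (hc n hn).trans (by push_cast; exact le_rfl)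
    · exact (hc (n + 1) (by omega)).trans (by push_cast; exact le_rfl)
  have h3 : P.b (n + 2) ≤ (mu R (TorR F N (n + 1)) + c * mu R (TorR F N n)) +
      (mu R (TorR F N (n + 2)) + c * mu R (TorR F N (n + 1))) := by exact_mod_cast h2
  rw [sum3 (fun n => mu R (TorR F N n))]
  exact nat_aux h3

theorem ext_dom (hM : IsBurch R M) (hN : IsBurch R N) (P : MinRes R) (F : Res R M)
    (h : ∀ (p : Ideal R) [p.IsPrime], 2 ≤ ringKrullDim (R ⧸ p) →
      ∃ s, s ∉ p ∧ KillE F N s) : Dom P.b fun n => mu R (ExtR F N n) := by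
  obtain ⟨c, n0, hc⟩ := exists_socle_bound (fun n => ExtR F N n) fun p hp h2 => by
    have := hp
    obtain ⟨s, hs, n0, hk⟩ := h p h2
    exact ⟨s, hs, n0, fun k h3 => kz_ext (hk k h3)⟩
  refine ⟨c + 1, 1, 3, n0, fun n hn => ?_⟩
  have h1 := ext_general hM hN P F n
  have h2 : (P.b (n + 1) : ℕ∞) ≤ (((mu R (ExtR F N (n + 1)) + c * mu R (ExtR F N (n + 2))) +
      (mu R (ExtR F N n) + c * mu R (ExtR F N (n + 1))) : ℕ) : ℕ∞) := by
    push_cast
    refine h1.trans (add_le_add (add_le_add le_rfl ?_) (add_le_add le_rfl ?_))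
    · exact (hc (n + 2) (by omega)).trans (by push_cast; exact le_rfl)
    · exact (hc (n + 1) (by omega)).trans (by push_cast; exact le_rfl)
  have h3 : P.b (n + 1) ≤ (mu R (ExtR F N (n + 1)) + c * mu R (ExtR F N (n + 2))) +
      (mu R (ExtR F N n) + c * mu R (ExtR F N (n + 1))) := by exact_mod_cast h2
  rw [sum3 (fun n => mu R (ExtR F N n))]
  exact nat_aux' h3

theorem tor_indep_dom {χ ψ : maximalIdeal R →ₗ[R] ResidueField R} (hχ : χ ∈ Directions R M)
    (hψ : ψ ∈ Directions R N) (hi : LinearIndependent (ResidueField R) ![χ, ψ])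
    (P : MinRes R) (F : Res R M) : Dom P.b fun n => mu R (TorR F N n) := by
  refine ⟨2, 2, 3, 0, fun n _ => ?_⟩
  have h1 := tor_independent hχ hψ hi P F n
  rw [sum3 (fun n => mu R (TorR F N n))]
  refine h1.trans ?_
  generalize mu R (TorR F N (n + 2)) = x
  generalize mu R (TorR F N (n + 1)) = y
  generalize mu R (TorR F N n) = z
  omega

theorem ext_indep_dom {χ ψ : maximalIdeal R →ₗ[R] ResidueField R} (hχ : χ ∈ Directions R M)
    (hψ : ψ ∈ Directions R N) (hi : LinearIndependent (ResidueField R) ![χ, ψ])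
    (P : MinRes R) (F : Res R M) : Dom P.b fun n => mu R (ExtR F N n) := by
  refine ⟨2, 2, 4, 0, fun n _ => ?_⟩
  have h1 := ext_independent hχ hψ hi P F n
  rw [sum4 (fun n => mu R (ExtR F N n))]
  refine h1.trans ?_
  generalize mu R (ExtR F N (n + 3)) = w
  generalize mu R (ExtR F N (n + 2)) = x
  generalize mu R (ExtR F N (n + 1)) = y
  generalize mu R (ExtR F N n) = z
  omega

end

end Pool.Agent.Lib.MP_f0b71a_al
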