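import Pool.Agent.Lib.MP_f0b71a_al.Lift

/-! # The operators modulo `𝔪` -/

universe u

namespace Pool.Agent.Lib.MP_f0b71a_al

open IsLocalRing
open scoped Matrix

section

variable {R : Type u} [CommRing R] [IsLocalRing R]

theorem red_mulVec {m n : ℕ} (A : Matrix (Fin m) (Fin n) R) (x : Fin n → R) :
    red m (A *ᵥ x) = act (ResidueField R) A (red n x) := by
  funext i
  simp [red_apply, act_apply, Matrix.mulVec, dotProduct, Algebra.smul_def]

theorem smul_residue_eq_zero {a : R} (ha : a ∈ maximalIdeal R) (x : ResidueField R) :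
    a • x = 0 := by
  rw [Algebra.smul_def]
  have h : algebraMap R (ResidueField R) a = 0 := (residue_eq_zero_iff a).2 ha
  rw [h, zero_mul]

theorem act_mem_zero {m n : ℕ} {A : Matrix (Fin m) (Fin n) R}
    (hA : ∀ i j, A i j ∈ maximalIdeal R) (y : Fin n → ResidueField R) :
    act (ResidueField R) A y = 0 := by
  funext i
  rw [act_apply]
  exact Finset.sum_eq_zero fun j _ => smul_residue_eq_zero (hA i j) _

theorem act_congr {m n : ℕ} {A B : Matrix (Fin m) (Fin n) R}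
    (h : ∀ i j, (A - B) i j ∈ maximalIdeal R) (y : Fin n → ResidueField R) :
    act (ResidueField R) A y = act (ResidueField R) B y := by
  have h1 := act_mem_zero h y
  rw [act_sub] at h1
  exact sub_eq_zero.1 h1

variable {P : MinRes R}

theorem Hom.sq {a : R} (H : Hom P a) (n : ℕ) (y : Fin (P.b n) → ResidueField R) :
    act (ResidueField R) (H.σ (n + 1)) (act (ResidueField R) (H.σ n) y) = 0 := by
  rw [← act_mul]
  exact act_mem_zero (H.sq_mem n) y

theorem Deg.act_s {χ : maximalIdeal R →ₗ[R] ResidueField R} (Φ : Deg P χ) {a : R}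
    (ha : a ∈ maximalIdeal R) (H : Hom P a) {c : R} (hc : residue R c = χ ⟨a, ha⟩) (n : ℕ)
    (y : Fin (P.b n) → ResidueField R) :
    act (ResidueField R) (Φ.s H n) y = (-1 : R) ^ n • c • y := by
  have h1 := act_mem_zero (Φ.s_mem ha H hc n) y
  rw [act_sub, act_smul, act_smul, act_one] at h1
  have h2 : (-1 : R) ^ n • act (ResidueField R) (Φ.s H n) y = c • y := sub_eq_zero.1 h1
  rw [← h2, smul_smul, ← mul_pow]
  simp

theorem Deg.rel {χ : maximalIdeal R →ₗ[R] ResidueField R} (Φ : Deg P χ) {a : R}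
    (ha : a ∈ maximalIdeal R) (H : Hom P a) {c : R} (hc : residue R c = χ ⟨a, ha⟩) (n : ℕ)
    (y : Fin (P.b (n + 1)) → ResidueField R) :
    act (ResidueField R) (Φ.φ (n + 1)) (act (ResidueField R) (H.σ (n + 1)) y) -
      act (ResidueField R) (H.σ n) (act (ResidueField R) (Φ.φ n) y) =
        (-1 : R) ^ (n + 1) • c • y := by
  have h1 := Φ.act_s ha H hc (n + 1) y
  rw [Deg.s, act_sub, act_mul, act_mul] at h1
  exact h1

/-- `(1 ⊗ ψ) d`. -/
noncomputable def MinRes.D (P : MinRes R) (ψ : maximalIdeal R →ₗ[R] ResidueField R) (n : ℕ) :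
    (Fin (P.b (n + 1)) → R) →ₗ[R] (Fin (P.b n) → ResidueField R) where
  toFun := fun x i => ψ (P.dm n x i)
  map_add' := fun x y => by
    funext i
    simp
  map_smul' := fun c x => by
    funext i
    simp

theorem MinRes.D_apply (ψ : maximalIdeal R →ₗ[R] ResidueField R) (n : ℕ)
    (x : Fin (P.b (n + 1)) → R) (i : Fin (P.b n)) : P.D ψ n x i = ψ (P.dm n x i) := rfl

theorem mem_sum_smul {V : Type u} [AddCommGroup V] [Module R V] {m : ℕ}
    (q : (Fin m → R) →ₗ[R] V) (hV : ∀ a ∈ maximalIdeal R, ∀ v : V, a • v = 0) (x : Fin m → R)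
    (hx : ∀ i, x i ∈ maximalIdeal R) : q x = 0 := by
  have h1 : x = ∑ i, x i • (Pi.single i (1 : R) : Fin m → R) := by
    funext j
    simp [Finset.sum_apply, Pi.single_apply]
  rw [h1, map_sum]
  refine Finset.sum_eq_zero fun i _ => ?_
  rw [map_smul]
  exact hV _ (hx i) _

theorem smul_vec_eq_zero {m : ℕ} {a : R} (ha : a ∈ maximalIdeal R)
    (v : Fin m → ResidueField R) : a • v = 0 := by
  funext i
  exact smul_residue_eq_zero ha _

theorem MinRes.D_eq_zero (ψ : maximalIdeal R →ₗ[R] ResidueField R) (n : ℕ)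
    (x : Fin (P.b (n + 1)) → R) (hx : ∀ i, x i ∈ maximalIdeal R) : P.D ψ n x = 0 :=
  mem_sum_smul _ (fun _ ha v => smul_vec_eq_zero ha v) x hx

theorem MinRes.D_congr (ψ : maximalIdeal R →ₗ[R] ResidueField R) (n : ℕ)
    {x y : Fin (P.b (n + 1)) → R} (h : red _ x = red _ y) : P.D ψ n x = P.D ψ n y := by
  have h1 : red _ (x - y) = 0 := by rw [map_sub, h, sub_self]
  have h2 := P.D_eq_zero ψ n (x - y) ((red_eq_zero _).1 h1)
  rw [map_sub] at h2
  exact sub_eq_zero.1 h2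

theorem MinRes.dm_mul {m n p : ℕ} {A : Matrix (Fin (P.b (n + 1))) (Fin p) R}
    {B : Matrix (Fin (P.b n)) (Fin (P.b m)) R} {C : Matrix (Fin (P.b (m + 1))) (Fin p) R}
    (h : P.d n * A = B * P.d m * C) (x : Fin p → R) :
    P.dm n (A *ᵥ x) = act (maximalIdeal R) B (P.dm m (C *ᵥ x)) := by
  funext i
  ext
  rw [P.dm_coe, act_coe, Matrix.mulVec_mulVec, h]
  have h1 : (fun j => ((P.dm m (C *ᵥ x) j : maximalIdeal R) : R)) = P.d m *ᵥ (C *ᵥ x) := rfl
  rw [h1, Matrix.mulVec_mulVec, Matrix.mulVec_mulVec, Matrix.mul_assoc]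

theorem Deg.dm_φ {χ : maximalIdeal R →ₗ[R] ResidueField R} (Φ : Deg P χ) (n : ℕ)
    (x : Fin (P.b (n + 2)) → R) :
    P.dm n (Φ.φ (n + 1) *ᵥ x) = act (maximalIdeal R) (Φ.φ n) (P.dm (n + 1) x) := by
  funext i
  ext
  rw [P.dm_coe, act_coe, Matrix.mulVec_mulVec, Φ.comm]
  have h1 : (fun j => ((P.dm (n + 1) x j : maximalIdeal R) : R)) = P.d (n + 1) *ᵥ x := rfl
  rw [h1, Matrix.mulVec_mulVec]

theorem Deg.D_φ {χ ψ : maximalIdeal R →ₗ[R] ResidueField R} (Φ : Deg P χ) (n : ℕ)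
    (x : Fin (P.b (n + 2)) → R) :
    P.D ψ n (Φ.φ (n + 1) *ᵥ x) = act (ResidueField R) (Φ.φ n) (P.D ψ (n + 1) x) := by
  have h1 := act_map ψ (Φ.φ n) (P.dm (n + 1) x)
  rw [← Φ.dm_φ] at h1
  exact h1

theorem Hom.dm_σ0 {a : R} (ha : a ∈ maximalIdeal R) (H : Hom P a) (x : Fin (P.b 0) → R)
    (i : Fin (P.b 0)) : P.dm 0 (H.σ 0 *ᵥ x) i = x i • (⟨a, ha⟩ : maximalIdeal R) := by
  ext
  rw [P.dm_coe, Matrix.mulVec_mulVec, H.s0]
  simp [Matrix.smul_mulVec, mul_comm]

theorem Hom.dm_σ {a : R} (ha : a ∈ maximalIdeal R) (H : Hom P a) (n : ℕ)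
    (x : Fin (P.b (n + 1)) → R) (i : Fin (P.b (n + 1))) :
    P.dm (n + 1) (H.σ (n + 1) *ᵥ x) i =
      x i • (⟨a, ha⟩ : maximalIdeal R) - act (maximalIdeal R) (H.σ n) (P.dm n x) i := by
  ext
  rw [P.dm_coe, Matrix.mulVec_mulVec, H.sS]
  have h1 : (fun j => ((P.dm n x j : maximalIdeal R) : R)) = P.d n *ᵥ x := rfl
  have h2 := act_coe (I := maximalIdeal R) (H.σ n) (P.dm n x) i
  rw [h1, Matrix.mulVec_mulVec] at h2
  simp only [Matrix.sub_mulVec, Matrix.smul_mulVec, Matrix.one_mulVec, Pi.sub_apply,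
    Pi.smul_apply, smul_eq_mul, AddSubgroupClass.coe_sub, SetLike.val_smul]
  rw [h2, mul_comm]

theorem smul_residue_comm (x c : R) : x • residue R c = c • residue R x := by
  simp only [Algebra.smul_def]
  change residue R x * residue R c = residue R c * residue R x
  exact mul_comm _ _

theorem Hom.D_σ0 {ψ : maximalIdeal R →ₗ[R] ResidueField R} {a : R} (ha : a ∈ maximalIdeal R)
    (H : Hom P a) {c : R} (hc : residue R c = ψ ⟨a, ha⟩) (x : Fin (P.b 0) → R) :
    P.D ψ 0 (H.σ 0 *ᵥ x) = c • red _ x := by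
  funext i
  rw [P.D_apply, H.dm_σ0 ha, map_smul, ← hc]
  exact smul_residue_comm _ _

theorem Hom.D_σ {ψ : maximalIdeal R →ₗ[R] ResidueField R} {a : R} (ha : a ∈ maximalIdeal R)
    (H : Hom P a) {c : R} (hc : residue R c = ψ ⟨a, ha⟩) (n : ℕ) (x : Fin (P.b (n + 1)) → R) :
    P.D ψ (n + 1) (H.σ (n + 1) *ᵥ x) = c • red _ x - act (ResidueField R) (H.σ n) (P.D ψ n x) := by
  funext i
  rw [P.D_apply, H.dm_σ ha, map_sub, map_smul, ← hc]
  have h1 := congrFun (act_map ψ (H.σ n) (P.dm n x)) i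
  rw [Pi.sub_apply]
  congr 1
  exact smul_residue_comm _ _

end

end Pool.Agent.Lib.MP_f0b71a_al
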