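import Pool.Agent.Lib.MP_f0b71a_al.Basic

/-! # Operators on the minimal resolution: homotopies and chain maps of degree `-1` -/

universe u

namespace Pool.Agent.Lib.MP_f0b71a_al

open IsLocalRing
open scoped Matrix

section

variable {R : Type u} [CommRing R] [IsLocalRing R] (P : MinRes R)

/-- The unique index of `P_0 = R`. -/
def MinRes.i0 : Fin (P.b 0) := ⟨0, by rw [P.b0]; exact one_pos⟩

theorem MinRes.eq_i0 (i : Fin (P.b 0)) : i = P.i0 := by
  have h1 := i.2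
  have h2 := P.b0
  ext
  simp only [MinRes.i0]
  omega

/-- The differential with values in `𝔪 P_n`. -/
def MinRes.dm (n : ℕ) : (Fin (P.b (n + 1)) → R) →ₗ[R] (Fin (P.b n) → maximalIdeal R) where
  toFun := fun x i => ⟨(P.d n *ᵥ x) i, by
    simp only [Matrix.mulVec, dotProduct]
    exact Ideal.sum_mem _ fun j _ => Ideal.mul_mem_right _ _ (P.mem n i j)⟩
  map_add' := fun x y => by
    funext i
    ext
    simp [Matrix.mulVec_add]
  map_smul' := fun c x => by
    funext i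
    ext
    simp [Matrix.mulVec_smul]

theorem MinRes.dm_coe (n : ℕ) (x : Fin (P.b (n + 1)) → R) (i : Fin (P.b n)) :
    ((P.dm n x i : maximalIdeal R) : R) = (P.d n *ᵥ x) i := rfl

theorem act_coe {m n : ℕ} {I : Ideal R} (A : Matrix (Fin m) (Fin n) R) (w : Fin n → I)
    (i : Fin m) : ((act I A w i : I) : R) = (A *ᵥ fun j => (w j : R)) i := by
  simp [act_apply, Matrix.mulVec, dotProduct]

theorem MinRes.act_dm (n : ℕ) (x : Fin (P.b (n + 2)) → R) :
    act (maximalIdeal R) (P.d n) (P.dm (n + 1) x) = 0 := by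
  funext i
  ext
  rw [act_coe]
  have h : (fun j => ((P.dm (n + 1) x j : maximalIdeal R) : R)) = P.d (n + 1) *ᵥ x := rfl
  rw [h, Matrix.mulVec_mulVec, P.mul_eq_zero, Matrix.zero_mulVec]
  rfl

/-- A homotopy for the multiplication by `a`. -/
structure Hom (a : R) where
  /-- the matrices -/
  σ : ∀ n, Matrix (Fin (P.b (n + 1))) (Fin (P.b n)) R
  s0 : P.d 0 * σ 0 = a • 1
  sS : ∀ n, P.d (n + 1) * σ (n + 1) = a • 1 - σ n * P.d n

theorem exists_hom {a : R} (ha : a ∈ maximalIdeal R) : Nonempty (Hom P a) := by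
  obtain ⟨h0, hh0⟩ := exists_mul_eq (D := P.d 0) (A := (a • (1 : Matrix (Fin (P.b 0)) (Fin (P.b 0)) R)))
    fun j => by
      obtain ⟨y, hy⟩ := (P.ex0 (fun i => (a • (1 : Matrix (Fin (P.b 0)) (Fin (P.b 0)) R)) i j)).1
        fun i => by
          rw [Matrix.smul_apply, smul_eq_mul]
          exact Ideal.mul_mem_right _ _ ha
      exact ⟨y, hy.symm⟩
  obtain ⟨h, h1, h2⟩ := exists_seq (c := fun n => P.b (n + 1)) (a := P.b) (-1 : R)
    (fun n => P.d (n + 1)) P.d (fun n x hx => P.exact (n + 1) x hx) P.mul_eq_zero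
    (fun n => a • (1 : Matrix (Fin (P.b (n + 1))) (Fin (P.b (n + 1))) R))
    (fun n => by
      rw [Matrix.mul_smul, Matrix.mul_one, Matrix.smul_mul, Matrix.one_mul, neg_one_smul,
        add_neg_cancel]) h0 (fun j => by
      apply P.exact 0
      rw [mulVec_col]
      have h3 : P.d 0 * (a • (1 : Matrix (Fin (P.b 1)) (Fin (P.b 1)) R) + (-1 : R) • (h0 * P.d 0)) =
          0 := by
        rw [Matrix.mul_add, Matrix.mul_smul, Matrix.mul_smul, Matrix.mul_one, ← Matrix.mul_assoc,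
          hh0, Matrix.smul_mul, Matrix.one_mul, neg_one_smul, add_neg_cancel]
      funext i
      rw [h3]
      rfl)
  refine ⟨⟨h, by rw [h1]; exact hh0, fun n => ?_⟩⟩
  rw [h2 n, neg_one_smul, sub_eq_add_neg]

variable {P}

theorem Hom.sq_mem {a : R} (H : Hom P a) (n : ℕ) (i : Fin (P.b (n + 2))) (j : Fin (P.b n)) :
    (H.σ (n + 1) * H.σ n) i j ∈ maximalIdeal R := by
  refine P.null2 (fun n => H.σ (n + 1) * H.σ n) (fun n => ?_) ?_ n i j
  · rw [← Matrix.mul_assoc, H.sS, Matrix.sub_mul, Matrix.smul_mul, Matrix.one_mul, Matrix.mul_assoc,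
      H.sS, Matrix.mul_sub, Matrix.mul_smul, Matrix.mul_one, sub_sub_cancel, Matrix.mul_assoc]
  · rw [← Matrix.mul_assoc, H.sS, Matrix.sub_mul, Matrix.smul_mul, Matrix.one_mul, Matrix.mul_assoc,
      H.s0, Matrix.mul_smul, Matrix.mul_one, sub_self]

/-- A chain map `P_(n+1) → P_n` over the homomorphism `χ : 𝔪 → k`. -/
structure Deg (P : MinRes R) (χ : maximalIdeal R →ₗ[R] ResidueField R) where
  /-- the matrices -/
  φ : ∀ n, Matrix (Fin (P.b n)) (Fin (P.b (n + 1))) R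
  comm : ∀ n, P.d n * φ (n + 1) = φ n * P.d (n + 1)
  res : ∀ x, residue R ((φ 0 *ᵥ x) P.i0) = χ (P.dm 0 x P.i0)

/-- The commutator of a chain map over `χ` and a homotopy for `a`. -/
def Deg.s {χ : maximalIdeal R →ₗ[R] ResidueField R} (Φ : Deg P χ) {a : R} (H : Hom P a) :
    ∀ n, Matrix (Fin (P.b n)) (Fin (P.b n)) R
  | 0 => Φ.φ 0 * H.σ 0
  | n + 1 => Φ.φ (n + 1) * H.σ (n + 1) - H.σ n * Φ.φ n

theorem Deg.d_s {χ : maximalIdeal R →ₗ[R] ResidueField R} (Φ : Deg P χ) {a : R} (H : Hom P a)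
    (n : ℕ) : P.d n * Φ.s H (n + 1) = - (Φ.s H n * P.d n) := by
  match n with
  | 0 =>
    simp only [Deg.s]
    rw [Matrix.mul_sub, ← Matrix.mul_assoc, Φ.comm, Matrix.mul_assoc, H.sS, ← Matrix.mul_assoc,
      H.s0, Matrix.mul_sub, Matrix.mul_smul, Matrix.mul_one, Matrix.smul_mul, Matrix.one_mul,
      Matrix.mul_assoc]
    abel
  | n + 1 =>
    simp only [Deg.s]
    rw [Matrix.mul_sub, ← Matrix.mul_assoc, Φ.comm, Matrix.mul_assoc, H.sS, ← Matrix.mul_assoc,
      H.sS, Matrix.mul_sub, Matrix.mul_smul, Matrix.mul_one, Matrix.sub_mul, Matrix.sub_mul,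
      Matrix.smul_mul, Matrix.one_mul, Matrix.mul_assoc (H.σ n), Φ.comm, Matrix.mul_assoc,
      Matrix.mul_assoc]
    abel

/-- `φ σ - σ φ = (-1)^n χ(a)` modulo `𝔪`. -/
theorem Deg.s_mem {χ : maximalIdeal R →ₗ[R] ResidueField R} (Φ : Deg P χ) {a : R}
    (ha : a ∈ maximalIdeal R) (H : Hom P a) {c : R} (hc : residue R c = χ ⟨a, ha⟩) (n : ℕ)
    (i j : Fin (P.b n)) :
    ((-1 : R) ^ n • Φ.s H n - c • 1) i j ∈ maximalIdeal R := by
  refine P.null0 (fun n => (-1 : R) ^ n • Φ.s H n - c • 1) (fun n => ?_) (fun i j => ?_) n i j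
  · rw [Matrix.mul_sub, Matrix.mul_smul, Matrix.mul_smul, Matrix.mul_one, Φ.d_s, Matrix.sub_mul,
      Matrix.smul_mul, Matrix.smul_mul, Matrix.one_mul, pow_succ]
    simp
  · rw [P.eq_i0 i, P.eq_i0 j, ← Ideal.Quotient.eq_zero_iff_mem]
    change residue R _ = 0
    have h1 := Φ.res (fun i => H.σ 0 i P.i0)
    have h2 : P.dm 0 (fun i => H.σ 0 i P.i0) P.i0 = (⟨a, ha⟩ : maximalIdeal R) := by
      ext
      rw [P.dm_coe, mulVec_col, H.s0]
      simp
    rw [h2, mulVec_col, ← hc] at h1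
    simp only [Deg.s, pow_zero, one_smul, Matrix.sub_apply, Matrix.smul_apply, map_sub,
      Matrix.one_apply_eq, smul_eq_mul, mul_one]
    rw [h1, sub_self]

end

end Pool.Agent.Lib.MP_f0b71a_al
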