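import Pool.Agent.Lib.MP_f0b71a_al.Len

/-! # The socle of a module over a one-dimensional quotient ring -/

universe u

namespace Pool.Agent.Lib.MP_f0b71a_al

open IsLocalRing

section

variable {R : Type u} [CommRing R] {T V : Type u} [AddCommGroup T] [Module R T]
  [AddCommGroup V] [Module R V]

/-- A module generated by `n` elements and killed by `I`. -/
theorem length_le_gen (I : Ideal R) {n : ℕ} (q : (Fin n → R) →ₗ[R] V)
    (hs : Function.Surjective q) (hq : ∀ x, (∀ i, x i ∈ I) → q x = 0) :
    Module.length R V ≤ n * Module.length R (R ⧸ I) := by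
  let p : (Fin n → R) →ₗ[R] (Fin n → R ⧸ I) := (Submodule.mkQ I).compLeft (Fin n)
  have h1 := length_range_le q p fun x hx => hq x fun i =>
    (Submodule.Quotient.mk_eq_zero I).1 (congrFun hx i)
  rw [LinearMap.range_eq_top.2 hs, Module.length_top] at h1
  refine h1.trans ?_
  have h2 : Module.length R (Fin n → R ⧸ I) = n * Module.length R (R ⧸ I) := by
    rw [Module.length_pi]
    simp
  rw [← h2]
  exact Module.length_le_of_injective _ (Submodule.subtype_injective _)

theorem exists_gen [Module.Finite R T] : ∃ q : (Fin (mu R T) → R) →ₗ[R] T,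
    Function.Surjective q := by
  obtain ⟨s, hs, hs'⟩ :=
    (Module.Finite.fg_top (R := R) (M := T)).exists_span_finset_card_eq_spanFinrank
  have hs2 : s.card = mu R T := hs
  rw [← hs2]
  let e : Fin s.card → T := fun i => (s.equivFin.symm i : T)
  refine ⟨Fintype.linearCombination R e, ?_⟩
  rw [← LinearMap.range_eq_top, Fintype.range_linearCombination, ← hs']
  congr 1
  ext x
  constructor
  · rintro ⟨i, rfl⟩
    exact (s.equivFin.symm i).2
  · intro hx
    exact ⟨s.equivFin ⟨x, hx⟩, by simp [e]⟩

theorem vec_eq_sum {n : ℕ} (q : (Fin n → R) →ₗ[R] V) (x : Fin n → R) :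
    q x = ∑ i, x i • q (Pi.single i 1) := by
  have h1 : x = ∑ i, x i • (Pi.single i (1 : R) : Fin n → R) := by
    funext j
    simp [Finset.sum_apply, Pi.single_apply]
  conv_lhs => rw [h1]
  rw [map_sum]
  exact Finset.sum_congr rfl fun i _ => map_smul _ _ _

/-- Kernel and cokernel of an endomorphism of a module of finite length. -/
theorem length_ker_eq (u : V →ₗ[R] V) (h : Module.length R V ≠ ⊤) :
    Module.length R (LinearMap.ker u) = Module.length R (V ⧸ LinearMap.range u) := by
  have h1 := length_ker u.rangeRestrict u.surjective_rangeRestrict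
  rw [LinearMap.ker_rangeRestrict] at h1
  have h2 := length_ker (LinearMap.range u).mkQ (Submodule.mkQ_surjective _)
  rw [Submodule.ker_mkQ] at h2
  have h3 : Module.length R (LinearMap.range u) ≠ ⊤ := by
    intro h3
    rw [h3] at h1
    exact h (h1.trans (by simp))
  rw [h1, add_comm] at h2
  exact ENat.add_right_injective_of_ne_top h3 h2

theorem length_ker_pow (u : T →ₗ[R] T) (h : Module.length R (LinearMap.ker u) ≠ ⊤) (k : ℕ) :
    Module.length R (LinearMap.ker (u ^ k)) ≠ ⊤ := by
  induction k with
  | zero =>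
    rw [pow_zero]
    have : LinearMap.ker (1 : T →ₗ[R] T) = ⊥ := by
      rw [Module.End.one_eq_id, LinearMap.ker_id]
    rw [this, Module.length_bot]
    simp
  | succ k ih =>
    let v : LinearMap.ker (u ^ (k + 1)) →ₗ[R] LinearMap.ker u :=
      ((u ^ k).restrict fun x hx => by
        rw [LinearMap.mem_ker] at hx ⊢
        rw [← Module.End.mul_apply, ← pow_succ', hx])
    have h1 := length_ker v.rangeRestrict v.surjective_rangeRestrict
    rw [LinearMap.ker_rangeRestrict] at h1
    rw [h1]
    have h2 : Module.length R (LinearMap.ker v) ≤ Module.length R (LinearMap.ker (u ^ k)) := by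
      refine Module.length_le_of_injective (LinearMap.codRestrict _
        ((LinearMap.ker (u ^ (k + 1))).subtype ∘ₗ (LinearMap.ker v).subtype) ?_) ?_
      · rintro ⟨x, hx⟩
        exact congrArg Subtype.val (LinearMap.mem_ker.1 hx)
      · intro x y hxy
        have h3 := congrArg Subtype.val hxy
        exact Subtype.ext (Subtype.ext h3)
    have h3 : Module.length R (LinearMap.range v) ≤ Module.length R (LinearMap.ker u) :=
      Module.length_le_of_injective _ (Submodule.subtype_injective _)
    exact (lt_of_le_of_lt (add_le_add h2 h3) (WithTop.add_lt_top.2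
      ⟨lt_top_iff_ne_top.2 ih, lt_top_iff_ne_top.2 h⟩)).ne

/-- Kernel and cokernel of an endomorphism with kernel of finite length. -/
theorem length_ker_le [IsNoetherian R T] (u : T →ₗ[R] T)
    (h : Module.length R (LinearMap.ker u) ≠ ⊤) :
    Module.length R (LinearMap.ker u) ≤ Module.length R (T ⧸ LinearMap.range u) := by
  obtain ⟨k, hk⟩ : ∃ k, LinearMap.ker (u ^ (k + 1)) = LinearMap.ker (u ^ (k + 2)) := by
    obtain ⟨k, hk⟩ := monotone_stabilizes_iff_noetherian.2 (inferInstance : IsNoetherian R T)
      ⟨fun k => LinearMap.ker (u ^ k), fun i j hij x hx => by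
        rw [LinearMap.mem_ker] at hx ⊢
        obtain ⟨l, rfl⟩ := Nat.exists_eq_add_of_le' hij
        rw [pow_add, Module.End.mul_apply, hx, map_zero]⟩
    exact ⟨k, (hk (k + 1) (by omega)).symm.trans (hk (k + 2) (by omega))⟩
  let H := LinearMap.ker (u ^ (k + 1))
  let v : H →ₗ[R] H := u.restrict fun x hx => by
    rw [LinearMap.mem_ker] at hx ⊢
    rw [← Module.End.mul_apply, ← pow_succ, pow_succ', Module.End.mul_apply, hx, map_zero]
  have h1 := length_ker_eq v (length_ker_pow u h (k + 1))
  have h2 : Module.length R (LinearMap.ker u) ≤ Module.length R (LinearMap.ker v) := by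
    refine Module.length_le_of_injective (LinearMap.codRestrict _ (LinearMap.codRestrict H
      (LinearMap.ker u).subtype ?_) ?_) ?_
    · rintro ⟨x, hx⟩
      change (u ^ (k + 1)) x = 0
      rw [pow_succ, Module.End.mul_apply, LinearMap.mem_ker.1 hx, map_zero]
    · rintro ⟨x, hx⟩
      rw [LinearMap.mem_ker]
      exact Subtype.ext hx
    · intro x y hxy
      exact Subtype.ext (congrArg (fun z => ((z : H) : T)) (congrArg Subtype.val hxy))
  have h3 : Module.length R (H ⧸ LinearMap.range v) ≤
      Module.length R (T ⧸ LinearMap.range u) := by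
    refine Module.length_le_of_injective (Submodule.mapQ _ _ H.subtype ?_) ?_
    · rintro - ⟨x, rfl⟩
      exact ⟨x, rfl⟩
    · rw [injective_iff_map_eq_zero]
      intro x hx
      obtain ⟨⟨y, hy⟩, rfl⟩ := Submodule.Quotient.mk_surjective _ x
      rw [Submodule.mapQ_apply, Submodule.Quotient.mk_eq_zero] at hx
      obtain ⟨z, hz⟩ := hx
      rw [Submodule.Quotient.mk_eq_zero]
      have hz' : z ∈ H := by
        change z ∈ LinearMap.ker (u ^ (k + 1))
        rw [hk, LinearMap.mem_ker, pow_succ, Module.End.mul_apply, hz]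
        exact hy
      exact ⟨⟨z, hz'⟩, Subtype.ext hz⟩
  exact h2.trans (h1.le.trans h3)

end

section

variable {R : Type u} [CommRing R] [IsLocalRing R] [IsNoetherianRing R] {T : Type u}
  [AddCommGroup T] [Module R T] [Module.Finite R T]

theorem socle_le {J : Ideal R} (hJ : ∀ s ∈ J, ∀ x : T, s • x = 0) {a : R}
    (ha : a ∈ maximalIdeal R) (hfin : Module.length R (R ⧸ (J ⊔ Ideal.span {a})) ≠ ⊤) :
    Module.length R (socle R T) ≤ mu R T * Module.length R (R ⧸ (J ⊔ Ideal.span {a})) := by
  have : IsNoetherian R T := inferInstance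
  let u : T →ₗ[R] T := LinearMap.lsmul R T a
  have hu : ∀ x, u x = a • x := fun x => rfl
  have h1 : Module.length R (socle R T) ≤ Module.length R (LinearMap.ker u) := by
    refine Module.length_le_of_injective (Submodule.inclusion ?_) (Submodule.inclusion_injective _)
    intro x hx
    exact hx a ha
  have h2 : Module.length R (LinearMap.ker u) ≠ ⊤ := by
    obtain ⟨q, hq⟩ := exists_gen (R := R) (T := LinearMap.ker u)
    have h3 := length_le_gen (J ⊔ Ideal.span {a}) q hq (fun x hx => by
      rw [vec_eq_sum]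
      refine Finset.sum_eq_zero fun i _ => ?_
      obtain ⟨y, hy, z, hz, hyz⟩ := Submodule.mem_sup.1 (hx i)
      obtain ⟨r, rfl⟩ := Ideal.mem_span_singleton'.1 hz
      rw [← hyz]
      ext
      rw [add_smul, mul_smul]
      have h4 : a • q (Pi.single i 1) = 0 := Subtype.ext (LinearMap.mem_ker.1 (q _).2)
      rw [h4, smul_zero, add_zero]
      exact hJ y hy _)
    exact (lt_of_le_of_lt h3 (WithTop.mul_lt_top (WithTop.natCast_lt_top _)
      (lt_top_iff_ne_top.2 hfin))).ne
  refine h1.trans ((length_ker_le u h2).trans ?_)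
  obtain ⟨q, hq⟩ := exists_gen (R := R) (T := T)
  refine length_le_gen (J ⊔ Ideal.span {a}) ((LinearMap.range u).mkQ ∘ₗ q)
    ((Submodule.mkQ_surjective _).comp hq) (fun x hx => ?_)
  rw [vec_eq_sum]
  refine Finset.sum_eq_zero fun i _ => ?_
  obtain ⟨y, hy, z, hz, hyz⟩ := Submodule.mem_sup.1 (hx i)
  obtain ⟨r, rfl⟩ := Ideal.mem_span_singleton'.1 hz
  rw [← hyz, ← map_smul]
  change Submodule.Quotient.mk _ = _
  rw [Submodule.Quotient.mk_eq_zero, map_smul, add_smul, hJ y hy, zero_add, mul_smul]
  exact Submodule.smul_mem _ r ⟨_, rfl⟩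

end

end Pool.Agent.Lib.MP_f0b71a_al
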