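import Pool.Agent.Lib.MP_f0b71a_al.Mod

/-! # `Tor`: the maps `Tor(𝔪, 𝔪) → Tor(M, N) → Tor(k, k)` -/

universe u

namespace Pool.Agent.Lib.MP_f0b71a_al

open IsLocalRing
open scoped Matrix

section

variable {R : Type u} [CommRing R] {M : Type u} [AddCommGroup M] [Module R M] (F : Res R M)
  (N : Type u) [AddCommGroup N] [Module R N]

/-- The class of a cycle, linear in a parameter. -/
def torMk {X : Type u} [AddCommGroup X] [Module R X] (n : ℕ) (z : X →ₗ[R] (Fin (F.b n) → N))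
    (hz : ∀ x, z x ∈ cyc F N n) : X →ₗ[R] TorR F N n :=
  (Submodule.mkQ _) ∘ₗ (LinearMap.codRestrict (cyc F N n) z hz)

theorem torMk_eq_zero {X : Type u} [AddCommGroup X] [Module R X] (n : ℕ)
    (z : X →ₗ[R] (Fin (F.b n) → N)) (hz : ∀ x, z x ∈ cyc F N n) (x : X) :
    torMk F N n z hz x = 0 ↔ ∃ y, act N (F.d n) y = z x := by
  have h1 : torMk F N n z hz x = Submodule.Quotient.mk ⟨z x, hz x⟩ := rfl
  rw [h1, Submodule.Quotient.mk_eq_zero]
  rfl

variable {F N}

theorem mem_cyc_succ {n : ℕ} {y : Fin (F.b (n + 1)) → N} :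
    y ∈ cyc F N (n + 1) ↔ act N (F.d n) y = 0 := Iff.rfl

theorem mem_cyc_zero (y : Fin (F.b 0) → N) : y ∈ cyc F N 0 := Submodule.mem_top

variable (F N) in
instance finite_tor [IsNoetherianRing R] [Module.Finite R N] (n : ℕ) :
    Module.Finite R (TorR F N n) := by
  have : IsNoetherian R (Fin (F.b n) → N) := inferInstance
  infer_instance

variable [IsLocalRing R] {P : MinRes R}

/-- The map `Tor_n(M, N) → Tor_n(k, k)`. -/
noncomputable def torTo {ε : M →ₗ[R] ResidueField R} (Le : LiftE F P ε)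
    (δ : N →ₗ[R] ResidueField R) (n : ℕ) : TorR F N n →ₗ[R] (Fin (P.b n) → ResidueField R) :=
  Submodule.liftQ _ ((act (ResidueField R) (Le.e n)) ∘ₗ (δ.compLeft (Fin (F.b n))) ∘ₗ
    (cyc F N n).subtype) (by
    rintro ⟨y, hy⟩ ⟨y', hy'⟩
    rw [LinearMap.mem_ker]
    change act (ResidueField R) (Le.e n) (fun i => δ (y i)) = 0
    have h1 : (fun i => δ (y i)) = act (ResidueField R) (F.d n) (fun i => δ (y' i)) := by
      rw [← act_map]
      funext i
      exact congrArg δ (congrFun hy' i).symm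
    rw [h1, ← act_mul, ← Le.comm, act_mul]
    exact act_mem_zero (P.mem n) _)

theorem torTo_mk {ε : M →ₗ[R] ResidueField R} (Le : LiftE F P ε)
    (δ : N →ₗ[R] ResidueField R) (n : ℕ) {X : Type u} [AddCommGroup X] [Module R X]
    (z : X →ₗ[R] (Fin (F.b n) → N)) (hz : ∀ x, z x ∈ cyc F N n) (x : X) :
    torTo Le δ n (torMk F N n z hz x) = act (ResidueField R) (Le.e n) (fun i => δ (z x i)) := rfl

/-- Every element of the image of `torTo` comes from a cycle and conversely. -/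
theorem mem_range_torTo {ε : M →ₗ[R] ResidueField R} (Le : LiftE F P ε)
    (δ : N →ₗ[R] ResidueField R) (n : ℕ) {y : Fin (F.b n) → N} (hy : y ∈ cyc F N n) :
    act (ResidueField R) (Le.e n) (fun i => δ (y i)) ∈ LinearMap.range (torTo Le δ n) :=
  ⟨Submodule.Quotient.mk ⟨y, hy⟩, rfl⟩

theorem length_torTo [IsNoetherianRing R] [Module.Finite R N] {ε : M →ₗ[R] ResidueField R}
    (Le : LiftE F P ε) (δ : N →ₗ[R] ResidueField R) (n : ℕ) :
    Module.length R (LinearMap.range (torTo Le δ n)) ≤ mu R (TorR F N n) :=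
  length_range_le_mu _ fun _ ha _ => smul_vec_eq_zero ha _

/-- A cycle `v` of `P ⊗ 𝔪` gives a cycle of `F ⊗ N`. -/
theorem cyc_of {f : maximalIdeal R →ₗ[R] M} (Lf : LiftM F P f) (g : maximalIdeal R →ₗ[R] N)
    (n : ℕ) (x : Fin (P.b (n + 2)) → R) :
    act N (Lf.f n) (fun i => g (P.dm (n + 1) x i)) ∈ cyc F N n := by
  match n with
  | 0 => exact mem_cyc_zero _
  | n + 1 =>
    rw [mem_cyc_succ, ← act_mul, Lf.comm, act_mul, ← act_map, P.act_dm]
    have h1 : (fun i => g ((0 : Fin (P.b (n + 1)) → maximalIdeal R) i)) =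
        (0 : Fin (P.b (n + 1)) → N) := by
      funext i
      simp
    rw [h1, map_zero]

/-- The map `Tor_(n+2)(k, k) → Tor_n(M, N)`, defined on `P_(n+2)`. -/
noncomputable def torOf {f : maximalIdeal R →ₗ[R] M} (Lf : LiftM F P f)
    (g : maximalIdeal R →ₗ[R] N) (n : ℕ) : (Fin (P.b (n + 2)) → R) →ₗ[R] TorR F N n :=
  torMk F N n ((act N (Lf.f n)) ∘ₗ (g.compLeft (Fin (P.b (n + 1)))) ∘ₗ P.dm (n + 1))
    fun x => cyc_of Lf g n x

theorem torOf_eq_zero {f : maximalIdeal R →ₗ[R] M} (Lf : LiftM F P f)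
    (g : maximalIdeal R →ₗ[R] N) (n : ℕ) (x : Fin (P.b (n + 2)) → R) :
    torOf Lf g n x = 0 ↔
      ∃ y, act N (F.d n) y = act N (Lf.f n) (fun i => g (P.dm (n + 1) x i)) :=
  torMk_eq_zero _ _ _ _ _ _

/-- The image of `Tor_(n+2)(k, k)` is in the socle. -/
theorem torOf_socle {f : maximalIdeal R →ₗ[R] M} (Lf : LiftM F P f)
    (g : maximalIdeal R →ₗ[R] N) (n : ℕ) (x : Fin (P.b (n + 2)) → R) :
    torOf Lf g n x ∈ socle R (TorR F N n) := by
  intro b hb
  rw [← map_smul, torOf_eq_zero]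
  refine ⟨fun i => (Lf.f (n + 1) *ᵥ x) i • g ⟨b, hb⟩, ?_⟩
  have h1 : (fun i => g (P.dm (n + 1) (b • x) i)) =
      fun i => (P.d (n + 1) *ᵥ x) i • g ⟨b, hb⟩ := by
    funext i
    rw [← map_smul]
    congr 1
    ext
    rw [P.dm_coe, Matrix.mulVec_smul]
    simp [mul_comm]
  rw [h1, act_smul_const, act_smul_const, Matrix.mulVec_mulVec, Matrix.mulVec_mulVec, Lf.comm]

theorem length_torOf {f : maximalIdeal R →ₗ[R] M} (Lf : LiftM F P f)
    (g : maximalIdeal R →ₗ[R] N) (n : ℕ) {X : Type u} [AddCommGroup X] [Module R X]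
    (q : X →ₗ[R] (Fin (P.b (n + 2)) → R)) :
    Module.length R (LinearMap.range (torOf Lf g n ∘ₗ q)) ≤
      Module.length R (socle R (TorR F N n)) := by
  refine Module.length_le_of_injective (Submodule.inclusion ?_) (Submodule.inclusion_injective _)
  rintro - ⟨x, rfl⟩
  exact torOf_socle Lf g n _

end

end Pool.Agent.Lib.MP_f0b71a_al
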