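import Pool.Agent.Lib.MP_f0b71a_al.TorA

/-! # `Tor`: the two inequalities -/

universe u

namespace Pool.Agent.Lib.MP_f0b71a_al

open IsLocalRing
open scoped Matrix

section

variable {R : Type u} [CommRing R] [IsLocalRing R] {P : MinRes R}

/-- `σ_n` with values in `P_(n+1) ⊗ k`. -/
noncomputable def Hom.A {a : R} (H : Hom P a) (n : ℕ) :
    (Fin (P.b n) → R) →ₗ[R] (Fin (P.b (n + 1)) → ResidueField R) :=
  red _ ∘ₗ (H.σ n).mulVecLin

theorem Hom.A_apply {a : R} (H : Hom P a) (n : ℕ) (x : Fin (P.b n) → R) :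
    H.A n x = red _ (H.σ n *ᵥ x) := rfl

/-- The rank `β_(n+1)` is at most the sum of the ranks of two consecutive `σ`. -/
theorem Hom.betti_le {χ : maximalIdeal R →ₗ[R] ResidueField R} (Φ : Deg P χ) {a : R}
    (ha : a ∈ maximalIdeal R) (H : Hom P a) (hc : χ ⟨a, ha⟩ = 1) (n : ℕ) :
    (P.b (n + 1) : ℕ∞) ≤ Module.length R (LinearMap.range (H.A n)) +
      Module.length R (LinearMap.range (H.A (n + 1))) := by
  have h1 := length_main (red (R := R) (P.b (n + 1))) (red (R := R) (P.b (n + 1))) (H.A (n + 1))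
    (LinearMap.range (H.A n)) (fun x hx => hx) (fun x hx => by
      have h2 := Φ.rel ha H (c := 1) (by rw [hc, map_one]) n (red _ x)
      rw [← red_mulVec, ← H.A_apply, hx, map_zero, zero_sub, ← red_mulVec, ← red_mulVec,
        one_smul] at h2
      refine ⟨(-1 : R) ^ n • (Φ.φ n *ᵥ x), ?_⟩
      rw [map_smul, H.A_apply, ← neg_inj, ← smul_neg, h2, smul_smul, ← pow_add,
        show n + (n + 1) = 2 * n + 1 by ring, pow_succ, pow_mul]
      simp)
  have h2 : LinearMap.range (red (R := R) (P.b (n + 1))) = ⊤ :=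
    LinearMap.range_eq_top.2 (red_surjective _)
  rw [h2, Module.length_top, length_vec] at h1
  exact h1

/-- If `φ σ x = 0` then `σ x = 0` modulo `𝔪`. -/
theorem Hom.inj {χ : maximalIdeal R →ₗ[R] ResidueField R} (Φ : Deg P χ) {a : R}
    (ha : a ∈ maximalIdeal R) (H : Hom P a) (hc : χ ⟨a, ha⟩ = 1) (n : ℕ)
    (y : Fin (P.b n) → ResidueField R)
    (hy : act (ResidueField R) (Φ.φ n) (act (ResidueField R) (H.σ n) y) = 0) :
    act (ResidueField R) (H.σ n) y = 0 := by
  have h2 := Φ.rel ha H (c := 1) (by rw [hc, map_one]) n (act (ResidueField R) (H.σ n) y)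
  rw [H.sq, hy, map_zero, map_zero, sub_zero, one_smul] at h2
  have h3 : (-1 : R) ^ (n + 1) • (-1 : R) ^ (n + 1) • act (ResidueField R) (H.σ n) y =
      act (ResidueField R) (H.σ n) y := by
    rw [smul_smul, ← mul_pow]
    simp
  rw [← h3, ← h2, smul_zero]

end

section

variable {R : Type u} [CommRing R] [IsLocalRing R] [IsNoetherianRing R] {P : MinRes R}
  {M : Type u} [AddCommGroup M] [Module R M] {F : Res R M}
  {N : Type u} [AddCommGroup N] [Module R N] [Module.Finite R N]

/-- The socle inequality for `Tor`. -/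
theorem tor_socle {f : maximalIdeal R →ₗ[R] M} {ε : M →ₗ[R] ResidueField R}
    {g : maximalIdeal R →ₗ[R] N} {δ : N →ₗ[R] ResidueField R} (Lf : LiftM F P f)
    (Le : LiftE F P ε) {a : R} (ha : a ∈ maximalIdeal R) (H : Hom P a)
    (h1 : ε (f ⟨a, ha⟩) = 1) (h2 : δ (g ⟨a, ha⟩) = 1) (n : ℕ) :
    Module.length R (LinearMap.range (H.A (n + 1))) ≤
      mu R (TorR F N (n + 1)) + Module.length R (socle R (TorR F N n)) := by
  set Φ := mkDeg Lf Le with hΦ
  have key := length_main (H.A (n + 1))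
    (red _ ∘ₗ (Φ.φ (n + 1) * H.σ (n + 1)).mulVecLin)
    (torOf Lf g n ∘ₗ (H.σ (n + 1)).mulVecLin) (LinearMap.range (torTo Le δ (n + 1)))
    (fun x hx => by
      have h3 : act (ResidueField R) (Φ.φ (n + 1)) (act (ResidueField R) (H.σ (n + 1)) (red _ x)) =
          0 := by
        rw [← act_mul, ← red_mulVec]
        exact hx
      have h4 := H.inj Φ ha h1 (n + 1) (red _ x) h3
      rw [← red_mulVec] at h4
      exact h4)
    (fun x hx => by
      have hx' : torOf Lf g n (H.σ (n + 1) *ᵥ x) = 0 := hx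
      rw [torOf_eq_zero] at hx'
      obtain ⟨y, hy⟩ := hx'
      set v := P.dm (n + 1) (H.σ (n + 1) *ᵥ x) with hv
      have h5 : act N (P.d n) (fun i => g (v i)) = 0 := by
        rw [← act_map, hv, P.act_dm]
        funext i
        simp
      have h6 : act N (Lf.f (n + 1) * H.σ (n + 1)) (fun i => g (v i)) - a • y ∈
          cyc F N (n + 1) := by
        rw [mem_cyc_succ, map_sub, map_smul, hy, ← act_mul, ← Matrix.mul_assoc, Lf.comm,
          Matrix.mul_assoc, H.sS, act_mul, act_sub, act_mul, h5, map_zero, sub_zero, act_smul,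
          act_one, map_smul, sub_self]
      have h7 := mem_range_torTo Le δ (n + 1) h6
      have h8 : act (ResidueField R) (Le.e (n + 1))
          (fun i => δ ((act N (Lf.f (n + 1) * H.σ (n + 1)) (fun i => g (v i)) - a • y) i)) =
          (red _ ∘ₗ (Φ.φ (n + 1) * H.σ (n + 1)).mulVecLin) x := by
        have h9 : (fun i => δ ((act N (Lf.f (n + 1) * H.σ (n + 1)) (fun i => g (v i)) - a • y) i)) =
            act (ResidueField R) (Lf.f (n + 1) * H.σ (n + 1)) (fun i => (δ ∘ₗ g) (v i)) := by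
          have h10 := act_map δ (Lf.f (n + 1) * H.σ (n + 1)) (fun i => g (v i))
          funext i
          rw [Pi.sub_apply, map_sub, Pi.smul_apply, map_smul, smul_residue_eq_zero ha, sub_zero]
          exact congrFun h10 i
        have h11 : (fun i => (δ ∘ₗ g) (v i)) = P.D (δ ∘ₗ g) (n + 1) (H.σ (n + 1) *ᵥ x) := rfl
        rw [h9, h11, H.D_σ (ψ := δ ∘ₗ g) ha (c := 1) (by rw [map_one]; exact h2.symm), one_smul,
          ← act_mul, ← Matrix.mul_assoc, act_mul, map_sub, H.sq, sub_zero, ← red_mulVec,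
          ← red_mulVec, Matrix.mulVec_mulVec]
        rfl
      rw [h8] at h7
      exact h7)
  refine key.trans (add_le_add (length_torTo Le δ (n + 1)) ?_)
  exact length_torOf Lf g n _

end

end Pool.Agent.Lib.MP_f0b71a_al
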