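import Pool.Agent.Lib.MP_f0b71a_al.TorB

/-! # Independent directions, `Tor` -/

universe u

namespace Pool.Agent.Lib.MP_f0b71a_al

open IsLocalRing
open scoped Matrix

section

variable {R : Type u} [CommRing R] {U V : Type u} [AddCommGroup U] [Module R U]
  [AddCommGroup V] [Module R V]

theorem length_sup_le (A B : Submodule R V) :
    Module.length R (A ⊔ B : Submodule R V) ≤ Module.length R A + Module.length R B := by
  rw [← Module.length_prod]
  let h : (A × B) →ₗ[R] (A ⊔ B : Submodule R V) :=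
    LinearMap.coprod (Submodule.inclusion le_sup_left) (Submodule.inclusion le_sup_right)
  refine Module.length_le_of_surjective h ?_
  rintro ⟨x, hx⟩
  obtain ⟨y, hy, z, hz, rfl⟩ := Submodule.mem_sup.1 hx
  exact ⟨(⟨y, hy⟩, ⟨z, hz⟩), rfl⟩

theorem length_map_le (f : U →ₗ[R] V) (A : Submodule R U) :
    Module.length R (A.map f) ≤ Module.length R A := by
  refine Module.length_le_of_surjective ((f.domRestrict A).codRestrict (A.map f) ?_) ?_
  · rintro ⟨x, hx⟩
    exact ⟨x, hx, rfl⟩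
  · rintro ⟨-, x, hx, rfl⟩
    exact ⟨⟨x, hx⟩, rfl⟩

end

section

variable {R : Type u} [CommRing R] [IsLocalRing R] {P : MinRes R}

/-- The operator `x ↦ χ x ψ` on `Tor(k, k)`. -/
noncomputable def Deg.L {χ : maximalIdeal R →ₗ[R] ResidueField R} (Φ : Deg P χ)
    (ψ : maximalIdeal R →ₗ[R] ResidueField R) (n : ℕ) :
    (Fin (P.b (n + 2)) → R) →ₗ[R] (Fin (P.b n) → ResidueField R) :=
  P.D ψ n ∘ₗ (Φ.φ (n + 1)).mulVecLin

theorem Deg.L_apply {χ : maximalIdeal R →ₗ[R] ResidueField R} (Φ : Deg P χ)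
    (ψ : maximalIdeal R →ₗ[R] ResidueField R) (n : ℕ) (x : Fin (P.b (n + 2)) → R) :
    Φ.L ψ n x = P.D ψ n (Φ.φ (n + 1) *ᵥ x) := rfl

/-- `φ z` is in `I + σ_b I`. -/
theorem Deg.split {χ ψ : maximalIdeal R →ₗ[R] ResidueField R} (Φ : Deg P χ) {b : R}
    (hb : b ∈ maximalIdeal R) (H : Hom P b) (h0 : χ ⟨b, hb⟩ = 0) (h1 : ψ ⟨b, hb⟩ = 1) (n : ℕ)
    (z : Fin (P.b (n + 2)) → R) :
    red _ (Φ.φ (n + 1) *ᵥ z) ∈ LinearMap.range (Φ.L ψ (n + 1)) ⊔
      (LinearMap.range (Φ.L ψ n)).map (act (ResidueField R) (H.σ n)) := by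
  have h2 := H.D_σ (ψ := ψ) hb (c := 1) (by rw [h1, map_one]) n (Φ.φ (n + 1) *ᵥ z)
  rw [one_smul] at h2
  have h3 : red _ (Φ.φ (n + 1) *ᵥ z) = P.D ψ (n + 1) (H.σ (n + 1) *ᵥ (Φ.φ (n + 1) *ᵥ z)) +
      act (ResidueField R) (H.σ n) (P.D ψ n (Φ.φ (n + 1) *ᵥ z)) := by
    rw [h2, sub_add_cancel]
  have h4 : P.D ψ (n + 1) (H.σ (n + 1) *ᵥ (Φ.φ (n + 1) *ᵥ z)) =
      Φ.L ψ (n + 1) (H.σ (n + 2) *ᵥ z) := by
    rw [Φ.L_apply]
    apply P.D_congr
    have h5 := Φ.rel hb H (c := 0) (by rw [h0, map_zero]) (n + 1) (red _ z)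
    rw [zero_smul, smul_zero] at h5
    rw [red_mulVec, red_mulVec, red_mulVec, red_mulVec]
    exact (sub_eq_zero.1 h5).symm
  rw [h3, h4]
  exact Submodule.add_mem_sup ⟨_, rfl⟩ ⟨_, ⟨z, rfl⟩, rfl⟩

/-- Independent directions: the Betti numbers are bounded by the ranks of `x ↦ χ x ψ`. -/
theorem Deg.betti_le {χ ψ : maximalIdeal R →ₗ[R] ResidueField R} (Φ : Deg P χ) {a b : R}
    (ha : a ∈ maximalIdeal R) (hb : b ∈ maximalIdeal R) (Ha : Hom P a) (Hb : Hom P b)
    (h1 : χ ⟨a, ha⟩ = 1) (h2 : χ ⟨b, hb⟩ = 0) (h3 : ψ ⟨b, hb⟩ = 1) (n : ℕ) :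
    (P.b (n + 2) : ℕ∞) ≤ Module.length R (LinearMap.range (Φ.L ψ (n + 2))) +
      2 * Module.length R (LinearMap.range (Φ.L ψ (n + 1))) +
      Module.length R (LinearMap.range (Φ.L ψ n)) := by
  set I := fun n => LinearMap.range (Φ.L ψ n) with hI
  set S : Submodule R (Fin (P.b (n + 2)) → ResidueField R) :=
    (I (n + 2) ⊔ (I (n + 1)).map (act (ResidueField R) (Hb.σ (n + 1)))) ⊔
      (I (n + 1) ⊔ (I n).map (act (ResidueField R) (Hb.σ n))).map
        (act (ResidueField R) (Ha.σ (n + 1))) with hS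
  have h4 : S = ⊤ := by
    rw [eq_top_iff]
    rintro y -
    obtain ⟨x, rfl⟩ := red_surjective (R := R) _ y
    have h5 := Φ.rel ha Ha (c := 1) (by rw [h1, map_one]) (n + 1) (red _ x)
    rw [one_smul] at h5
    have h6 : red _ x = (-1 : R) ^ (n + 2) •
        (act (ResidueField R) (Φ.φ (n + 2)) (act (ResidueField R) (Ha.σ (n + 2)) (red _ x)) -
      act (ResidueField R) (Ha.σ (n + 1)) (act (ResidueField R) (Φ.φ (n + 1)) (red _ x))) := by
      rw [h5, smul_smul, ← mul_pow]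
      simp
    rw [h6]
    refine Submodule.smul_mem _ _ (Submodule.sub_mem _ ?_ ?_)
    · refine Submodule.mem_sup_left ?_
      rw [← red_mulVec, ← red_mulVec]
      exact Φ.split hb Hb h2 h3 (n + 1) _
    · refine Submodule.mem_sup_right ?_
      rw [← red_mulVec]
      exact ⟨_, Φ.split hb Hb h2 h3 n x, rfl⟩
  have h5 : Module.length R S = P.b (n + 2) := by
    rw [h4, Module.length_top, length_vec]
  rw [← h5]
  refine (length_sup_le _ _).trans ?_
  refine (add_le_add (length_sup_le _ _) ((length_map_le _ _).trans (length_sup_le _ _))).trans ?_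
  refine (add_le_add (add_le_add le_rfl (length_map_le _ _))
    (add_le_add le_rfl (length_map_le _ _))).trans ?_
  have h6 : ∀ x y z : ℕ∞, x + y + (y + z) ≤ x + 2 * y + z := fun x y z => le_of_eq (by ring)
  exact h6 _ _ _

end

section

variable {R : Type u} [CommRing R] [IsLocalRing R] [IsNoetherianRing R] {P : MinRes R}
  {M : Type u} [AddCommGroup M] [Module R M] {F : Res R M}
  {N : Type u} [AddCommGroup N] [Module R N] [Module.Finite R N]

theorem tor_indep {f : maximalIdeal R →ₗ[R] M} {ε : M →ₗ[R] ResidueField R}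
    {g : maximalIdeal R →ₗ[R] N} {δ : N →ₗ[R] ResidueField R} (Lf : LiftM F P f)
    (Le : LiftE F P ε) (n : ℕ) :
    Module.length R (LinearMap.range ((mkDeg Lf Le).L (δ ∘ₗ g) n)) ≤ mu R (TorR F N n) := by
  refine le_trans ?_ (length_torTo Le δ n)
  refine Module.length_le_of_injective (Submodule.inclusion ?_) (Submodule.inclusion_injective _)
  rintro - ⟨x, rfl⟩
  refine ⟨torOf Lf g n x, ?_⟩
  have h1 := (mkDeg Lf Le).D_φ (ψ := δ ∘ₗ g) n x
  rw [Deg.L_apply, h1]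
  have h2 : (mkDeg Lf Le).φ n = Le.e n * Lf.f n := rfl
  rw [h2, act_mul]
  have h3 : torTo Le δ n (torOf Lf g n x) = act (ResidueField R) (Le.e n)
      (fun i => δ (act N (Lf.f n) (fun i => g (P.dm (n + 1) x i)) i)) := rfl
  rw [h3, act_map]
  rfl

end

end Pool.Agent.Lib.MP_f0b71a_al
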